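import Mathlib

/-!
Polynomial identities for adding a block with a cut vertex (generated by a script).
-/

namespace Pool.Agent.CL

set_option maxHeartbeats 4000000
set_option linter.unusedVariables false

theorem L1_q0 (p0 p1 p2 p3 p4 p5 p6 p7 p8 p9 p10 p11 p12 p13 p14 s al be ga de S Al Be Ga De y0 y1
    y2 y7 : ℝ)
    (hp : p14 = p10 + p11 + p12 + p13 - p7 - p8 - p9)
    (h0 : y0 = s * S * p0 + s * Al * p2 + s * Be * p0 + s * Ga * p0 + s * De * p2 + al * S * p1 +
        al * Al * p7 + al * Be * p1 + al * Ga * p1 + al * De * p7 + be * S * p0 + be * Al * p2 +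
        be * Be * p6 + be * Ga * p5 + be * De * p13 + ga * S * p0 + ga * Al * p2 + ga * Be * p4 +
        ga * Ga * p3 + ga * De * p12 + de * S * p1 + de * Al * p7 + de * Be * p11 + de * Ga * p10
        + de * De * p14)
    (h1 : y1 = s * S * p1 + s * Al * p7 + s * Be * p1 + s * Ga * p1 + s * De * p7 + be * S * p1 +
        be * Al * p7 + be * Be * p11 + be * Ga * p10 + be * De * p14 + ga * S * p1 + ga * Al * p7
        + ga * Be * p11 + ga * Ga * p10 + ga * De * p14)
    (h2 : y2 = s * S * p2 + s * Be * p2 + s * Ga * p2 + al * S * p7 + al * Be * p7 + al * Ga * p7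
        + be * S * p2 + be * Be * p13 + be * Ga * p13 + ga * S * p2 + ga * Be * p12 + ga * Ga *
        p12 + de * S * p7 + de * Be * p14 + de * Ga * p14)
    (h7 : y7 = s * S * p7 + s * Be * p7 + s * Ga * p7 + be * S * p7 + be * Be * p14 + be * Ga *
        p14 + ga * S * p7 + ga * Be * p14 + ga * Ga * p14)
    : - y0 * y7 + y1 * y2 = (s * S + S * (be + ga) + s * (Be + Ga)) * (s * S + S * (be + ga) + s *
        (Be + Ga)) * (- p0 * p7 + p1 * p2) + (s * S + S * (be + ga) + s * (Be + Ga)) * (Ga * ga) *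
        (- p0 * p14 + p1 * p12 - p10 * p12 + p10 * p2 + p14 * p3 - p3 * p7) + (s * S + S * (be +
        ga) + s * (Be + Ga)) * (Ga * be) * (- p0 * p14 + p1 * p13 - p10 * p13 + p10 * p2 + p14 *
        p5 - p5 * p7) + (s * S + S * (be + ga) + s * (Be + Ga)) * (Be * ga) * (- p0 * p14 + p1 *
        p12 - p11 * p12 + p11 * p2 + p14 * p4 - p4 * p7) + (s * S + S * (be + ga) + s * (Be + Ga))
        * (Be * be) * (- p0 * p14 + p1 * p13 - p11 * p13 + p11 * p2 + p14 * p6 - p6 * p7) + ((Ga *
        Ga + S * Ga - (S * De - (Al * Be + Be * Ga + Ga * Al))) * (ga * ga + s * ga - (s * de -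
        (al * be + be * ga + ga * al)))) * (p10 * p12 - p14 * p3) + ((Ga * Ga + S * Ga - (S * De -
        (Al * Be + Be * Ga + Ga * Al))) * (be * be + s * be - (s * de - (al * be + be * ga + ga *
        al)))) * (p10 * p13 - p14 * p5) + ((Be * Be + S * Be - (S * De - (Al * Be + Be * Ga + Ga *
        Al))) * (ga * ga + s * ga - (s * de - (al * be + be * ga + ga * al)))) * (p11 * p12 - p14
        * p4) + ((Be * Be + S * Be - (S * De - (Al * Be + Be * Ga + Ga * Al))) * (be * be + s * be
        - (s * de - (al * be + be * ga + ga * al)))) * (p11 * p13 - p14 * p6) + ((Ga * Ga + S * Ga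
        - (S * De - (Al * Be + Be * Ga + Ga * Al))) * (ga * be + (s * de - (al * be + be * ga + ga
        * al)))) * (p1 * p14 + p10 * p12 + p10 * p13 - p10 * p7 - p14 * p3 - p14 * p5) + ((Ga * Be
        + (S * De - (Al * Be + Be * Ga + Ga * Al))) * (ga * ga + s * ga - (s * de - (al * be + be
        * ga + ga * al)))) * (p10 * p12 + p11 * p12 - p12 * p7 + p14 * p2 - p14 * p3 - p14 * p4) +
        ((Ga * Be + (S * De - (Al * Be + Be * Ga + Ga * Al))) * (be * be + s * be - (s * de - (al
        * be + be * ga + ga * al)))) * (p10 * p13 + p11 * p13 - p13 * p7 + p14 * p2 - p14 * p5 -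
        p14 * p6) + ((Be * Be + S * Be - (S * De - (Al * Be + Be * Ga + Ga * Al))) * (ga * be + (s
        * de - (al * be + be * ga + ga * al)))) * (p1 * p14 + p11 * p12 + p11 * p13 - p11 * p7 -
        p14 * p4 - p14 * p6) + ((Ga * Be + (S * De - (Al * Be + Be * Ga + Ga * Al))) * (ga * be +
        (s * de - (al * be + be * ga + ga * al)))) * (p1 * p14 + p10 * p13 - p10 * p14 + p11 * p12
        - p11 * p14 - p12 * p14 - p13 * p14 + p14 * p14 + p14 * p2 - p14 * p3 - p14 * p6 + 2 * p14
        * p8 - p7 * p8) + ((Ga * Be + (S * De - (Al * Be + Be * Ga + Ga * Al))) * (ga * be + (s *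
        de - (al * be + be * ga + ga * al)))) * (p1 * p14 + p10 * p12 - p10 * p14 + p11 * p13 -
        p11 * p14 - p12 * p14 - p13 * p14 + p14 * p14 + p14 * p2 - p14 * p4 - p14 * p5 + 2 * p14 *
        p9 - p7 * p9) := by
  subst hp
  subst h0
  subst h1
  subst h2
  subst h7
  ring

theorem L1_q1 (p0 p1 p2 p3 p4 p5 p6 p7 p8 p9 p10 p11 p12 p13 p14 s al be ga de S Al Be Ga De y0 y1
    y2 y3 y7 y10 y12 y14 : ℝ)
    (hp : p14 = p10 + p11 + p12 + p13 - p7 - p8 - p9)
    (h0 : y0 = s * S * p0 + s * Al * p2 + s * Be * p0 + s * Ga * p0 + s * De * p2 + al * S * p1 +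
        al * Al * p7 + al * Be * p1 + al * Ga * p1 + al * De * p7 + be * S * p0 + be * Al * p2 +
        be * Be * p6 + be * Ga * p5 + be * De * p13 + ga * S * p0 + ga * Al * p2 + ga * Be * p4 +
        ga * Ga * p3 + ga * De * p12 + de * S * p1 + de * Al * p7 + de * Be * p11 + de * Ga * p10
        + de * De * p14)
    (h1 : y1 = s * S * p1 + s * Al * p7 + s * Be * p1 + s * Ga * p1 + s * De * p7 + be * S * p1 +
        be * Al * p7 + be * Be * p11 + be * Ga * p10 + be * De * p14 + ga * S * p1 + ga * Al * p7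
        + ga * Be * p11 + ga * Ga * p10 + ga * De * p14)
    (h2 : y2 = s * S * p2 + s * Be * p2 + s * Ga * p2 + al * S * p7 + al * Be * p7 + al * Ga * p7
        + be * S * p2 + be * Be * p13 + be * Ga * p13 + ga * S * p2 + ga * Be * p12 + ga * Ga *
        p12 + de * S * p7 + de * Be * p14 + de * Ga * p14)
    (h3 : y3 = s * S * p3 + s * Al * p12 + s * Be * p3 + s * Ga * p3 + s * De * p12 + al * S * p10
        + al * Al * p14 + al * Be * p10 + al * Ga * p10 + al * De * p14 + be * S * p3 + be * Al *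
        p12 + be * Be * p8 + be * Ga * p10 + be * De * p14 + ga * S * p3 + ga * Al * p12 + ga * Be
        * p12 + de * S * p10 + de * Al * p14 + de * Be * p14)
    (h7 : y7 = s * S * p7 + s * Be * p7 + s * Ga * p7 + be * S * p7 + be * Be * p14 + be * Ga *
        p14 + ga * S * p7 + ga * Be * p14 + ga * Ga * p14)
    (h10 : y10 = s * S * p10 + s * Al * p14 + s * Be * p10 + s * Ga * p10 + s * De * p14 + be * S
        * p10 + be * Al * p14 + be * Be * p14 + ga * S * p10 + ga * Al * p14 + ga * Be * p14)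
    (h12 : y12 = s * S * p12 + s * Be * p12 + s * Ga * p12 + al * S * p14 + al * Be * p14 + al *
        Ga * p14 + be * S * p12 + be * Be * p14 + be * Ga * p14 + ga * S * p12 + de * S * p14)
    (h14 : y14 = s * S * p14 + s * Be * p14 + s * Ga * p14 + be * S * p14 + ga * S * p14)
    : - y0 * y14 + y1 * y12 - y10 * y12 + y10 * y2 + y14 * y3 - y3 * y7 = (s * S + S * (be + ga) +
        s * (Be + Ga)) * (s * S + S * (be + ga) + s * (Be + Ga)) * (- p0 * p14 + p1 * p12 - p10 *
        p12 + p10 * p2 + p14 * p3 - p3 * p7) + 2 * (s * S + S * (be + ga) + s * (Be + Ga)) * (Ga *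
        ga) * (p10 * p12 - p14 * p3) + (s * S + S * (be + ga) + s * (Be + Ga)) * (Ga * be) * (p1 *
        p14 + p10 * p12 + p10 * p13 - p10 * p7 - p14 * p3 - p14 * p5) + (s * S + S * (be + ga) + s
        * (Be + Ga)) * (Be * ga) * (p10 * p12 + p11 * p12 - p12 * p7 + p14 * p2 - p14 * p3 - p14 *
        p4) + (s * S + S * (be + ga) + s * (Be + Ga)) * (Be * be) * (p1 * p14 + p10 * p13 - p10 *
        p14 + p11 * p12 - p11 * p14 - p12 * p14 - p13 * p14 + p14 * p14 + p14 * p2 - p14 * p3 -
        p14 * p6 + 2 * p14 * p8 - p7 * p8) + ((Ga * Be + (S * De - (Al * Be + Be * Ga + Ga * Al)))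
        * (ga * be + (s * de - (al * be + be * ga + ga * al)))) * (p10 * p14 + p12 * p14 - p14 *
        p14 - p14 * p8) + ((Ga * Be + (S * De - (Al * Be + Be * Ga + Ga * Al))) * (be * be + s *
        be - (s * de - (al * be + be * ga + ga * al)))) * (p11 * p14 + p12 * p14 - p14 * p7 - p14
        * p8) + ((Be * Be + S * Be - (S * De - (Al * Be + Be * Ga + Ga * Al))) * (ga * be + (s *
        de - (al * be + be * ga + ga * al)))) * (p10 * p14 + p13 * p14 - p14 * p7 - p14 * p8) +
        ((Be * Be + S * Be - (S * De - (Al * Be + Be * Ga + Ga * Al))) * (be * be + s * be - (s *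
        de - (al * be + be * ga + ga * al)))) * (p11 * p14 + p13 * p14 - p14 * p14 - p14 * p8) :=
        by
  subst hp
  subst h0
  subst h1
  subst h2
  subst h3
  subst h7
  subst h10
  subst h12
  subst h14
  ring

theorem L1_q2 (p0 p1 p2 p3 p4 p5 p6 p7 p8 p9 p10 p11 p12 p13 p14 s al be ga de S Al Be Ga De y0 y1
    y2 y5 y7 y10 y13 y14 : ℝ)
    (hp : p14 = p10 + p11 + p12 + p13 - p7 - p8 - p9)
    (h0 : y0 = s * S * p0 + s * Al * p2 + s * Be * p0 + s * Ga * p0 + s * De * p2 + al * S * p1 +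
        al * Al * p7 + al * Be * p1 + al * Ga * p1 + al * De * p7 + be * S * p0 + be * Al * p2 +
        be * Be * p6 + be * Ga * p5 + be * De * p13 + ga * S * p0 + ga * Al * p2 + ga * Be * p4 +
        ga * Ga * p3 + ga * De * p12 + de * S * p1 + de * Al * p7 + de * Be * p11 + de * Ga * p10
        + de * De * p14)
    (h1 : y1 = s * S * p1 + s * Al * p7 + s * Be * p1 + s * Ga * p1 + s * De * p7 + be * S * p1 +
        be * Al * p7 + be * Be * p11 + be * Ga * p10 + be * De * p14 + ga * S * p1 + ga * Al * p7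
        + ga * Be * p11 + ga * Ga * p10 + ga * De * p14)
    (h2 : y2 = s * S * p2 + s * Be * p2 + s * Ga * p2 + al * S * p7 + al * Be * p7 + al * Ga * p7
        + be * S * p2 + be * Be * p13 + be * Ga * p13 + ga * S * p2 + ga * Be * p12 + ga * Ga *
        p12 + de * S * p7 + de * Be * p14 + de * Ga * p14)
    (h5 : y5 = s * S * p5 + s * Al * p13 + s * Be * p5 + s * Ga * p5 + s * De * p13 + al * S * p10
        + al * Al * p14 + al * Be * p10 + al * Ga * p10 + al * De * p14 + be * S * p5 + be * Al *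
        p13 + be * Be * p13 + ga * S * p5 + ga * Al * p13 + ga * Be * p9 + ga * Ga * p10 + ga * De
        * p14 + de * S * p10 + de * Al * p14 + de * Be * p14)
    (h7 : y7 = s * S * p7 + s * Be * p7 + s * Ga * p7 + be * S * p7 + be * Be * p14 + be * Ga *
        p14 + ga * S * p7 + ga * Be * p14 + ga * Ga * p14)
    (h10 : y10 = s * S * p10 + s * Al * p14 + s * Be * p10 + s * Ga * p10 + s * De * p14 + be * S
        * p10 + be * Al * p14 + be * Be * p14 + ga * S * p10 + ga * Al * p14 + ga * Be * p14)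
    (h13 : y13 = s * S * p13 + s * Be * p13 + s * Ga * p13 + al * S * p14 + al * Be * p14 + al *
        Ga * p14 + be * S * p13 + ga * S * p13 + ga * Be * p14 + ga * Ga * p14 + de * S * p14)
    (h14 : y14 = s * S * p14 + s * Be * p14 + s * Ga * p14 + be * S * p14 + ga * S * p14)
    : - y0 * y14 + y1 * y13 - y10 * y13 + y10 * y2 + y14 * y5 - y5 * y7 = (s * S + S * (be + ga) +
        s * (Be + Ga)) * (s * S + S * (be + ga) + s * (Be + Ga)) * (- p0 * p14 + p1 * p13 - p10 *
        p13 + p10 * p2 + p14 * p5 - p5 * p7) + 2 * (s * S + S * (be + ga) + s * (Be + Ga)) * (Ga *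
        be) * (p10 * p13 - p14 * p5) + (s * S + S * (be + ga) + s * (Be + Ga)) * (Ga * ga) * (p1 *
        p14 + p10 * p12 + p10 * p13 - p10 * p7 - p14 * p3 - p14 * p5) + (s * S + S * (be + ga) + s
        * (Be + Ga)) * (Be * be) * (p10 * p13 + p11 * p13 - p13 * p7 + p14 * p2 - p14 * p5 - p14 *
        p6) + (s * S + S * (be + ga) + s * (Be + Ga)) * (Be * ga) * (p1 * p14 + p10 * p12 - p10 *
        p14 + p11 * p13 - p11 * p14 - p12 * p14 - p13 * p14 + p14 * p14 + p14 * p2 - p14 * p4 -
        p14 * p5 + 2 * p14 * p9 - p7 * p9) - ((Ga * Be + (S * De - (Al * Be + Be * Ga + Ga * Al)))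
        * (ga * ga + s * ga - (s * de - (al * be + be * ga + ga * al)))) * (p10 * p14 + p12 * p14
        - p14 * p14 - p14 * p8) - ((Ga * Be + (S * De - (Al * Be + Be * Ga + Ga * Al))) * (ga * be
        + (s * de - (al * be + be * ga + ga * al)))) * (p11 * p14 + p12 * p14 - p14 * p7 - p14 *
        p8) - ((Be * Be + S * Be - (S * De - (Al * Be + Be * Ga + Ga * Al))) * (ga * ga + s * ga -
        (s * de - (al * be + be * ga + ga * al)))) * (p10 * p14 + p13 * p14 - p14 * p7 - p14 * p8)
        - ((Be * Be + S * Be - (S * De - (Al * Be + Be * Ga + Ga * Al))) * (ga * be + (s * de -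
        (al * be + be * ga + ga * al)))) * (p11 * p14 + p13 * p14 - p14 * p14 - p14 * p8) := by
  subst hp
  subst h0
  subst h1
  subst h2
  subst h5
  subst h7
  subst h10
  subst h13
  subst h14
  ring

theorem L1_q3 (p0 p1 p2 p3 p4 p5 p6 p7 p8 p9 p10 p11 p12 p13 p14 s al be ga de S Al Be Ga De y0 y1
    y2 y4 y7 y11 y12 y14 : ℝ)
    (hp : p14 = p10 + p11 + p12 + p13 - p7 - p8 - p9)
    (h0 : y0 = s * S * p0 + s * Al * p2 + s * Be * p0 + s * Ga * p0 + s * De * p2 + al * S * p1 +
        al * Al * p7 + al * Be * p1 + al * Ga * p1 + al * De * p7 + be * S * p0 + be * Al * p2 +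
        be * Be * p6 + be * Ga * p5 + be * De * p13 + ga * S * p0 + ga * Al * p2 + ga * Be * p4 +
        ga * Ga * p3 + ga * De * p12 + de * S * p1 + de * Al * p7 + de * Be * p11 + de * Ga * p10
        + de * De * p14)
    (h1 : y1 = s * S * p1 + s * Al * p7 + s * Be * p1 + s * Ga * p1 + s * De * p7 + be * S * p1 +
        be * Al * p7 + be * Be * p11 + be * Ga * p10 + be * De * p14 + ga * S * p1 + ga * Al * p7
        + ga * Be * p11 + ga * Ga * p10 + ga * De * p14)
    (h2 : y2 = s * S * p2 + s * Be * p2 + s * Ga * p2 + al * S * p7 + al * Be * p7 + al * Ga * p7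
        + be * S * p2 + be * Be * p13 + be * Ga * p13 + ga * S * p2 + ga * Be * p12 + ga * Ga *
        p12 + de * S * p7 + de * Be * p14 + de * Ga * p14)
    (h4 : y4 = s * S * p4 + s * Al * p12 + s * Be * p4 + s * Ga * p4 + s * De * p12 + al * S * p11
        + al * Al * p14 + al * Be * p11 + al * Ga * p11 + al * De * p14 + be * S * p4 + be * Al *
        p12 + be * Be * p11 + be * Ga * p9 + be * De * p14 + ga * S * p4 + ga * Al * p12 + ga * Ga
        * p12 + de * S * p11 + de * Al * p14 + de * Ga * p14)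
    (h7 : y7 = s * S * p7 + s * Be * p7 + s * Ga * p7 + be * S * p7 + be * Be * p14 + be * Ga *
        p14 + ga * S * p7 + ga * Be * p14 + ga * Ga * p14)
    (h11 : y11 = s * S * p11 + s * Al * p14 + s * Be * p11 + s * Ga * p11 + s * De * p14 + be * S
        * p11 + be * Al * p14 + be * Ga * p14 + ga * S * p11 + ga * Al * p14 + ga * Ga * p14)
    (h12 : y12 = s * S * p12 + s * Be * p12 + s * Ga * p12 + al * S * p14 + al * Be * p14 + al *
        Ga * p14 + be * S * p12 + be * Be * p14 + be * Ga * p14 + ga * S * p12 + de * S * p14)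
    (h14 : y14 = s * S * p14 + s * Be * p14 + s * Ga * p14 + be * S * p14 + ga * S * p14)
    : - y0 * y14 + y1 * y12 - y11 * y12 + y11 * y2 + y14 * y4 - y4 * y7 = (s * S + S * (be + ga) +
        s * (Be + Ga)) * (s * S + S * (be + ga) + s * (Be + Ga)) * (- p0 * p14 + p1 * p12 - p11 *
        p12 + p11 * p2 + p14 * p4 - p4 * p7) + 2 * (s * S + S * (be + ga) + s * (Be + Ga)) * (Be *
        ga) * (p11 * p12 - p14 * p4) + (s * S + S * (be + ga) + s * (Be + Ga)) * (Ga * ga) * (p10
        * p12 + p11 * p12 - p12 * p7 + p14 * p2 - p14 * p3 - p14 * p4) + (s * S + S * (be + ga) +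
        s * (Be + Ga)) * (Be * be) * (p1 * p14 + p11 * p12 + p11 * p13 - p11 * p7 - p14 * p4 - p14
        * p6) + (s * S + S * (be + ga) + s * (Be + Ga)) * (Ga * be) * (p1 * p14 + p10 * p12 - p10
        * p14 + p11 * p13 - p11 * p14 - p12 * p14 - p13 * p14 + p14 * p14 + p14 * p2 - p14 * p4 -
        p14 * p5 + 2 * p14 * p9 - p7 * p9) - ((Ga * Ga + S * Ga - (S * De - (Al * Be + Be * Ga +
        Ga * Al))) * (ga * be + (s * de - (al * be + be * ga + ga * al)))) * (p10 * p14 + p12 *
        p14 - p14 * p14 - p14 * p8) - ((Ga * Ga + S * Ga - (S * De - (Al * Be + Be * Ga + Ga *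
        Al))) * (be * be + s * be - (s * de - (al * be + be * ga + ga * al)))) * (p11 * p14 + p12
        * p14 - p14 * p7 - p14 * p8) - ((Ga * Be + (S * De - (Al * Be + Be * Ga + Ga * Al))) * (ga
        * be + (s * de - (al * be + be * ga + ga * al)))) * (p10 * p14 + p13 * p14 - p14 * p7 -
        p14 * p8) - ((Ga * Be + (S * De - (Al * Be + Be * Ga + Ga * Al))) * (be * be + s * be - (s
        * de - (al * be + be * ga + ga * al)))) * (p11 * p14 + p13 * p14 - p14 * p14 - p14 * p8)
        := by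
  subst hp
  subst h0
  subst h1
  subst h2
  subst h4
  subst h7
  subst h11
  subst h12
  subst h14
  ring

theorem L1_q4 (p0 p1 p2 p3 p4 p5 p6 p7 p8 p9 p10 p11 p12 p13 p14 s al be ga de S Al Be Ga De y0 y1
    y2 y6 y7 y11 y13 y14 : ℝ)
    (hp : p14 = p10 + p11 + p12 + p13 - p7 - p8 - p9)
    (h0 : y0 = s * S * p0 + s * Al * p2 + s * Be * p0 + s * Ga * p0 + s * De * p2 + al * S * p1 +
        al * Al * p7 + al * Be * p1 + al * Ga * p1 + al * De * p7 + be * S * p0 + be * Al * p2 +
        be * Be * p6 + be * Ga * p5 + be * De * p13 + ga * S * p0 + ga * Al * p2 + ga * Be * p4 +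
        ga * Ga * p3 + ga * De * p12 + de * S * p1 + de * Al * p7 + de * Be * p11 + de * Ga * p10
        + de * De * p14)
    (h1 : y1 = s * S * p1 + s * Al * p7 + s * Be * p1 + s * Ga * p1 + s * De * p7 + be * S * p1 +
        be * Al * p7 + be * Be * p11 + be * Ga * p10 + be * De * p14 + ga * S * p1 + ga * Al * p7
        + ga * Be * p11 + ga * Ga * p10 + ga * De * p14)
    (h2 : y2 = s * S * p2 + s * Be * p2 + s * Ga * p2 + al * S * p7 + al * Be * p7 + al * Ga * p7
        + be * S * p2 + be * Be * p13 + be * Ga * p13 + ga * S * p2 + ga * Be * p12 + ga * Ga *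
        p12 + de * S * p7 + de * Be * p14 + de * Ga * p14)
    (h6 : y6 = s * S * p6 + s * Al * p13 + s * Be * p6 + s * Ga * p6 + s * De * p13 + al * S * p11
        + al * Al * p14 + al * Be * p11 + al * Ga * p11 + al * De * p14 + be * S * p6 + be * Al *
        p13 + be * Ga * p13 + ga * S * p6 + ga * Al * p13 + ga * Be * p11 + ga * Ga * p8 + ga * De
        * p14 + de * S * p11 + de * Al * p14 + de * Ga * p14)
    (h7 : y7 = s * S * p7 + s * Be * p7 + s * Ga * p7 + be * S * p7 + be * Be * p14 + be * Ga *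
        p14 + ga * S * p7 + ga * Be * p14 + ga * Ga * p14)
    (h11 : y11 = s * S * p11 + s * Al * p14 + s * Be * p11 + s * Ga * p11 + s * De * p14 + be * S
        * p11 + be * Al * p14 + be * Ga * p14 + ga * S * p11 + ga * Al * p14 + ga * Ga * p14)
    (h13 : y13 = s * S * p13 + s * Be * p13 + s * Ga * p13 + al * S * p14 + al * Be * p14 + al *
        Ga * p14 + be * S * p13 + ga * S * p13 + ga * Be * p14 + ga * Ga * p14 + de * S * p14)
    (h14 : y14 = s * S * p14 + s * Be * p14 + s * Ga * p14 + be * S * p14 + ga * S * p14)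
    : - y0 * y14 + y1 * y13 - y11 * y13 + y11 * y2 + y14 * y6 - y6 * y7 = (s * S + S * (be + ga) +
        s * (Be + Ga)) * (s * S + S * (be + ga) + s * (Be + Ga)) * (- p0 * p14 + p1 * p13 - p11 *
        p13 + p11 * p2 + p14 * p6 - p6 * p7) + 2 * (s * S + S * (be + ga) + s * (Be + Ga)) * (Be *
        be) * (p11 * p13 - p14 * p6) + (s * S + S * (be + ga) + s * (Be + Ga)) * (Ga * be) * (p10
        * p13 + p11 * p13 - p13 * p7 + p14 * p2 - p14 * p5 - p14 * p6) + (s * S + S * (be + ga) +
        s * (Be + Ga)) * (Be * ga) * (p1 * p14 + p11 * p12 + p11 * p13 - p11 * p7 - p14 * p4 - p14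
        * p6) + (s * S + S * (be + ga) + s * (Be + Ga)) * (Ga * ga) * (p1 * p14 + p10 * p13 - p10
        * p14 + p11 * p12 - p11 * p14 - p12 * p14 - p13 * p14 + p14 * p14 + p14 * p2 - p14 * p3 -
        p14 * p6 + 2 * p14 * p8 - p7 * p8) + ((Ga * Ga + S * Ga - (S * De - (Al * Be + Be * Ga +
        Ga * Al))) * (ga * ga + s * ga - (s * de - (al * be + be * ga + ga * al)))) * (p10 * p14 +
        p12 * p14 - p14 * p14 - p14 * p8) + ((Ga * Ga + S * Ga - (S * De - (Al * Be + Be * Ga + Ga
        * Al))) * (ga * be + (s * de - (al * be + be * ga + ga * al)))) * (p11 * p14 + p12 * p14 -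
        p14 * p7 - p14 * p8) + ((Ga * Be + (S * De - (Al * Be + Be * Ga + Ga * Al))) * (ga * ga +
        s * ga - (s * de - (al * be + be * ga + ga * al)))) * (p10 * p14 + p13 * p14 - p14 * p7 -
        p14 * p8) + ((Ga * Be + (S * De - (Al * Be + Be * Ga + Ga * Al))) * (ga * be + (s * de -
        (al * be + be * ga + ga * al)))) * (p11 * p14 + p13 * p14 - p14 * p14 - p14 * p8) := by
  subst hp
  subst h0
  subst h1
  subst h2
  subst h6
  subst h7
  subst h11
  subst h13
  subst h14
  ring

theorem L1_q11 (p0 p1 p2 p3 p4 p5 p6 p7 p8 p9 p10 p11 p12 p13 p14 s al be ga de S Al Be Ga De y3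
    y10 y12 y14 : ℝ)
    (hp : p14 = p10 + p11 + p12 + p13 - p7 - p8 - p9)
    (h3 : y3 = s * S * p3 + s * Al * p12 + s * Be * p3 + s * Ga * p3 + s * De * p12 + al * S * p10
        + al * Al * p14 + al * Be * p10 + al * Ga * p10 + al * De * p14 + be * S * p3 + be * Al *
        p12 + be * Be * p8 + be * Ga * p10 + be * De * p14 + ga * S * p3 + ga * Al * p12 + ga * Be
        * p12 + de * S * p10 + de * Al * p14 + de * Be * p14)
    (h10 : y10 = s * S * p10 + s * Al * p14 + s * Be * p10 + s * Ga * p10 + s * De * p14 + be * S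
        * p10 + be * Al * p14 + be * Be * p14 + ga * S * p10 + ga * Al * p14 + ga * Be * p14)
    (h12 : y12 = s * S * p12 + s * Be * p12 + s * Ga * p12 + al * S * p14 + al * Be * p14 + al *
        Ga * p14 + be * S * p12 + be * Be * p14 + be * Ga * p14 + ga * S * p12 + de * S * p14)
    (h14 : y14 = s * S * p14 + s * Be * p14 + s * Ga * p14 + be * S * p14 + ga * S * p14)
    : y10 * y12 - y14 * y3 = (s * S + S * (be + ga) + s * (Be + Ga)) * (s * S + S * (be + ga) + s
        * (Be + Ga)) * (p10 * p12 - p14 * p3) + (s * S + S * (be + ga) + s * (Be + Ga)) * (Be *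
        be) * (p10 * p14 + p12 * p14 - p14 * p14 - p14 * p8) + ((Be * Be + S * Be - (S * De - (Al
        * Be + Be * Ga + Ga * Al))) * (be * be + s * be - (s * de - (al * be + be * ga + ga *
        al)))) * (p14 * p14) := by
  subst hp
  subst h3
  subst h10
  subst h12
  subst h14
  ring

theorem L1_q22 (p0 p1 p2 p3 p4 p5 p6 p7 p8 p9 p10 p11 p12 p13 p14 s al be ga de S Al Be Ga De y5
    y10 y13 y14 : ℝ)
    (hp : p14 = p10 + p11 + p12 + p13 - p7 - p8 - p9)
    (h5 : y5 = s * S * p5 + s * Al * p13 + s * Be * p5 + s * Ga * p5 + s * De * p13 + al * S * p10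
        + al * Al * p14 + al * Be * p10 + al * Ga * p10 + al * De * p14 + be * S * p5 + be * Al *
        p13 + be * Be * p13 + ga * S * p5 + ga * Al * p13 + ga * Be * p9 + ga * Ga * p10 + ga * De
        * p14 + de * S * p10 + de * Al * p14 + de * Be * p14)
    (h10 : y10 = s * S * p10 + s * Al * p14 + s * Be * p10 + s * Ga * p10 + s * De * p14 + be * S
        * p10 + be * Al * p14 + be * Be * p14 + ga * S * p10 + ga * Al * p14 + ga * Be * p14)
    (h13 : y13 = s * S * p13 + s * Be * p13 + s * Ga * p13 + al * S * p14 + al * Be * p14 + al *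
        Ga * p14 + be * S * p13 + ga * S * p13 + ga * Be * p14 + ga * Ga * p14 + de * S * p14)
    (h14 : y14 = s * S * p14 + s * Be * p14 + s * Ga * p14 + be * S * p14 + ga * S * p14)
    : y10 * y13 - y14 * y5 = (s * S + S * (be + ga) + s * (Be + Ga)) * (s * S + S * (be + ga) + s
        * (Be + Ga)) * (p10 * p13 - p14 * p5) - (s * S + S * (be + ga) + s * (Be + Ga)) * (Be *
        ga) * (p11 * p14 + p12 * p14 - p14 * p7 - p14 * p8) + ((Be * Be + S * Be - (S * De - (Al *
        Be + Be * Ga + Ga * Al))) * (ga * ga + s * ga - (s * de - (al * be + be * ga + ga * al))))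
        * (p14 * p14) := by
  subst hp
  subst h5
  subst h10
  subst h13
  subst h14
  ring

theorem L1_q33 (p0 p1 p2 p3 p4 p5 p6 p7 p8 p9 p10 p11 p12 p13 p14 s al be ga de S Al Be Ga De y4
    y11 y12 y14 : ℝ)
    (hp : p14 = p10 + p11 + p12 + p13 - p7 - p8 - p9)
    (h4 : y4 = s * S * p4 + s * Al * p12 + s * Be * p4 + s * Ga * p4 + s * De * p12 + al * S * p11
        + al * Al * p14 + al * Be * p11 + al * Ga * p11 + al * De * p14 + be * S * p4 + be * Al *
        p12 + be * Be * p11 + be * Ga * p9 + be * De * p14 + ga * S * p4 + ga * Al * p12 + ga * Ga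
        * p12 + de * S * p11 + de * Al * p14 + de * Ga * p14)
    (h11 : y11 = s * S * p11 + s * Al * p14 + s * Be * p11 + s * Ga * p11 + s * De * p14 + be * S
        * p11 + be * Al * p14 + be * Ga * p14 + ga * S * p11 + ga * Al * p14 + ga * Ga * p14)
    (h12 : y12 = s * S * p12 + s * Be * p12 + s * Ga * p12 + al * S * p14 + al * Be * p14 + al *
        Ga * p14 + be * S * p12 + be * Be * p14 + be * Ga * p14 + ga * S * p12 + de * S * p14)
    (h14 : y14 = s * S * p14 + s * Be * p14 + s * Ga * p14 + be * S * p14 + ga * S * p14)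
    : y11 * y12 - y14 * y4 = (s * S + S * (be + ga) + s * (Be + Ga)) * (s * S + S * (be + ga) + s
        * (Be + Ga)) * (p11 * p12 - p14 * p4) - (s * S + S * (be + ga) + s * (Be + Ga)) * (Ga *
        be) * (p10 * p14 + p13 * p14 - p14 * p7 - p14 * p8) + ((Ga * Ga + S * Ga - (S * De - (Al *
        Be + Be * Ga + Ga * Al))) * (be * be + s * be - (s * de - (al * be + be * ga + ga * al))))
        * (p14 * p14) := by
  subst hp
  subst h4
  subst h11
  subst h12
  subst h14
  ring

theorem L1_q44 (p0 p1 p2 p3 p4 p5 p6 p7 p8 p9 p10 p11 p12 p13 p14 s al be ga de S Al Be Ga De y6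
    y11 y13 y14 : ℝ)
    (hp : p14 = p10 + p11 + p12 + p13 - p7 - p8 - p9)
    (h6 : y6 = s * S * p6 + s * Al * p13 + s * Be * p6 + s * Ga * p6 + s * De * p13 + al * S * p11
        + al * Al * p14 + al * Be * p11 + al * Ga * p11 + al * De * p14 + be * S * p6 + be * Al *
        p13 + be * Ga * p13 + ga * S * p6 + ga * Al * p13 + ga * Be * p11 + ga * Ga * p8 + ga * De
        * p14 + de * S * p11 + de * Al * p14 + de * Ga * p14)
    (h11 : y11 = s * S * p11 + s * Al * p14 + s * Be * p11 + s * Ga * p11 + s * De * p14 + be * S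
        * p11 + be * Al * p14 + be * Ga * p14 + ga * S * p11 + ga * Al * p14 + ga * Ga * p14)
    (h13 : y13 = s * S * p13 + s * Be * p13 + s * Ga * p13 + al * S * p14 + al * Be * p14 + al *
        Ga * p14 + be * S * p13 + ga * S * p13 + ga * Be * p14 + ga * Ga * p14 + de * S * p14)
    (h14 : y14 = s * S * p14 + s * Be * p14 + s * Ga * p14 + be * S * p14 + ga * S * p14)
    : y11 * y13 - y14 * y6 = (s * S + S * (be + ga) + s * (Be + Ga)) * (s * S + S * (be + ga) + s
        * (Be + Ga)) * (p11 * p13 - p14 * p6) + (s * S + S * (be + ga) + s * (Be + Ga)) * (Ga *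
        ga) * (p11 * p14 + p13 * p14 - p14 * p14 - p14 * p8) + ((Ga * Ga + S * Ga - (S * De - (Al
        * Be + Be * Ga + Ga * Al))) * (ga * ga + s * ga - (s * de - (al * be + be * ga + ga *
        al)))) * (p14 * p14) := by
  subst hp
  subst h6
  subst h11
  subst h13
  subst h14
  ring

theorem L1_q12 (p0 p1 p2 p3 p4 p5 p6 p7 p8 p9 p10 p11 p12 p13 p14 s al be ga de S Al Be Ga De y1
    y3 y5 y7 y10 y12 y13 y14 : ℝ)
    (hp : p14 = p10 + p11 + p12 + p13 - p7 - p8 - p9)
    (h1 : y1 = s * S * p1 + s * Al * p7 + s * Be * p1 + s * Ga * p1 + s * De * p7 + be * S * p1 +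
        be * Al * p7 + be * Be * p11 + be * Ga * p10 + be * De * p14 + ga * S * p1 + ga * Al * p7
        + ga * Be * p11 + ga * Ga * p10 + ga * De * p14)
    (h3 : y3 = s * S * p3 + s * Al * p12 + s * Be * p3 + s * Ga * p3 + s * De * p12 + al * S * p10
        + al * Al * p14 + al * Be * p10 + al * Ga * p10 + al * De * p14 + be * S * p3 + be * Al *
        p12 + be * Be * p8 + be * Ga * p10 + be * De * p14 + ga * S * p3 + ga * Al * p12 + ga * Be
        * p12 + de * S * p10 + de * Al * p14 + de * Be * p14)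
    (h5 : y5 = s * S * p5 + s * Al * p13 + s * Be * p5 + s * Ga * p5 + s * De * p13 + al * S * p10
        + al * Al * p14 + al * Be * p10 + al * Ga * p10 + al * De * p14 + be * S * p5 + be * Al *
        p13 + be * Be * p13 + ga * S * p5 + ga * Al * p13 + ga * Be * p9 + ga * Ga * p10 + ga * De
        * p14 + de * S * p10 + de * Al * p14 + de * Be * p14)
    (h7 : y7 = s * S * p7 + s * Be * p7 + s * Ga * p7 + be * S * p7 + be * Be * p14 + be * Ga *
        p14 + ga * S * p7 + ga * Be * p14 + ga * Ga * p14)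
    (h10 : y10 = s * S * p10 + s * Al * p14 + s * Be * p10 + s * Ga * p10 + s * De * p14 + be * S
        * p10 + be * Al * p14 + be * Be * p14 + ga * S * p10 + ga * Al * p14 + ga * Be * p14)
    (h12 : y12 = s * S * p12 + s * Be * p12 + s * Ga * p12 + al * S * p14 + al * Be * p14 + al *
        Ga * p14 + be * S * p12 + be * Be * p14 + be * Ga * p14 + ga * S * p12 + de * S * p14)
    (h13 : y13 = s * S * p13 + s * Be * p13 + s * Ga * p13 + al * S * p14 + al * Be * p14 + al *
        Ga * p14 + be * S * p13 + ga * S * p13 + ga * Be * p14 + ga * Ga * p14 + de * S * p14)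
    (h14 : y14 = s * S * p14 + s * Be * p14 + s * Ga * p14 + be * S * p14 + ga * S * p14)
    : y1 * y14 + y10 * y12 + y10 * y13 - y10 * y7 - y14 * y3 - y14 * y5 = (s * S + S * (be + ga) +
        s * (Be + Ga)) * (s * S + S * (be + ga) + s * (Be + Ga)) * (p1 * p14 + p10 * p12 + p10 *
        p13 - p10 * p7 - p14 * p3 - p14 * p5) - (s * S + S * (be + ga) + s * (Be + Ga)) * (Be *
        ga) * (p10 * p14 + p12 * p14 - p14 * p14 - p14 * p8) + (s * S + S * (be + ga) + s * (Be +
        Ga)) * (Be * be) * (p11 * p14 + p12 * p14 - p14 * p7 - p14 * p8) - 2 * ((Be * Be + S * Be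
        - (S * De - (Al * Be + Be * Ga + Ga * Al))) * (ga * be + (s * de - (al * be + be * ga + ga
        * al)))) * (p14 * p14) := by
  subst hp
  subst h1
  subst h3
  subst h5
  subst h7
  subst h10
  subst h12
  subst h13
  subst h14
  ring

theorem L1_q13 (p0 p1 p2 p3 p4 p5 p6 p7 p8 p9 p10 p11 p12 p13 p14 s al be ga de S Al Be Ga De y2
    y3 y4 y7 y10 y11 y12 y14 : ℝ)
    (hp : p14 = p10 + p11 + p12 + p13 - p7 - p8 - p9)
    (h2 : y2 = s * S * p2 + s * Be * p2 + s * Ga * p2 + al * S * p7 + al * Be * p7 + al * Ga * p7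
        + be * S * p2 + be * Be * p13 + be * Ga * p13 + ga * S * p2 + ga * Be * p12 + ga * Ga *
        p12 + de * S * p7 + de * Be * p14 + de * Ga * p14)
    (h3 : y3 = s * S * p3 + s * Al * p12 + s * Be * p3 + s * Ga * p3 + s * De * p12 + al * S * p10
        + al * Al * p14 + al * Be * p10 + al * Ga * p10 + al * De * p14 + be * S * p3 + be * Al *
        p12 + be * Be * p8 + be * Ga * p10 + be * De * p14 + ga * S * p3 + ga * Al * p12 + ga * Be
        * p12 + de * S * p10 + de * Al * p14 + de * Be * p14)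
    (h4 : y4 = s * S * p4 + s * Al * p12 + s * Be * p4 + s * Ga * p4 + s * De * p12 + al * S * p11
        + al * Al * p14 + al * Be * p11 + al * Ga * p11 + al * De * p14 + be * S * p4 + be * Al *
        p12 + be * Be * p11 + be * Ga * p9 + be * De * p14 + ga * S * p4 + ga * Al * p12 + ga * Ga
        * p12 + de * S * p11 + de * Al * p14 + de * Ga * p14)
    (h7 : y7 = s * S * p7 + s * Be * p7 + s * Ga * p7 + be * S * p7 + be * Be * p14 + be * Ga *
        p14 + ga * S * p7 + ga * Be * p14 + ga * Ga * p14)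
    (h10 : y10 = s * S * p10 + s * Al * p14 + s * Be * p10 + s * Ga * p10 + s * De * p14 + be * S
        * p10 + be * Al * p14 + be * Be * p14 + ga * S * p10 + ga * Al * p14 + ga * Be * p14)
    (h11 : y11 = s * S * p11 + s * Al * p14 + s * Be * p11 + s * Ga * p11 + s * De * p14 + be * S
        * p11 + be * Al * p14 + be * Ga * p14 + ga * S * p11 + ga * Al * p14 + ga * Ga * p14)
    (h12 : y12 = s * S * p12 + s * Be * p12 + s * Ga * p12 + al * S * p14 + al * Be * p14 + al *
        Ga * p14 + be * S * p12 + be * Be * p14 + be * Ga * p14 + ga * S * p12 + de * S * p14)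
    (h14 : y14 = s * S * p14 + s * Be * p14 + s * Ga * p14 + be * S * p14 + ga * S * p14)
    : y10 * y12 + y11 * y12 - y12 * y7 + y14 * y2 - y14 * y3 - y14 * y4 = (s * S + S * (be + ga) +
        s * (Be + Ga)) * (s * S + S * (be + ga) + s * (Be + Ga)) * (p10 * p12 + p11 * p12 - p12 *
        p7 + p14 * p2 - p14 * p3 - p14 * p4) - (s * S + S * (be + ga) + s * (Be + Ga)) * (Ga * be)
        * (p10 * p14 + p12 * p14 - p14 * p14 - p14 * p8) + (s * S + S * (be + ga) + s * (Be + Ga))
        * (Be * be) * (p10 * p14 + p13 * p14 - p14 * p7 - p14 * p8) - 2 * ((Ga * Be + (S * De -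
        (Al * Be + Be * Ga + Ga * Al))) * (be * be + s * be - (s * de - (al * be + be * ga + ga *
        al)))) * (p14 * p14) := by
  subst hp
  subst h2
  subst h3
  subst h4
  subst h7
  subst h10
  subst h11
  subst h12
  subst h14
  ring

theorem L1_q24 (p0 p1 p2 p3 p4 p5 p6 p7 p8 p9 p10 p11 p12 p13 p14 s al be ga de S Al Be Ga De y2
    y5 y6 y7 y10 y11 y13 y14 : ℝ)
    (hp : p14 = p10 + p11 + p12 + p13 - p7 - p8 - p9)
    (h2 : y2 = s * S * p2 + s * Be * p2 + s * Ga * p2 + al * S * p7 + al * Be * p7 + al * Ga * p7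
        + be * S * p2 + be * Be * p13 + be * Ga * p13 + ga * S * p2 + ga * Be * p12 + ga * Ga *
        p12 + de * S * p7 + de * Be * p14 + de * Ga * p14)
    (h5 : y5 = s * S * p5 + s * Al * p13 + s * Be * p5 + s * Ga * p5 + s * De * p13 + al * S * p10
        + al * Al * p14 + al * Be * p10 + al * Ga * p10 + al * De * p14 + be * S * p5 + be * Al *
        p13 + be * Be * p13 + ga * S * p5 + ga * Al * p13 + ga * Be * p9 + ga * Ga * p10 + ga * De
        * p14 + de * S * p10 + de * Al * p14 + de * Be * p14)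
    (h6 : y6 = s * S * p6 + s * Al * p13 + s * Be * p6 + s * Ga * p6 + s * De * p13 + al * S * p11
        + al * Al * p14 + al * Be * p11 + al * Ga * p11 + al * De * p14 + be * S * p6 + be * Al *
        p13 + be * Ga * p13 + ga * S * p6 + ga * Al * p13 + ga * Be * p11 + ga * Ga * p8 + ga * De
        * p14 + de * S * p11 + de * Al * p14 + de * Ga * p14)
    (h7 : y7 = s * S * p7 + s * Be * p7 + s * Ga * p7 + be * S * p7 + be * Be * p14 + be * Ga *
        p14 + ga * S * p7 + ga * Be * p14 + ga * Ga * p14)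
    (h10 : y10 = s * S * p10 + s * Al * p14 + s * Be * p10 + s * Ga * p10 + s * De * p14 + be * S
        * p10 + be * Al * p14 + be * Be * p14 + ga * S * p10 + ga * Al * p14 + ga * Be * p14)
    (h11 : y11 = s * S * p11 + s * Al * p14 + s * Be * p11 + s * Ga * p11 + s * De * p14 + be * S
        * p11 + be * Al * p14 + be * Ga * p14 + ga * S * p11 + ga * Al * p14 + ga * Ga * p14)
    (h13 : y13 = s * S * p13 + s * Be * p13 + s * Ga * p13 + al * S * p14 + al * Be * p14 + al *
        Ga * p14 + be * S * p13 + ga * S * p13 + ga * Be * p14 + ga * Ga * p14 + de * S * p14)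
    (h14 : y14 = s * S * p14 + s * Be * p14 + s * Ga * p14 + be * S * p14 + ga * S * p14)
    : y10 * y13 + y11 * y13 - y13 * y7 + y14 * y2 - y14 * y5 - y14 * y6 = (s * S + S * (be + ga) +
        s * (Be + Ga)) * (s * S + S * (be + ga) + s * (Be + Ga)) * (p10 * p13 + p11 * p13 - p13 *
        p7 + p14 * p2 - p14 * p5 - p14 * p6) + (s * S + S * (be + ga) + s * (Be + Ga)) * (Ga * ga)
        * (p11 * p14 + p12 * p14 - p14 * p7 - p14 * p8) - (s * S + S * (be + ga) + s * (Be + Ga))
        * (Be * ga) * (p11 * p14 + p13 * p14 - p14 * p14 - p14 * p8) - 2 * ((Ga * Be + (S * De -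
        (Al * Be + Be * Ga + Ga * Al))) * (ga * ga + s * ga - (s * de - (al * be + be * ga + ga *
        al)))) * (p14 * p14) := by
  subst hp
  subst h2
  subst h5
  subst h6
  subst h7
  subst h10
  subst h11
  subst h13
  subst h14
  ring

theorem L1_q34 (p0 p1 p2 p3 p4 p5 p6 p7 p8 p9 p10 p11 p12 p13 p14 s al be ga de S Al Be Ga De y1
    y4 y6 y7 y11 y12 y13 y14 : ℝ)
    (hp : p14 = p10 + p11 + p12 + p13 - p7 - p8 - p9)
    (h1 : y1 = s * S * p1 + s * Al * p7 + s * Be * p1 + s * Ga * p1 + s * De * p7 + be * S * p1 +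
        be * Al * p7 + be * Be * p11 + be * Ga * p10 + be * De * p14 + ga * S * p1 + ga * Al * p7
        + ga * Be * p11 + ga * Ga * p10 + ga * De * p14)
    (h4 : y4 = s * S * p4 + s * Al * p12 + s * Be * p4 + s * Ga * p4 + s * De * p12 + al * S * p11
        + al * Al * p14 + al * Be * p11 + al * Ga * p11 + al * De * p14 + be * S * p4 + be * Al *
        p12 + be * Be * p11 + be * Ga * p9 + be * De * p14 + ga * S * p4 + ga * Al * p12 + ga * Ga
        * p12 + de * S * p11 + de * Al * p14 + de * Ga * p14)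
    (h6 : y6 = s * S * p6 + s * Al * p13 + s * Be * p6 + s * Ga * p6 + s * De * p13 + al * S * p11
        + al * Al * p14 + al * Be * p11 + al * Ga * p11 + al * De * p14 + be * S * p6 + be * Al *
        p13 + be * Ga * p13 + ga * S * p6 + ga * Al * p13 + ga * Be * p11 + ga * Ga * p8 + ga * De
        * p14 + de * S * p11 + de * Al * p14 + de * Ga * p14)
    (h7 : y7 = s * S * p7 + s * Be * p7 + s * Ga * p7 + be * S * p7 + be * Be * p14 + be * Ga *
        p14 + ga * S * p7 + ga * Be * p14 + ga * Ga * p14)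
    (h11 : y11 = s * S * p11 + s * Al * p14 + s * Be * p11 + s * Ga * p11 + s * De * p14 + be * S
        * p11 + be * Al * p14 + be * Ga * p14 + ga * S * p11 + ga * Al * p14 + ga * Ga * p14)
    (h12 : y12 = s * S * p12 + s * Be * p12 + s * Ga * p12 + al * S * p14 + al * Be * p14 + al *
        Ga * p14 + be * S * p12 + be * Be * p14 + be * Ga * p14 + ga * S * p12 + de * S * p14)
    (h13 : y13 = s * S * p13 + s * Be * p13 + s * Ga * p13 + al * S * p14 + al * Be * p14 + al *
        Ga * p14 + be * S * p13 + ga * S * p13 + ga * Be * p14 + ga * Ga * p14 + de * S * p14)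
    (h14 : y14 = s * S * p14 + s * Be * p14 + s * Ga * p14 + be * S * p14 + ga * S * p14)
    : y1 * y14 + y11 * y12 + y11 * y13 - y11 * y7 - y14 * y4 - y14 * y6 = (s * S + S * (be + ga) +
        s * (Be + Ga)) * (s * S + S * (be + ga) + s * (Be + Ga)) * (p1 * p14 + p11 * p12 + p11 *
        p13 - p11 * p7 - p14 * p4 - p14 * p6) + (s * S + S * (be + ga) + s * (Be + Ga)) * (Ga *
        ga) * (p10 * p14 + p13 * p14 - p14 * p7 - p14 * p8) - (s * S + S * (be + ga) + s * (Be +
        Ga)) * (Ga * be) * (p11 * p14 + p13 * p14 - p14 * p14 - p14 * p8) - 2 * ((Ga * Ga + S * Ga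
        - (S * De - (Al * Be + Be * Ga + Ga * Al))) * (ga * be + (s * de - (al * be + be * ga + ga
        * al)))) * (p14 * p14) := by
  subst hp
  subst h1
  subst h4
  subst h6
  subst h7
  subst h11
  subst h12
  subst h13
  subst h14
  ring

theorem L1_q14 (p0 p1 p2 p3 p4 p5 p6 p7 p8 p9 p10 p11 p12 p13 p14 s al be ga de S Al Be Ga De y1
    y2 y3 y6 y7 y8 y10 y11 y12 y13 y14 : ℝ)
    (hp : p14 = p10 + p11 + p12 + p13 - p7 - p8 - p9)
    (h1 : y1 = s * S * p1 + s * Al * p7 + s * Be * p1 + s * Ga * p1 + s * De * p7 + be * S * p1 +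
        be * Al * p7 + be * Be * p11 + be * Ga * p10 + be * De * p14 + ga * S * p1 + ga * Al * p7
        + ga * Be * p11 + ga * Ga * p10 + ga * De * p14)
    (h2 : y2 = s * S * p2 + s * Be * p2 + s * Ga * p2 + al * S * p7 + al * Be * p7 + al * Ga * p7
        + be * S * p2 + be * Be * p13 + be * Ga * p13 + ga * S * p2 + ga * Be * p12 + ga * Ga *
        p12 + de * S * p7 + de * Be * p14 + de * Ga * p14)
    (h3 : y3 = s * S * p3 + s * Al * p12 + s * Be * p3 + s * Ga * p3 + s * De * p12 + al * S * p10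
        + al * Al * p14 + al * Be * p10 + al * Ga * p10 + al * De * p14 + be * S * p3 + be * Al *
        p12 + be * Be * p8 + be * Ga * p10 + be * De * p14 + ga * S * p3 + ga * Al * p12 + ga * Be
        * p12 + de * S * p10 + de * Al * p14 + de * Be * p14)
    (h6 : y6 = s * S * p6 + s * Al * p13 + s * Be * p6 + s * Ga * p6 + s * De * p13 + al * S * p11
        + al * Al * p14 + al * Be * p11 + al * Ga * p11 + al * De * p14 + be * S * p6 + be * Al *
        p13 + be * Ga * p13 + ga * S * p6 + ga * Al * p13 + ga * Be * p11 + ga * Ga * p8 + ga * De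
        * p14 + de * S * p11 + de * Al * p14 + de * Ga * p14)
    (h7 : y7 = s * S * p7 + s * Be * p7 + s * Ga * p7 + be * S * p7 + be * Be * p14 + be * Ga *
        p14 + ga * S * p7 + ga * Be * p14 + ga * Ga * p14)
    (h8 : y8 = s * S * p8 + s * Al * p14 + s * Be * p8 + s * Ga * p8 + s * De * p14 + al * S * p14
        + al * Be * p14 + al * Ga * p14 + be * S * p8 + be * Al * p14 + be * Ga * p14 + ga * S *
        p8 + ga * Al * p14 + ga * Be * p14 + de * S * p14)
    (h10 : y10 = s * S * p10 + s * Al * p14 + s * Be * p10 + s * Ga * p10 + s * De * p14 + be * S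
        * p10 + be * Al * p14 + be * Be * p14 + ga * S * p10 + ga * Al * p14 + ga * Be * p14)
    (h11 : y11 = s * S * p11 + s * Al * p14 + s * Be * p11 + s * Ga * p11 + s * De * p14 + be * S
        * p11 + be * Al * p14 + be * Ga * p14 + ga * S * p11 + ga * Al * p14 + ga * Ga * p14)
    (h12 : y12 = s * S * p12 + s * Be * p12 + s * Ga * p12 + al * S * p14 + al * Be * p14 + al *
        Ga * p14 + be * S * p12 + be * Be * p14 + be * Ga * p14 + ga * S * p12 + de * S * p14)
    (h13 : y13 = s * S * p13 + s * Be * p13 + s * Ga * p13 + al * S * p14 + al * Be * p14 + al *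
        Ga * p14 + be * S * p13 + ga * S * p13 + ga * Be * p14 + ga * Ga * p14 + de * S * p14)
    (h14 : y14 = s * S * p14 + s * Be * p14 + s * Ga * p14 + be * S * p14 + ga * S * p14)
    : y1 * y14 + y10 * y13 - y10 * y14 + y11 * y12 - y11 * y14 - y12 * y14 - y13 * y14 + y14 * y14
        + y14 * y2 - y14 * y3 - y14 * y6 + 2 * y14 * y8 - y7 * y8 = (s * S + S * (be + ga) + s *
        (Be + Ga)) * (s * S + S * (be + ga) + s * (Be + Ga)) * (p1 * p14 + p10 * p13 - p10 * p14 +
        p11 * p12 - p11 * p14 - p12 * p14 - p13 * p14 + p14 * p14 + p14 * p2 - p14 * p3 - p14 * p6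
        + 2 * p14 * p8 - p7 * p8) + 2 * (s * S + S * (be + ga) + s * (Be + Ga)) * (Ga * ga) * (p10
        * p14 + p12 * p14 - p14 * p14 - p14 * p8) + (s * S + S * (be + ga) + s * (Be + Ga)) * (Ga
        * be) * (p11 * p14 + p12 * p14 - p14 * p7 - p14 * p8) + (s * S + S * (be + ga) + s * (Be +
        Ga)) * (Be * ga) * (p10 * p14 + p13 * p14 - p14 * p7 - p14 * p8) + 2 * (s * S + S * (be +
        ga) + s * (Be + Ga)) * (Be * be) * (p11 * p14 + p13 * p14 - p14 * p14 - p14 * p8) + 2 *
        ((Ga * Be + (S * De - (Al * Be + Be * Ga + Ga * Al))) * (ga * be + (s * de - (al * be + be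
        * ga + ga * al)))) * (p14 * p14) := by
  subst hp
  subst h1
  subst h2
  subst h3
  subst h6
  subst h7
  subst h8
  subst h10
  subst h11
  subst h12
  subst h13
  subst h14
  ring

theorem L1_q23 (p0 p1 p2 p3 p4 p5 p6 p7 p8 p9 p10 p11 p12 p13 p14 s al be ga de S Al Be Ga De y1
    y2 y4 y5 y7 y9 y10 y11 y12 y13 y14 : ℝ)
    (hp : p14 = p10 + p11 + p12 + p13 - p7 - p8 - p9)
    (h1 : y1 = s * S * p1 + s * Al * p7 + s * Be * p1 + s * Ga * p1 + s * De * p7 + be * S * p1 +
        be * Al * p7 + be * Be * p11 + be * Ga * p10 + be * De * p14 + ga * S * p1 + ga * Al * p7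
        + ga * Be * p11 + ga * Ga * p10 + ga * De * p14)
    (h2 : y2 = s * S * p2 + s * Be * p2 + s * Ga * p2 + al * S * p7 + al * Be * p7 + al * Ga * p7
        + be * S * p2 + be * Be * p13 + be * Ga * p13 + ga * S * p2 + ga * Be * p12 + ga * Ga *
        p12 + de * S * p7 + de * Be * p14 + de * Ga * p14)
    (h4 : y4 = s * S * p4 + s * Al * p12 + s * Be * p4 + s * Ga * p4 + s * De * p12 + al * S * p11
        + al * Al * p14 + al * Be * p11 + al * Ga * p11 + al * De * p14 + be * S * p4 + be * Al *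
        p12 + be * Be * p11 + be * Ga * p9 + be * De * p14 + ga * S * p4 + ga * Al * p12 + ga * Ga
        * p12 + de * S * p11 + de * Al * p14 + de * Ga * p14)
    (h5 : y5 = s * S * p5 + s * Al * p13 + s * Be * p5 + s * Ga * p5 + s * De * p13 + al * S * p10
        + al * Al * p14 + al * Be * p10 + al * Ga * p10 + al * De * p14 + be * S * p5 + be * Al *
        p13 + be * Be * p13 + ga * S * p5 + ga * Al * p13 + ga * Be * p9 + ga * Ga * p10 + ga * De
        * p14 + de * S * p10 + de * Al * p14 + de * Be * p14)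
    (h7 : y7 = s * S * p7 + s * Be * p7 + s * Ga * p7 + be * S * p7 + be * Be * p14 + be * Ga *
        p14 + ga * S * p7 + ga * Be * p14 + ga * Ga * p14)
    (h9 : y9 = s * S * p9 + s * Al * p14 + s * Be * p9 + s * Ga * p9 + s * De * p14 + al * S * p14
        + al * Be * p14 + al * Ga * p14 + be * S * p9 + be * Al * p14 + be * Be * p14 + ga * S *
        p9 + ga * Al * p14 + ga * Ga * p14 + de * S * p14)
    (h10 : y10 = s * S * p10 + s * Al * p14 + s * Be * p10 + s * Ga * p10 + s * De * p14 + be * S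
        * p10 + be * Al * p14 + be * Be * p14 + ga * S * p10 + ga * Al * p14 + ga * Be * p14)
    (h11 : y11 = s * S * p11 + s * Al * p14 + s * Be * p11 + s * Ga * p11 + s * De * p14 + be * S
        * p11 + be * Al * p14 + be * Ga * p14 + ga * S * p11 + ga * Al * p14 + ga * Ga * p14)
    (h12 : y12 = s * S * p12 + s * Be * p12 + s * Ga * p12 + al * S * p14 + al * Be * p14 + al *
        Ga * p14 + be * S * p12 + be * Be * p14 + be * Ga * p14 + ga * S * p12 + de * S * p14)
    (h13 : y13 = s * S * p13 + s * Be * p13 + s * Ga * p13 + al * S * p14 + al * Be * p14 + al *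
        Ga * p14 + be * S * p13 + ga * S * p13 + ga * Be * p14 + ga * Ga * p14 + de * S * p14)
    (h14 : y14 = s * S * p14 + s * Be * p14 + s * Ga * p14 + be * S * p14 + ga * S * p14)
    : y1 * y14 + y10 * y12 - y10 * y14 + y11 * y13 - y11 * y14 - y12 * y14 - y13 * y14 + y14 * y14
        + y14 * y2 - y14 * y4 - y14 * y5 + 2 * y14 * y9 - y7 * y9 = (s * S + S * (be + ga) + s *
        (Be + Ga)) * (s * S + S * (be + ga) + s * (Be + Ga)) * (p1 * p14 + p10 * p12 - p10 * p14 +
        p11 * p13 - p11 * p14 - p12 * p14 - p13 * p14 + p14 * p14 + p14 * p2 - p14 * p4 - p14 * p5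
        + 2 * p14 * p9 - p7 * p9) - (s * S + S * (be + ga) + s * (Be + Ga)) * (Ga * ga) * (p10 *
        p14 + p12 * p14 - p14 * p14 - p14 * p8) - 2 * (s * S + S * (be + ga) + s * (Be + Ga)) *
        (Ga * be) * (p11 * p14 + p12 * p14 - p14 * p7 - p14 * p8) - 2 * (s * S + S * (be + ga) + s
        * (Be + Ga)) * (Be * ga) * (p10 * p14 + p13 * p14 - p14 * p7 - p14 * p8) - (s * S + S *
        (be + ga) + s * (Be + Ga)) * (Be * be) * (p11 * p14 + p13 * p14 - p14 * p14 - p14 * p8) +
        2 * ((Ga * Be + (S * De - (Al * Be + Be * Ga + Ga * Al))) * (ga * be + (s * de - (al * be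
        + be * ga + ga * al)))) * (p14 * p14) := by
  subst hp
  subst h1
  subst h2
  subst h4
  subst h5
  subst h7
  subst h9
  subst h10
  subst h11
  subst h12
  subst h13
  subst h14
  ring

theorem L1_t1 (p0 p1 p2 p3 p4 p5 p6 p7 p8 p9 p10 p11 p12 p13 p14 s al be ga de S Al Be Ga De y8
    y10 y12 y14 : ℝ)
    (hp : p14 = p10 + p11 + p12 + p13 - p7 - p8 - p9)
    (h8 : y8 = s * S * p8 + s * Al * p14 + s * Be * p8 + s * Ga * p8 + s * De * p14 + al * S * p14
        + al * Be * p14 + al * Ga * p14 + be * S * p8 + be * Al * p14 + be * Ga * p14 + ga * S *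
        p8 + ga * Al * p14 + ga * Be * p14 + de * S * p14)
    (h10 : y10 = s * S * p10 + s * Al * p14 + s * Be * p10 + s * Ga * p10 + s * De * p14 + be * S
        * p10 + be * Al * p14 + be * Be * p14 + ga * S * p10 + ga * Al * p14 + ga * Be * p14)
    (h12 : y12 = s * S * p12 + s * Be * p12 + s * Ga * p12 + al * S * p14 + al * Be * p14 + al *
        Ga * p14 + be * S * p12 + be * Be * p14 + be * Ga * p14 + ga * S * p12 + de * S * p14)
    (h14 : y14 = s * S * p14 + s * Be * p14 + s * Ga * p14 + be * S * p14 + ga * S * p14)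
    : y10 * y14 + y12 * y14 - y14 * y14 - y14 * y8 = (s * S + S * (be + ga) + s * (Be + Ga)) * (s
        * S + S * (be + ga) + s * (Be + Ga)) * (p10 * p14 + p12 * p14 - p14 * p14 - p14 * p8) + 2
        * (s * S + S * (be + ga) + s * (Be + Ga)) * (Be * be) * (p14 * p14) := by
  subst hp
  subst h8
  subst h10
  subst h12
  subst h14
  ring

theorem L1_t2 (p0 p1 p2 p3 p4 p5 p6 p7 p8 p9 p10 p11 p12 p13 p14 s al be ga de S Al Be Ga De y7 y8
    y11 y12 y14 : ℝ)
    (hp : p14 = p10 + p11 + p12 + p13 - p7 - p8 - p9)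
    (h7 : y7 = s * S * p7 + s * Be * p7 + s * Ga * p7 + be * S * p7 + be * Be * p14 + be * Ga *
        p14 + ga * S * p7 + ga * Be * p14 + ga * Ga * p14)
    (h8 : y8 = s * S * p8 + s * Al * p14 + s * Be * p8 + s * Ga * p8 + s * De * p14 + al * S * p14
        + al * Be * p14 + al * Ga * p14 + be * S * p8 + be * Al * p14 + be * Ga * p14 + ga * S *
        p8 + ga * Al * p14 + ga * Be * p14 + de * S * p14)
    (h11 : y11 = s * S * p11 + s * Al * p14 + s * Be * p11 + s * Ga * p11 + s * De * p14 + be * S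
        * p11 + be * Al * p14 + be * Ga * p14 + ga * S * p11 + ga * Al * p14 + ga * Ga * p14)
    (h12 : y12 = s * S * p12 + s * Be * p12 + s * Ga * p12 + al * S * p14 + al * Be * p14 + al *
        Ga * p14 + be * S * p12 + be * Be * p14 + be * Ga * p14 + ga * S * p12 + de * S * p14)
    (h14 : y14 = s * S * p14 + s * Be * p14 + s * Ga * p14 + be * S * p14 + ga * S * p14)
    : y11 * y14 + y12 * y14 - y14 * y7 - y14 * y8 = (s * S + S * (be + ga) + s * (Be + Ga)) * (s *
        S + S * (be + ga) + s * (Be + Ga)) * (p11 * p14 + p12 * p14 - p14 * p7 - p14 * p8) - 2 *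
        (s * S + S * (be + ga) + s * (Be + Ga)) * (Be * ga) * (p14 * p14) := by
  subst hp
  subst h7
  subst h8
  subst h11
  subst h12
  subst h14
  ring

theorem L1_t3 (p0 p1 p2 p3 p4 p5 p6 p7 p8 p9 p10 p11 p12 p13 p14 s al be ga de S Al Be Ga De y7 y8
    y10 y13 y14 : ℝ)
    (hp : p14 = p10 + p11 + p12 + p13 - p7 - p8 - p9)
    (h7 : y7 = s * S * p7 + s * Be * p7 + s * Ga * p7 + be * S * p7 + be * Be * p14 + be * Ga *
        p14 + ga * S * p7 + ga * Be * p14 + ga * Ga * p14)
    (h8 : y8 = s * S * p8 + s * Al * p14 + s * Be * p8 + s * Ga * p8 + s * De * p14 + al * S * p14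
        + al * Be * p14 + al * Ga * p14 + be * S * p8 + be * Al * p14 + be * Ga * p14 + ga * S *
        p8 + ga * Al * p14 + ga * Be * p14 + de * S * p14)
    (h10 : y10 = s * S * p10 + s * Al * p14 + s * Be * p10 + s * Ga * p10 + s * De * p14 + be * S
        * p10 + be * Al * p14 + be * Be * p14 + ga * S * p10 + ga * Al * p14 + ga * Be * p14)
    (h13 : y13 = s * S * p13 + s * Be * p13 + s * Ga * p13 + al * S * p14 + al * Be * p14 + al *
        Ga * p14 + be * S * p13 + ga * S * p13 + ga * Be * p14 + ga * Ga * p14 + de * S * p14)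
    (h14 : y14 = s * S * p14 + s * Be * p14 + s * Ga * p14 + be * S * p14 + ga * S * p14)
    : y10 * y14 + y13 * y14 - y14 * y7 - y14 * y8 = (s * S + S * (be + ga) + s * (Be + Ga)) * (s *
        S + S * (be + ga) + s * (Be + Ga)) * (p10 * p14 + p13 * p14 - p14 * p7 - p14 * p8) - 2 *
        (s * S + S * (be + ga) + s * (Be + Ga)) * (Ga * be) * (p14 * p14) := by
  subst hp
  subst h7
  subst h8
  subst h10
  subst h13
  subst h14
  ring

theorem L1_t4 (p0 p1 p2 p3 p4 p5 p6 p7 p8 p9 p10 p11 p12 p13 p14 s al be ga de S Al Be Ga De y8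
    y11 y13 y14 : ℝ)
    (hp : p14 = p10 + p11 + p12 + p13 - p7 - p8 - p9)
    (h8 : y8 = s * S * p8 + s * Al * p14 + s * Be * p8 + s * Ga * p8 + s * De * p14 + al * S * p14
        + al * Be * p14 + al * Ga * p14 + be * S * p8 + be * Al * p14 + be * Ga * p14 + ga * S *
        p8 + ga * Al * p14 + ga * Be * p14 + de * S * p14)
    (h11 : y11 = s * S * p11 + s * Al * p14 + s * Be * p11 + s * Ga * p11 + s * De * p14 + be * S
        * p11 + be * Al * p14 + be * Ga * p14 + ga * S * p11 + ga * Al * p14 + ga * Ga * p14)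
    (h13 : y13 = s * S * p13 + s * Be * p13 + s * Ga * p13 + al * S * p14 + al * Be * p14 + al *
        Ga * p14 + be * S * p13 + ga * S * p13 + ga * Be * p14 + ga * Ga * p14 + de * S * p14)
    (h14 : y14 = s * S * p14 + s * Be * p14 + s * Ga * p14 + be * S * p14 + ga * S * p14)
    : y11 * y14 + y13 * y14 - y14 * y14 - y14 * y8 = (s * S + S * (be + ga) + s * (Be + Ga)) * (s
        * S + S * (be + ga) + s * (Be + Ga)) * (p11 * p14 + p13 * p14 - p14 * p14 - p14 * p8) + 2
        * (s * S + S * (be + ga) + s * (Be + Ga)) * (Ga * ga) * (p14 * p14) := by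
  subst hp
  subst h8
  subst h11
  subst h13
  subst h14
  ring

theorem L1_t5 (p0 p1 p2 p3 p4 p5 p6 p7 p8 p9 p10 p11 p12 p13 p14 s al be ga de S Al Be Ga De y14 :
    ℝ)
    (hp : p14 = p10 + p11 + p12 + p13 - p7 - p8 - p9)
    (h14 : y14 = s * S * p14 + s * Be * p14 + s * Ga * p14 + be * S * p14 + ga * S * p14)
    : y14 * y14 = (s * S + S * (be + ga) + s * (Be + Ga)) * (s * S + S * (be + ga) + s * (Be +
        Ga)) * (p14 * p14) := by
  subst hp
  subst h14
  ring

theorem L1_psi (p0 p1 p2 p3 p4 p5 p6 p7 p8 p9 p10 p11 p12 p13 p14 s al be ga de S Al Be Ga De y7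
    y8 y9 y10 y11 y12 y13 y14 : ℝ)
    (hp : p14 = p10 + p11 + p12 + p13 - p7 - p8 - p9)
    (h7 : y7 = s * S * p7 + s * Be * p7 + s * Ga * p7 + be * S * p7 + be * Be * p14 + be * Ga *
        p14 + ga * S * p7 + ga * Be * p14 + ga * Ga * p14)
    (h8 : y8 = s * S * p8 + s * Al * p14 + s * Be * p8 + s * Ga * p8 + s * De * p14 + al * S * p14
        + al * Be * p14 + al * Ga * p14 + be * S * p8 + be * Al * p14 + be * Ga * p14 + ga * S *
        p8 + ga * Al * p14 + ga * Be * p14 + de * S * p14)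
    (h9 : y9 = s * S * p9 + s * Al * p14 + s * Be * p9 + s * Ga * p9 + s * De * p14 + al * S * p14
        + al * Be * p14 + al * Ga * p14 + be * S * p9 + be * Al * p14 + be * Be * p14 + ga * S *
        p9 + ga * Al * p14 + ga * Ga * p14 + de * S * p14)
    (h10 : y10 = s * S * p10 + s * Al * p14 + s * Be * p10 + s * Ga * p10 + s * De * p14 + be * S
        * p10 + be * Al * p14 + be * Be * p14 + ga * S * p10 + ga * Al * p14 + ga * Be * p14)
    (h11 : y11 = s * S * p11 + s * Al * p14 + s * Be * p11 + s * Ga * p11 + s * De * p14 + be * S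
        * p11 + be * Al * p14 + be * Ga * p14 + ga * S * p11 + ga * Al * p14 + ga * Ga * p14)
    (h12 : y12 = s * S * p12 + s * Be * p12 + s * Ga * p12 + al * S * p14 + al * Be * p14 + al *
        Ga * p14 + be * S * p12 + be * Be * p14 + be * Ga * p14 + ga * S * p12 + de * S * p14)
    (h13 : y13 = s * S * p13 + s * Be * p13 + s * Ga * p13 + al * S * p14 + al * Be * p14 + al *
        Ga * p14 + be * S * p13 + ga * S * p13 + ga * Be * p14 + ga * Ga * p14 + de * S * p14)
    (h14 : y14 = s * S * p14 + s * Be * p14 + s * Ga * p14 + be * S * p14 + ga * S * p14)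
    : y14 = y10 + y11 + y12 + y13 - y7 - y8 - y9 := by
  subst hp
  subst h7
  subst h8
  subst h9
  subst h10
  subst h11
  subst h12
  subst h13
  subst h14
  ring

end Pool.Agent.CL
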