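import Pool.Agent.Lib.MP_d90615_co.CL.Alg1

/-!
Positivity is preserved when a block is added: the quadratic form of the four cross weights.
-/

namespace Pool.Agent.CL

set_option maxHeartbeats 4000000

lemma lead_nonneg {a b c : ℝ} (h : ∀ t : ℝ, 0 ≤ a + b * t + c * t ^ 2) : 0 ≤ c := by
  by_contra hc
  push Not at hc
  have hpos : 0 < -c := by linarith
  set t : ℝ := (|a| + |b| + 1) / (-c) + 1 with ht
  have h0 : 0 ≤ (|a| + |b| + 1) / (-c) := by positivity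
  have ht1 : 1 ≤ t := by linarith
  have hct : c * t ≤ -(|a| + |b| + 1) := by
    have e : c * t = -(|a| + |b| + 1) + c := by
      rw [ht, mul_add, mul_one, div_neg, mul_neg, mul_comm c, div_mul_cancel₀ _ hc.ne]
    linarith
  have h1 := h t
  have ha : a ≤ |a| * t := by
    have := le_abs_self a
    nlinarith [abs_nonneg a]
  have hb : b * t ≤ |b| * t := by
    have := le_abs_self b
    nlinarith
  have h2 : c * t ^ 2 ≤ -(|a| + |b| + 1) * t := by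
    have : c * t ^ 2 = (c * t) * t := by ring
    rw [this]
    nlinarith
  nlinarith

/-- First and second moments of a vector in the plane. -/
structure Mom where
  m1 : ℝ
  m2 : ℝ
  m11 : ℝ
  m12 : ℝ
  m22 : ℝ

/-- The covariance matrix is positive semidefinite. -/
def Mom.PSD (u : Mom) : Prop :=
  0 ≤ u.m11 - u.m1 * u.m1 ∧ 0 ≤ u.m22 - u.m2 * u.m2 ∧
    (u.m12 - u.m1 * u.m2) ^ 2 ≤ (u.m11 - u.m1 * u.m1) * (u.m22 - u.m2 * u.m2)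

lemma quad_moment {c0 c1 c2 c11 c12 c22 : ℝ}
    (H : ∀ x y : ℝ, 0 ≤ c0 + c1 * x + c2 * y + c11 * (x * x) + c12 * (x * y) + c22 * (y * y))
    {u : Mom} (hu : u.PSD) :
    0 ≤ c0 + c1 * u.m1 + c2 * u.m2 + c11 * u.m11 + c12 * u.m12 + c22 * u.m22 := by
  obtain ⟨h1, h2, h3⟩ := hu
  have hq : ∀ x y : ℝ, 0 ≤ c11 * (x * x) + c12 * (x * y) + c22 * (y * y) := by
    intro x y
    refine lead_nonneg (a := c0) (b := c1 * x + c2 * y) fun t => ?_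
    have := H (t * x) (t * y)
    nlinarith [this]
  have hm := H u.m1 u.m2
  set C11 := u.m11 - u.m1 * u.m1 with hC11
  set C22 := u.m22 - u.m2 * u.m2 with hC22
  set C12 := u.m12 - u.m1 * u.m2 with hC12
  have hc : 0 ≤ c11 * C11 + c12 * C12 + c22 * C22 := by
    rcases h1.eq_or_lt with h0 | h0
    · have h4 : C12 = 0 := by
        have : C12 ^ 2 ≤ 0 := by rw [← h0] at h3; simpa using h3
        exact pow_eq_zero_iff (two_ne_zero) |>.mp (le_antisymm this (sq_nonneg _))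
      rw [← h0, h4]
      have := hq 0 1
      nlinarith
    · have e : c11 * C11 + c12 * C12 + c22 * C22 =
          (c11 * (C11 * C11) + c12 * (C11 * C12) + c22 * (C12 * C12)) / C11 +
            (C11 * C22 - C12 ^ 2) / C11 * c22 := by
        field_simp
        ring
      rw [e]
      have h5 := hq C11 C12
      have h6 := hq 0 1
      have h7 : 0 ≤ c22 := by linarith
      have h8 : 0 ≤ (C11 * C22 - C12 ^ 2) / C11 := div_nonneg (by linarith) h0.le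
      exact add_nonneg (div_nonneg h5 h0.le) (mul_nonneg h8 h7)
  have e : c0 + c1 * u.m1 + c2 * u.m2 + c11 * u.m11 + c12 * u.m12 + c22 * u.m22 =
      (c0 + c1 * u.m1 + c2 * u.m2 + c11 * (u.m1 * u.m1) + c12 * (u.m1 * u.m2) +
        c22 * (u.m2 * u.m2)) + (c11 * C11 + c12 * C12 + c22 * C22) := by
    rw [hC11, hC12, hC22]
    ring
  rw [e]
  exact add_nonneg hm hc

lemma pos2 (f0 f1 f2 f3 f4 f11 f12 f22 f13 f14 f24 f33 f34 f44 : ℝ)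
    (H : ∀ u1 u2 v1 v2 : ℝ, 0 ≤ f0 + f1 * (u1 * v1) + f2 * (u1 * v2) + f3 * (u2 * v1) + f4 * (u2 *
        v2) + f11 * (u1 * v1 * u1 * v1) + f12 * (u1 * v1 * u1 * v2) + f22 * (u1 * v2 * u1 * v2) +
        f13 * (u1 * v1 * u2 * v1) + f14 * (u1 * v1 * u2 * v2) + f24 * (u1 * v2 * u2 * v2) + f33 *
        (u2 * v1 * u2 * v1) + f34 * (u2 * v1 * u2 * v2) + f44 * (u2 * v2 * u2 * v2))
    {u v : Mom} (hu : u.PSD) (hv : v.PSD) :
    0 ≤ f0 + f1 * (u.m1 * v.m1) + f2 * (u.m1 * v.m2) + f3 * (u.m2 * v.m1) + f4 * (u.m2 * v.m2) +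
        f11 * (u.m11 * v.m11) + f12 * (u.m11 * v.m12) + f22 * (u.m11 * v.m22) + f13 * (u.m12 *
        v.m11) + f14 * (u.m12 * v.m12) + f24 * (u.m12 * v.m22) + f33 * (u.m22 * v.m11) + f34 *
        (u.m22 * v.m12) + f44 * (u.m22 * v.m22) := by
  have h1 : ∀ v1 v2 : ℝ, 0 ≤ f0 + (f1 * v1 + f2 * v2) * u.m1 + (f3 * v1 + f4 * v2) * u.m2 +
      (f11 * (v1 * v1) + f12 * (v1 * v2) + f22 * (v2 * v2)) * u.m11 +
      (f13 * (v1 * v1) + f14 * (v1 * v2) + f24 * (v2 * v2)) * u.m12 +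
      (f33 * (v1 * v1) + f34 * (v1 * v2) + f44 * (v2 * v2)) * u.m22 := by
    intro v1 v2
    refine quad_moment (fun x y => ?_) hu
    have := H x y v1 v2
    linarith
  have h2 := quad_moment (c0 := f0) (c1 := f1 * u.m1 + f3 * u.m2) (c2 := f2 * u.m1 + f4 * u.m2)
    (c11 := f11 * u.m11 + f13 * u.m12 + f33 * u.m22)
    (c12 := f12 * u.m11 + f14 * u.m12 + f34 * u.m22)
    (c22 := f22 * u.m11 + f24 * u.m12 + f44 * u.m22) (fun x y => by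
      have := h1 x y
      linarith) hv
  linarith

/-- The coefficients of the form. -/
structure Q20 where
  q0 : ℝ
  q1 : ℝ
  q2 : ℝ
  q3 : ℝ
  q4 : ℝ
  q11 : ℝ
  q22 : ℝ
  q33 : ℝ
  q44 : ℝ
  q12 : ℝ
  q13 : ℝ
  q24 : ℝ
  q34 : ℝ
  q14 : ℝ
  q23 : ℝ
  t1 : ℝ
  t2 : ℝ
  t3 : ℝ
  t4 : ℝ
  t5 : ℝ

/-- The form in the four cross weights `r1 = ca`, `r2 = cb`, `r3 = da`, `r4 = db`. -/
def Q20.F (q : Q20) (r1 r2 r3 r4 : ℝ) : ℝ :=
  q.q0 + q.q1 * r1 + q.q2 * r2 + q.q3 * r3 + q.q4 * r4 + q.q11 * r1 * r1 + q.q22 * r2 * r2 + q.q33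
      * r3 * r3 + q.q44 * r4 * r4 + q.q12 * r1 * r2 + q.q13 * r1 * r3 + q.q24 * r2 * r4 + q.q34 *
      r3 * r4 + q.q14 * r1 * r4 + q.q23 * r2 * r3 + (q.t1 * r1 + q.t2 * r2 + q.t3 * r3 + q.t4 *
      r4) * (r1 * r4 - r2 * r3) + q.t5 * (r1 * r4 - r2 * r3) * (r1 * r4 - r2 * r3)

/-- Evolution of the coefficients when a block is added. -/
def Q20.T (q : Q20) (K : ℝ) (u v : Mom) : Q20 where
  q0 := K * K * q.q0 + K * (u.m1 * v.m1) * q.q1 + K * (u.m1 * v.m2) * q.q2 + K * (u.m2 * v.m1) *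
      q.q3 + K * (u.m2 * v.m2) * q.q4 + (u.m11 * v.m11) * q.q11 + (u.m11 * v.m22) * q.q22 + (u.m22
      * v.m11) * q.q33 + (u.m22 * v.m22) * q.q44 + (u.m11 * v.m12) * q.q12 + (u.m12 * v.m11) *
      q.q13 + (u.m12 * v.m22) * q.q24 + (u.m22 * v.m12) * q.q34 + (u.m12 * v.m12) * q.q14 + (u.m12
      * v.m12) * q.q23
  q1 := K * K * q.q1 + 2 * K * (u.m1 * v.m1) * q.q11 + K * (u.m1 * v.m2) * q.q12 + K * (u.m2 *
      v.m1) * q.q13 + K * (u.m2 * v.m2) * q.q14 + (u.m12 * v.m12) * q.t1 + (u.m12 * v.m22) * q.t2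
      + (u.m22 * v.m12) * q.t3 + (u.m22 * v.m22) * q.t4
  q2 := K * K * q.q2 + 2 * K * (u.m1 * v.m2) * q.q22 + K * (u.m1 * v.m1) * q.q12 + K * (u.m2 *
      v.m2) * q.q24 + K * (u.m2 * v.m1) * q.q23 - (u.m12 * v.m11) * q.t1 - (u.m12 * v.m12) * q.t2
      - (u.m22 * v.m11) * q.t3 - (u.m22 * v.m12) * q.t4
  q3 := K * K * q.q3 + 2 * K * (u.m2 * v.m1) * q.q33 + K * (u.m1 * v.m1) * q.q13 + K * (u.m2 *
      v.m2) * q.q34 + K * (u.m1 * v.m2) * q.q23 - (u.m11 * v.m12) * q.t1 - (u.m11 * v.m22) * q.t2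
      - (u.m12 * v.m12) * q.t3 - (u.m12 * v.m22) * q.t4
  q4 := K * K * q.q4 + 2 * K * (u.m2 * v.m2) * q.q44 + K * (u.m1 * v.m2) * q.q24 + K * (u.m2 *
      v.m1) * q.q34 + K * (u.m1 * v.m1) * q.q14 + (u.m11 * v.m11) * q.t1 + (u.m11 * v.m12) * q.t2
      + (u.m12 * v.m11) * q.t3 + (u.m12 * v.m12) * q.t4
  q11 := K * K * q.q11 + K * (u.m2 * v.m2) * q.t1 + (u.m22 * v.m22) * q.t5
  q22 := K * K * q.q22 - K * (u.m2 * v.m1) * q.t2 + (u.m22 * v.m11) * q.t5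
  q33 := K * K * q.q33 - K * (u.m1 * v.m2) * q.t3 + (u.m11 * v.m22) * q.t5
  q44 := K * K * q.q44 + K * (u.m1 * v.m1) * q.t4 + (u.m11 * v.m11) * q.t5
  q12 := K * K * q.q12 - K * (u.m2 * v.m1) * q.t1 + K * (u.m2 * v.m2) * q.t2 - 2 * (u.m22 * v.m12)
      * q.t5
  q13 := K * K * q.q13 - K * (u.m1 * v.m2) * q.t1 + K * (u.m2 * v.m2) * q.t3 - 2 * (u.m12 * v.m22)
      * q.t5
  q24 := K * K * q.q24 + K * (u.m1 * v.m1) * q.t2 - K * (u.m2 * v.m1) * q.t4 - 2 * (u.m12 * v.m11)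
      * q.t5
  q34 := K * K * q.q34 + K * (u.m1 * v.m1) * q.t3 - K * (u.m1 * v.m2) * q.t4 - 2 * (u.m11 * v.m12)
      * q.t5
  q14 := K * K * q.q14 + 2 * K * (u.m1 * v.m1) * q.t1 + K * (u.m1 * v.m2) * q.t2 + K * (u.m2 *
      v.m1) * q.t3 + 2 * K * (u.m2 * v.m2) * q.t4 + 2 * (u.m12 * v.m12) * q.t5
  q23 := K * K * q.q23 - K * (u.m1 * v.m1) * q.t1 - 2 * K * (u.m1 * v.m2) * q.t2 - 2 * K * (u.m2 *
      v.m1) * q.t3 - K * (u.m2 * v.m2) * q.t4 + 2 * (u.m12 * v.m12) * q.t5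
  t1 := K * K * q.t1 + 2 * K * (u.m2 * v.m2) * q.t5
  t2 := K * K * q.t2 - 2 * K * (u.m2 * v.m1) * q.t5
  t3 := K * K * q.t3 - 2 * K * (u.m1 * v.m2) * q.t5
  t4 := K * K * q.t4 + 2 * K * (u.m1 * v.m1) * q.t5
  t5 := K * K * q.t5

theorem Q20.T_nonneg (q : Q20) {K : ℝ} (hK : 0 < K) {u v : Mom} (hu : u.PSD) (hv : v.PSD)
    (H : ∀ r1 r2 r3 r4, 0 ≤ q.F r1 r2 r3 r4) (r1 r2 r3 r4 : ℝ) :
    0 ≤ (q.T K u v).F r1 r2 r3 r4 := by
  refine (pos2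
    (K * K * q.q0 + K * K * q.q1 * r1 + K * K * q.q11 * r1 * r1 + K * K * q.q12 * r1 * r2 + K * K
        * q.q13 * r1 * r3 + K * K * q.q14 * r1 * r4 + K * K * q.q2 * r2 + K * K * q.q22 * r2 * r2
        + K * K * q.q23 * r2 * r3 + K * K * q.q24 * r2 * r4 + K * K * q.q3 * r3 + K * K * q.q33 *
        r3 * r3 + K * K * q.q34 * r3 * r4 + K * K * q.q4 * r4 + K * K * q.q44 * r4 * r4 + K * K *
        r1 * r1 * r4 * r4 * q.t5 + K * K * r1 * r1 * r4 * q.t1 - 2 * K * K * r1 * r2 * r3 * r4 *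
        q.t5 - K * K * r1 * r2 * r3 * q.t1 + K * K * r1 * r2 * r4 * q.t2 + K * K * r1 * r3 * r4 *
        q.t3 + K * K * r1 * r4 * r4 * q.t4 + K * K * r2 * r2 * r3 * r3 * q.t5 - K * K * r2 * r2 *
        r3 * q.t2 - K * K * r2 * r3 * r3 * q.t3 - K * K * r2 * r3 * r4 * q.t4)
    (K * q.q1 + 2 * K * q.q11 * r1 + K * q.q12 * r2 + K * q.q13 * r3 + K * q.q14 * r4 + 2 * K * r1
        * r4 * r4 * q.t5 + 2 * K * r1 * r4 * q.t1 - 2 * K * r2 * r3 * r4 * q.t5 - K * r2 * r3 *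
        q.t1 + K * r2 * r4 * q.t2 + K * r3 * r4 * q.t3 + K * r4 * r4 * q.t4)
    (K * q.q12 * r1 + K * q.q2 + 2 * K * q.q22 * r2 + K * q.q23 * r3 + K * q.q24 * r4 - 2 * K * r1
        * r3 * r4 * q.t5 - K * r1 * r3 * q.t1 + K * r1 * r4 * q.t2 + 2 * K * r2 * r3 * r3 * q.t5 -
        2 * K * r2 * r3 * q.t2 - K * r3 * r3 * q.t3 - K * r3 * r4 * q.t4)
    (K * q.q13 * r1 + K * q.q23 * r2 + K * q.q3 + 2 * K * q.q33 * r3 + K * q.q34 * r4 - 2 * K * r1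
        * r2 * r4 * q.t5 - K * r1 * r2 * q.t1 + K * r1 * r4 * q.t3 + 2 * K * r2 * r2 * r3 * q.t5 -
        K * r2 * r2 * q.t2 - 2 * K * r2 * r3 * q.t3 - K * r2 * r4 * q.t4)
    (K * q.q14 * r1 + K * q.q24 * r2 + K * q.q34 * r3 + K * q.q4 + 2 * K * q.q44 * r4 + 2 * K * r1
        * r1 * r4 * q.t5 + K * r1 * r1 * q.t1 - 2 * K * r1 * r2 * r3 * q.t5 + K * r1 * r2 * q.t2 +
        K * r1 * r3 * q.t3 + 2 * K * r1 * r4 * q.t4 - K * r2 * r3 * q.t4)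
    (q.q11 + r4 * r4 * q.t5 + r4 * q.t1)
    (q.q12 - 2 * r3 * r4 * q.t5 - r3 * q.t1 + r4 * q.t2)
    (q.q22 + r3 * r3 * q.t5 - r3 * q.t2)
    (q.q13 - 2 * r2 * r4 * q.t5 - r2 * q.t1 + r4 * q.t3)
    (q.q14 + q.q23 + 2 * r1 * r4 * q.t5 + r1 * q.t1 + 2 * r2 * r3 * q.t5 - r2 * q.t2 - r3 * q.t3 +
        r4 * q.t4)
    (q.q24 - 2 * r1 * r3 * q.t5 + r1 * q.t2 - r3 * q.t4)
    (q.q33 + r2 * r2 * q.t5 - r2 * q.t3)
    (q.q34 - 2 * r1 * r2 * q.t5 + r1 * q.t3 - r2 * q.t4)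
    (q.q44 + r1 * r1 * q.t5 + r1 * q.t4)
    (fun u1 u2 v1 v2 => ?_) hu hv).trans_eq ?_
  · have h := mul_nonneg (mul_nonneg hK.le hK.le)
      (H (r1 + u1 * v1 / K) (r2 + u1 * v2 / K) (r3 + u2 * v1 / K) (r4 + u2 * v2 / K))
    refine h.trans_eq ?_
    have hK' : K ≠ 0 := hK.ne'
    simp only [Q20.F]
    field_simp
    ring
  · simp only [Q20.F, Q20.T]
    ring

end Pool.Agent.CL
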