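import Pool.Agent.Lib.MP_d90615_co.CL.Alg2

/-!
The vector of the fifteen forest sums and its evolution when a block is added.
-/

namespace Pool.Agent.CL

open Finset

set_option maxHeartbeats 4000000

/-- Index of the partition `k ∨ tauI i ∨ tauJ j` of the four terminals, `none` if the links do not
form a forest. -/
def Ttab (k : Fin 15) (i j : Fin 5) : Option (Fin 15) :=
  (![
    ![![some 0, some 2, some 0, some 0, some 2],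
      ![some 1, some 7, some 1, some 1, some 7],
      ![some 0, some 2, some 6, some 5, some 13],
      ![some 0, some 2, some 4, some 3, some 12],
      ![some 1, some 7, some 11, some 10, some 14]],
    ![![some 1, some 7, some 1, some 1, some 7],
      ![none, none, none, none, none],
      ![some 1, some 7, some 11, some 10, some 14],
      ![some 1, some 7, some 11, some 10, some 14],
      ![none, none, none, none, none]],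
    ![![some 2, none, some 2, some 2, none],
      ![some 7, none, some 7, some 7, none],
      ![some 2, none, some 13, some 13, none],
      ![some 2, none, some 12, some 12, none],
      ![some 7, none, some 14, some 14, none]],
    ![![some 3, some 12, some 3, some 3, some 12],
      ![some 10, some 14, some 10, some 10, some 14],
      ![some 3, some 12, some 8, some 10, some 14],
      ![some 3, some 12, some 12, none, none],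
      ![some 10, some 14, some 14, none, none]],
    ![![some 4, some 12, some 4, some 4, some 12],
      ![some 11, some 14, some 11, some 11, some 14],
      ![some 4, some 12, some 11, some 9, some 14],
      ![some 4, some 12, none, some 12, none],
      ![some 11, some 14, none, some 14, none]],
    ![![some 5, some 13, some 5, some 5, some 13],
      ![some 10, some 14, some 10, some 10, some 14],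
      ![some 5, some 13, some 13, none, none],
      ![some 5, some 13, some 9, some 10, some 14],
      ![some 10, some 14, some 14, none, none]],
    ![![some 6, some 13, some 6, some 6, some 13],
      ![some 11, some 14, some 11, some 11, some 14],
      ![some 6, some 13, none, some 13, none],
      ![some 6, some 13, some 11, some 8, some 14],
      ![some 11, some 14, none, some 14, none]],
    ![![some 7, none, some 7, some 7, none],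
      ![none, none, none, none, none],
      ![some 7, none, some 14, some 14, none],
      ![some 7, none, some 14, some 14, none],
      ![none, none, none, none, none]],
    ![![some 8, some 14, some 8, some 8, some 14],
      ![some 14, none, some 14, some 14, none],
      ![some 8, some 14, none, some 14, none],
      ![some 8, some 14, some 14, none, none],
      ![some 14, none, none, none, none]],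
    ![![some 9, some 14, some 9, some 9, some 14],
      ![some 14, none, some 14, some 14, none],
      ![some 9, some 14, some 14, none, none],
      ![some 9, some 14, none, some 14, none],
      ![some 14, none, none, none, none]],
    ![![some 10, some 14, some 10, some 10, some 14],
      ![none, none, none, none, none],
      ![some 10, some 14, some 14, none, none],
      ![some 10, some 14, some 14, none, none],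
      ![none, none, none, none, none]],
    ![![some 11, some 14, some 11, some 11, some 14],
      ![none, none, none, none, none],
      ![some 11, some 14, none, some 14, none],
      ![some 11, some 14, none, some 14, none],
      ![none, none, none, none, none]],
    ![![some 12, none, some 12, some 12, none],
      ![some 14, none, some 14, some 14, none],
      ![some 12, none, some 14, some 14, none],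
      ![some 12, none, none, none, none],
      ![some 14, none, none, none, none]],
    ![![some 13, none, some 13, some 13, none],
      ![some 14, none, some 14, some 14, none],
      ![some 13, none, none, none, none],
      ![some 13, none, some 14, some 14, none],
      ![some 14, none, none, none, none]],
    ![![some 14, none, some 14, some 14, none],
      ![none, none, none, none, none],
      ![some 14, none, none, none, none],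
      ![some 14, none, none, none, none],
      ![none, none, none, none, none]]] : Fin 15 → Fin 5 → Fin 5 → Option (Fin 15)) k i j

/-- Value of a vector at an optional index. -/
def vO (p : Fin 15 → ℝ) : Option (Fin 15) → ℝ
  | none => 0
  | some k => p k

/-- The vector after adding a block with pattern vectors `X1` on `a, b, x` and `X2` on
`c, d, x`. -/
def blk (X1 X2 : Fin 5 → ℝ) (p : Fin 15 → ℝ) (k : Fin 15) : ℝ :=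
  ∑ i : Fin 5, ∑ j : Fin 5, X1 i * X2 j * vO p (Ttab k i j)

lemma blk_0 (X1 X2 : Fin 5 → ℝ) (p : Fin 15 → ℝ) : blk X1 X2 p 0 = X1 0 * X2 0 * p 0 + X1 0 * X2 1
    * p 2 + X1 0 * X2 2 * p 0 + X1 0 * X2 3 * p 0 + X1 0 * X2 4 * p 2 + X1 1 * X2 0 * p 1 + X1 1 *
    X2 1 * p 7 + X1 1 * X2 2 * p 1 + X1 1 * X2 3 * p 1 + X1 1 * X2 4 * p 7 + X1 2 * X2 0 * p 0 +
    X1 2 * X2 1 * p 2 + X1 2 * X2 2 * p 6 + X1 2 * X2 3 * p 5 + X1 2 * X2 4 * p 13 + X1 3 * X2 0 *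
    p 0 + X1 3 * X2 1 * p 2 + X1 3 * X2 2 * p 4 + X1 3 * X2 3 * p 3 + X1 3 * X2 4 * p 12 + X1 4 *
    X2 0 * p 1 + X1 4 * X2 1 * p 7 + X1 4 * X2 2 * p 11 + X1 4 * X2 3 * p 10 + X1 4 * X2 4 * p 14
    := by
  unfold blk
  simp only [Fin.sum_univ_five]
  show (X1 0 * X2 0 * p 0 + X1 0 * X2 1 * p 2 + X1 0 * X2 2 * p 0 + X1 0 * X2 3 * p 0 + X1 0 * X2
      4 * p 2) + (X1 1 * X2 0 * p 1 + X1 1 * X2 1 * p 7 + X1 1 * X2 2 * p 1 + X1 1 * X2 3 * p 1 +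
      X1 1 * X2 4 * p 7) + (X1 2 * X2 0 * p 0 + X1 2 * X2 1 * p 2 + X1 2 * X2 2 * p 6 + X1 2 * X2
      3 * p 5 + X1 2 * X2 4 * p 13) + (X1 3 * X2 0 * p 0 + X1 3 * X2 1 * p 2 + X1 3 * X2 2 * p 4 +
      X1 3 * X2 3 * p 3 + X1 3 * X2 4 * p 12) + (X1 4 * X2 0 * p 1 + X1 4 * X2 1 * p 7 + X1 4 * X2
      2 * p 11 + X1 4 * X2 3 * p 10 + X1 4 * X2 4 * p 14) = _
  ring

lemma blk_1 (X1 X2 : Fin 5 → ℝ) (p : Fin 15 → ℝ) : blk X1 X2 p 1 = X1 0 * X2 0 * p 1 + X1 0 * X2 1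
    * p 7 + X1 0 * X2 2 * p 1 + X1 0 * X2 3 * p 1 + X1 0 * X2 4 * p 7 + X1 2 * X2 0 * p 1 + X1 2 *
    X2 1 * p 7 + X1 2 * X2 2 * p 11 + X1 2 * X2 3 * p 10 + X1 2 * X2 4 * p 14 + X1 3 * X2 0 * p 1
    + X1 3 * X2 1 * p 7 + X1 3 * X2 2 * p 11 + X1 3 * X2 3 * p 10 + X1 3 * X2 4 * p 14 := by
  unfold blk
  simp only [Fin.sum_univ_five]
  show (X1 0 * X2 0 * p 1 + X1 0 * X2 1 * p 7 + X1 0 * X2 2 * p 1 + X1 0 * X2 3 * p 1 + X1 0 * X2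
      4 * p 7) + (X1 1 * X2 0 * 0 + X1 1 * X2 1 * 0 + X1 1 * X2 2 * 0 + X1 1 * X2 3 * 0 + X1 1 *
      X2 4 * 0) + (X1 2 * X2 0 * p 1 + X1 2 * X2 1 * p 7 + X1 2 * X2 2 * p 11 + X1 2 * X2 3 * p 10
      + X1 2 * X2 4 * p 14) + (X1 3 * X2 0 * p 1 + X1 3 * X2 1 * p 7 + X1 3 * X2 2 * p 11 + X1 3 *
      X2 3 * p 10 + X1 3 * X2 4 * p 14) + (X1 4 * X2 0 * 0 + X1 4 * X2 1 * 0 + X1 4 * X2 2 * 0 +
      X1 4 * X2 3 * 0 + X1 4 * X2 4 * 0) = _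
  ring

lemma blk_2 (X1 X2 : Fin 5 → ℝ) (p : Fin 15 → ℝ) : blk X1 X2 p 2 = X1 0 * X2 0 * p 2 + X1 0 * X2 2
    * p 2 + X1 0 * X2 3 * p 2 + X1 1 * X2 0 * p 7 + X1 1 * X2 2 * p 7 + X1 1 * X2 3 * p 7 + X1 2 *
    X2 0 * p 2 + X1 2 * X2 2 * p 13 + X1 2 * X2 3 * p 13 + X1 3 * X2 0 * p 2 + X1 3 * X2 2 * p 12
    + X1 3 * X2 3 * p 12 + X1 4 * X2 0 * p 7 + X1 4 * X2 2 * p 14 + X1 4 * X2 3 * p 14 := by
  unfold blk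
  simp only [Fin.sum_univ_five]
  show (X1 0 * X2 0 * p 2 + X1 0 * X2 1 * 0 + X1 0 * X2 2 * p 2 + X1 0 * X2 3 * p 2 + X1 0 * X2 4
      * 0) + (X1 1 * X2 0 * p 7 + X1 1 * X2 1 * 0 + X1 1 * X2 2 * p 7 + X1 1 * X2 3 * p 7 + X1 1 *
      X2 4 * 0) + (X1 2 * X2 0 * p 2 + X1 2 * X2 1 * 0 + X1 2 * X2 2 * p 13 + X1 2 * X2 3 * p 13 +
      X1 2 * X2 4 * 0) + (X1 3 * X2 0 * p 2 + X1 3 * X2 1 * 0 + X1 3 * X2 2 * p 12 + X1 3 * X2 3 *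
      p 12 + X1 3 * X2 4 * 0) + (X1 4 * X2 0 * p 7 + X1 4 * X2 1 * 0 + X1 4 * X2 2 * p 14 + X1 4 *
      X2 3 * p 14 + X1 4 * X2 4 * 0) = _
  ring

lemma blk_3 (X1 X2 : Fin 5 → ℝ) (p : Fin 15 → ℝ) : blk X1 X2 p 3 = X1 0 * X2 0 * p 3 + X1 0 * X2 1
    * p 12 + X1 0 * X2 2 * p 3 + X1 0 * X2 3 * p 3 + X1 0 * X2 4 * p 12 + X1 1 * X2 0 * p 10 + X1
    1 * X2 1 * p 14 + X1 1 * X2 2 * p 10 + X1 1 * X2 3 * p 10 + X1 1 * X2 4 * p 14 + X1 2 * X2 0 *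
    p 3 + X1 2 * X2 1 * p 12 + X1 2 * X2 2 * p 8 + X1 2 * X2 3 * p 10 + X1 2 * X2 4 * p 14 + X1 3
    * X2 0 * p 3 + X1 3 * X2 1 * p 12 + X1 3 * X2 2 * p 12 + X1 4 * X2 0 * p 10 + X1 4 * X2 1 * p
    14 + X1 4 * X2 2 * p 14 := by
  unfold blk
  simp only [Fin.sum_univ_five]
  show (X1 0 * X2 0 * p 3 + X1 0 * X2 1 * p 12 + X1 0 * X2 2 * p 3 + X1 0 * X2 3 * p 3 + X1 0 * X2
      4 * p 12) + (X1 1 * X2 0 * p 10 + X1 1 * X2 1 * p 14 + X1 1 * X2 2 * p 10 + X1 1 * X2 3 * p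
      10 + X1 1 * X2 4 * p 14) + (X1 2 * X2 0 * p 3 + X1 2 * X2 1 * p 12 + X1 2 * X2 2 * p 8 + X1
      2 * X2 3 * p 10 + X1 2 * X2 4 * p 14) + (X1 3 * X2 0 * p 3 + X1 3 * X2 1 * p 12 + X1 3 * X2
      2 * p 12 + X1 3 * X2 3 * 0 + X1 3 * X2 4 * 0) + (X1 4 * X2 0 * p 10 + X1 4 * X2 1 * p 14 +
      X1 4 * X2 2 * p 14 + X1 4 * X2 3 * 0 + X1 4 * X2 4 * 0) = _
  ring

lemma blk_4 (X1 X2 : Fin 5 → ℝ) (p : Fin 15 → ℝ) : blk X1 X2 p 4 = X1 0 * X2 0 * p 4 + X1 0 * X2 1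
    * p 12 + X1 0 * X2 2 * p 4 + X1 0 * X2 3 * p 4 + X1 0 * X2 4 * p 12 + X1 1 * X2 0 * p 11 + X1
    1 * X2 1 * p 14 + X1 1 * X2 2 * p 11 + X1 1 * X2 3 * p 11 + X1 1 * X2 4 * p 14 + X1 2 * X2 0 *
    p 4 + X1 2 * X2 1 * p 12 + X1 2 * X2 2 * p 11 + X1 2 * X2 3 * p 9 + X1 2 * X2 4 * p 14 + X1 3
    * X2 0 * p 4 + X1 3 * X2 1 * p 12 + X1 3 * X2 3 * p 12 + X1 4 * X2 0 * p 11 + X1 4 * X2 1 * p
    14 + X1 4 * X2 3 * p 14 := by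
  unfold blk
  simp only [Fin.sum_univ_five]
  show (X1 0 * X2 0 * p 4 + X1 0 * X2 1 * p 12 + X1 0 * X2 2 * p 4 + X1 0 * X2 3 * p 4 + X1 0 * X2
      4 * p 12) + (X1 1 * X2 0 * p 11 + X1 1 * X2 1 * p 14 + X1 1 * X2 2 * p 11 + X1 1 * X2 3 * p
      11 + X1 1 * X2 4 * p 14) + (X1 2 * X2 0 * p 4 + X1 2 * X2 1 * p 12 + X1 2 * X2 2 * p 11 + X1
      2 * X2 3 * p 9 + X1 2 * X2 4 * p 14) + (X1 3 * X2 0 * p 4 + X1 3 * X2 1 * p 12 + X1 3 * X2 2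
      * 0 + X1 3 * X2 3 * p 12 + X1 3 * X2 4 * 0) + (X1 4 * X2 0 * p 11 + X1 4 * X2 1 * p 14 + X1
      4 * X2 2 * 0 + X1 4 * X2 3 * p 14 + X1 4 * X2 4 * 0) = _
  ring

lemma blk_5 (X1 X2 : Fin 5 → ℝ) (p : Fin 15 → ℝ) : blk X1 X2 p 5 = X1 0 * X2 0 * p 5 + X1 0 * X2 1
    * p 13 + X1 0 * X2 2 * p 5 + X1 0 * X2 3 * p 5 + X1 0 * X2 4 * p 13 + X1 1 * X2 0 * p 10 + X1
    1 * X2 1 * p 14 + X1 1 * X2 2 * p 10 + X1 1 * X2 3 * p 10 + X1 1 * X2 4 * p 14 + X1 2 * X2 0 *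
    p 5 + X1 2 * X2 1 * p 13 + X1 2 * X2 2 * p 13 + X1 3 * X2 0 * p 5 + X1 3 * X2 1 * p 13 + X1 3
    * X2 2 * p 9 + X1 3 * X2 3 * p 10 + X1 3 * X2 4 * p 14 + X1 4 * X2 0 * p 10 + X1 4 * X2 1 * p
    14 + X1 4 * X2 2 * p 14 := by
  unfold blk
  simp only [Fin.sum_univ_five]
  show (X1 0 * X2 0 * p 5 + X1 0 * X2 1 * p 13 + X1 0 * X2 2 * p 5 + X1 0 * X2 3 * p 5 + X1 0 * X2
      4 * p 13) + (X1 1 * X2 0 * p 10 + X1 1 * X2 1 * p 14 + X1 1 * X2 2 * p 10 + X1 1 * X2 3 * p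
      10 + X1 1 * X2 4 * p 14) + (X1 2 * X2 0 * p 5 + X1 2 * X2 1 * p 13 + X1 2 * X2 2 * p 13 + X1
      2 * X2 3 * 0 + X1 2 * X2 4 * 0) + (X1 3 * X2 0 * p 5 + X1 3 * X2 1 * p 13 + X1 3 * X2 2 * p
      9 + X1 3 * X2 3 * p 10 + X1 3 * X2 4 * p 14) + (X1 4 * X2 0 * p 10 + X1 4 * X2 1 * p 14 + X1
      4 * X2 2 * p 14 + X1 4 * X2 3 * 0 + X1 4 * X2 4 * 0) = _
  ring

lemma blk_6 (X1 X2 : Fin 5 → ℝ) (p : Fin 15 → ℝ) : blk X1 X2 p 6 = X1 0 * X2 0 * p 6 + X1 0 * X2 1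
    * p 13 + X1 0 * X2 2 * p 6 + X1 0 * X2 3 * p 6 + X1 0 * X2 4 * p 13 + X1 1 * X2 0 * p 11 + X1
    1 * X2 1 * p 14 + X1 1 * X2 2 * p 11 + X1 1 * X2 3 * p 11 + X1 1 * X2 4 * p 14 + X1 2 * X2 0 *
    p 6 + X1 2 * X2 1 * p 13 + X1 2 * X2 3 * p 13 + X1 3 * X2 0 * p 6 + X1 3 * X2 1 * p 13 + X1 3
    * X2 2 * p 11 + X1 3 * X2 3 * p 8 + X1 3 * X2 4 * p 14 + X1 4 * X2 0 * p 11 + X1 4 * X2 1 * p
    14 + X1 4 * X2 3 * p 14 := by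
  unfold blk
  simp only [Fin.sum_univ_five]
  show (X1 0 * X2 0 * p 6 + X1 0 * X2 1 * p 13 + X1 0 * X2 2 * p 6 + X1 0 * X2 3 * p 6 + X1 0 * X2
      4 * p 13) + (X1 1 * X2 0 * p 11 + X1 1 * X2 1 * p 14 + X1 1 * X2 2 * p 11 + X1 1 * X2 3 * p
      11 + X1 1 * X2 4 * p 14) + (X1 2 * X2 0 * p 6 + X1 2 * X2 1 * p 13 + X1 2 * X2 2 * 0 + X1 2
      * X2 3 * p 13 + X1 2 * X2 4 * 0) + (X1 3 * X2 0 * p 6 + X1 3 * X2 1 * p 13 + X1 3 * X2 2 * p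
      11 + X1 3 * X2 3 * p 8 + X1 3 * X2 4 * p 14) + (X1 4 * X2 0 * p 11 + X1 4 * X2 1 * p 14 + X1
      4 * X2 2 * 0 + X1 4 * X2 3 * p 14 + X1 4 * X2 4 * 0) = _
  ring

lemma blk_7 (X1 X2 : Fin 5 → ℝ) (p : Fin 15 → ℝ) : blk X1 X2 p 7 = X1 0 * X2 0 * p 7 + X1 0 * X2 2
    * p 7 + X1 0 * X2 3 * p 7 + X1 2 * X2 0 * p 7 + X1 2 * X2 2 * p 14 + X1 2 * X2 3 * p 14 + X1 3
    * X2 0 * p 7 + X1 3 * X2 2 * p 14 + X1 3 * X2 3 * p 14 := by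
  unfold blk
  simp only [Fin.sum_univ_five]
  show (X1 0 * X2 0 * p 7 + X1 0 * X2 1 * 0 + X1 0 * X2 2 * p 7 + X1 0 * X2 3 * p 7 + X1 0 * X2 4
      * 0) + (X1 1 * X2 0 * 0 + X1 1 * X2 1 * 0 + X1 1 * X2 2 * 0 + X1 1 * X2 3 * 0 + X1 1 * X2 4
      * 0) + (X1 2 * X2 0 * p 7 + X1 2 * X2 1 * 0 + X1 2 * X2 2 * p 14 + X1 2 * X2 3 * p 14 + X1 2
      * X2 4 * 0) + (X1 3 * X2 0 * p 7 + X1 3 * X2 1 * 0 + X1 3 * X2 2 * p 14 + X1 3 * X2 3 * p 14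
      + X1 3 * X2 4 * 0) + (X1 4 * X2 0 * 0 + X1 4 * X2 1 * 0 + X1 4 * X2 2 * 0 + X1 4 * X2 3 * 0
      + X1 4 * X2 4 * 0) = _
  ring

lemma blk_8 (X1 X2 : Fin 5 → ℝ) (p : Fin 15 → ℝ) : blk X1 X2 p 8 = X1 0 * X2 0 * p 8 + X1 0 * X2 1
    * p 14 + X1 0 * X2 2 * p 8 + X1 0 * X2 3 * p 8 + X1 0 * X2 4 * p 14 + X1 1 * X2 0 * p 14 + X1
    1 * X2 2 * p 14 + X1 1 * X2 3 * p 14 + X1 2 * X2 0 * p 8 + X1 2 * X2 1 * p 14 + X1 2 * X2 3 *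
    p 14 + X1 3 * X2 0 * p 8 + X1 3 * X2 1 * p 14 + X1 3 * X2 2 * p 14 + X1 4 * X2 0 * p 14 := by
  unfold blk
  simp only [Fin.sum_univ_five]
  show (X1 0 * X2 0 * p 8 + X1 0 * X2 1 * p 14 + X1 0 * X2 2 * p 8 + X1 0 * X2 3 * p 8 + X1 0 * X2
      4 * p 14) + (X1 1 * X2 0 * p 14 + X1 1 * X2 1 * 0 + X1 1 * X2 2 * p 14 + X1 1 * X2 3 * p 14
      + X1 1 * X2 4 * 0) + (X1 2 * X2 0 * p 8 + X1 2 * X2 1 * p 14 + X1 2 * X2 2 * 0 + X1 2 * X2 3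
      * p 14 + X1 2 * X2 4 * 0) + (X1 3 * X2 0 * p 8 + X1 3 * X2 1 * p 14 + X1 3 * X2 2 * p 14 +
      X1 3 * X2 3 * 0 + X1 3 * X2 4 * 0) + (X1 4 * X2 0 * p 14 + X1 4 * X2 1 * 0 + X1 4 * X2 2 * 0
      + X1 4 * X2 3 * 0 + X1 4 * X2 4 * 0) = _
  ring

lemma blk_9 (X1 X2 : Fin 5 → ℝ) (p : Fin 15 → ℝ) : blk X1 X2 p 9 = X1 0 * X2 0 * p 9 + X1 0 * X2 1
    * p 14 + X1 0 * X2 2 * p 9 + X1 0 * X2 3 * p 9 + X1 0 * X2 4 * p 14 + X1 1 * X2 0 * p 14 + X1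
    1 * X2 2 * p 14 + X1 1 * X2 3 * p 14 + X1 2 * X2 0 * p 9 + X1 2 * X2 1 * p 14 + X1 2 * X2 2 *
    p 14 + X1 3 * X2 0 * p 9 + X1 3 * X2 1 * p 14 + X1 3 * X2 3 * p 14 + X1 4 * X2 0 * p 14 := by
  unfold blk
  simp only [Fin.sum_univ_five]
  show (X1 0 * X2 0 * p 9 + X1 0 * X2 1 * p 14 + X1 0 * X2 2 * p 9 + X1 0 * X2 3 * p 9 + X1 0 * X2
      4 * p 14) + (X1 1 * X2 0 * p 14 + X1 1 * X2 1 * 0 + X1 1 * X2 2 * p 14 + X1 1 * X2 3 * p 14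
      + X1 1 * X2 4 * 0) + (X1 2 * X2 0 * p 9 + X1 2 * X2 1 * p 14 + X1 2 * X2 2 * p 14 + X1 2 *
      X2 3 * 0 + X1 2 * X2 4 * 0) + (X1 3 * X2 0 * p 9 + X1 3 * X2 1 * p 14 + X1 3 * X2 2 * 0 + X1
      3 * X2 3 * p 14 + X1 3 * X2 4 * 0) + (X1 4 * X2 0 * p 14 + X1 4 * X2 1 * 0 + X1 4 * X2 2 * 0
      + X1 4 * X2 3 * 0 + X1 4 * X2 4 * 0) = _
  ring

lemma blk_10 (X1 X2 : Fin 5 → ℝ) (p : Fin 15 → ℝ) : blk X1 X2 p 10 = X1 0 * X2 0 * p 10 + X1 0 *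
    X2 1 * p 14 + X1 0 * X2 2 * p 10 + X1 0 * X2 3 * p 10 + X1 0 * X2 4 * p 14 + X1 2 * X2 0 * p
    10 + X1 2 * X2 1 * p 14 + X1 2 * X2 2 * p 14 + X1 3 * X2 0 * p 10 + X1 3 * X2 1 * p 14 + X1 3
    * X2 2 * p 14 := by
  unfold blk
  simp only [Fin.sum_univ_five]
  show (X1 0 * X2 0 * p 10 + X1 0 * X2 1 * p 14 + X1 0 * X2 2 * p 10 + X1 0 * X2 3 * p 10 + X1 0 *
      X2 4 * p 14) + (X1 1 * X2 0 * 0 + X1 1 * X2 1 * 0 + X1 1 * X2 2 * 0 + X1 1 * X2 3 * 0 + X1 1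
      * X2 4 * 0) + (X1 2 * X2 0 * p 10 + X1 2 * X2 1 * p 14 + X1 2 * X2 2 * p 14 + X1 2 * X2 3 *
      0 + X1 2 * X2 4 * 0) + (X1 3 * X2 0 * p 10 + X1 3 * X2 1 * p 14 + X1 3 * X2 2 * p 14 + X1 3
      * X2 3 * 0 + X1 3 * X2 4 * 0) + (X1 4 * X2 0 * 0 + X1 4 * X2 1 * 0 + X1 4 * X2 2 * 0 + X1 4
      * X2 3 * 0 + X1 4 * X2 4 * 0) = _
  ring

lemma blk_11 (X1 X2 : Fin 5 → ℝ) (p : Fin 15 → ℝ) : blk X1 X2 p 11 = X1 0 * X2 0 * p 11 + X1 0 *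
    X2 1 * p 14 + X1 0 * X2 2 * p 11 + X1 0 * X2 3 * p 11 + X1 0 * X2 4 * p 14 + X1 2 * X2 0 * p
    11 + X1 2 * X2 1 * p 14 + X1 2 * X2 3 * p 14 + X1 3 * X2 0 * p 11 + X1 3 * X2 1 * p 14 + X1 3
    * X2 3 * p 14 := by
  unfold blk
  simp only [Fin.sum_univ_five]
  show (X1 0 * X2 0 * p 11 + X1 0 * X2 1 * p 14 + X1 0 * X2 2 * p 11 + X1 0 * X2 3 * p 11 + X1 0 *
      X2 4 * p 14) + (X1 1 * X2 0 * 0 + X1 1 * X2 1 * 0 + X1 1 * X2 2 * 0 + X1 1 * X2 3 * 0 + X1 1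
      * X2 4 * 0) + (X1 2 * X2 0 * p 11 + X1 2 * X2 1 * p 14 + X1 2 * X2 2 * 0 + X1 2 * X2 3 * p
      14 + X1 2 * X2 4 * 0) + (X1 3 * X2 0 * p 11 + X1 3 * X2 1 * p 14 + X1 3 * X2 2 * 0 + X1 3 *
      X2 3 * p 14 + X1 3 * X2 4 * 0) + (X1 4 * X2 0 * 0 + X1 4 * X2 1 * 0 + X1 4 * X2 2 * 0 + X1 4
      * X2 3 * 0 + X1 4 * X2 4 * 0) = _
  ring

lemma blk_12 (X1 X2 : Fin 5 → ℝ) (p : Fin 15 → ℝ) : blk X1 X2 p 12 = X1 0 * X2 0 * p 12 + X1 0 *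
    X2 2 * p 12 + X1 0 * X2 3 * p 12 + X1 1 * X2 0 * p 14 + X1 1 * X2 2 * p 14 + X1 1 * X2 3 * p
    14 + X1 2 * X2 0 * p 12 + X1 2 * X2 2 * p 14 + X1 2 * X2 3 * p 14 + X1 3 * X2 0 * p 12 + X1 4
    * X2 0 * p 14 := by
  unfold blk
  simp only [Fin.sum_univ_five]
  show (X1 0 * X2 0 * p 12 + X1 0 * X2 1 * 0 + X1 0 * X2 2 * p 12 + X1 0 * X2 3 * p 12 + X1 0 * X2
      4 * 0) + (X1 1 * X2 0 * p 14 + X1 1 * X2 1 * 0 + X1 1 * X2 2 * p 14 + X1 1 * X2 3 * p 14 +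
      X1 1 * X2 4 * 0) + (X1 2 * X2 0 * p 12 + X1 2 * X2 1 * 0 + X1 2 * X2 2 * p 14 + X1 2 * X2 3
      * p 14 + X1 2 * X2 4 * 0) + (X1 3 * X2 0 * p 12 + X1 3 * X2 1 * 0 + X1 3 * X2 2 * 0 + X1 3 *
      X2 3 * 0 + X1 3 * X2 4 * 0) + (X1 4 * X2 0 * p 14 + X1 4 * X2 1 * 0 + X1 4 * X2 2 * 0 + X1 4
      * X2 3 * 0 + X1 4 * X2 4 * 0) = _
  ring

lemma blk_13 (X1 X2 : Fin 5 → ℝ) (p : Fin 15 → ℝ) : blk X1 X2 p 13 = X1 0 * X2 0 * p 13 + X1 0 *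
    X2 2 * p 13 + X1 0 * X2 3 * p 13 + X1 1 * X2 0 * p 14 + X1 1 * X2 2 * p 14 + X1 1 * X2 3 * p
    14 + X1 2 * X2 0 * p 13 + X1 3 * X2 0 * p 13 + X1 3 * X2 2 * p 14 + X1 3 * X2 3 * p 14 + X1 4
    * X2 0 * p 14 := by
  unfold blk
  simp only [Fin.sum_univ_five]
  show (X1 0 * X2 0 * p 13 + X1 0 * X2 1 * 0 + X1 0 * X2 2 * p 13 + X1 0 * X2 3 * p 13 + X1 0 * X2
      4 * 0) + (X1 1 * X2 0 * p 14 + X1 1 * X2 1 * 0 + X1 1 * X2 2 * p 14 + X1 1 * X2 3 * p 14 +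
      X1 1 * X2 4 * 0) + (X1 2 * X2 0 * p 13 + X1 2 * X2 1 * 0 + X1 2 * X2 2 * 0 + X1 2 * X2 3 * 0
      + X1 2 * X2 4 * 0) + (X1 3 * X2 0 * p 13 + X1 3 * X2 1 * 0 + X1 3 * X2 2 * p 14 + X1 3 * X2
      3 * p 14 + X1 3 * X2 4 * 0) + (X1 4 * X2 0 * p 14 + X1 4 * X2 1 * 0 + X1 4 * X2 2 * 0 + X1 4
      * X2 3 * 0 + X1 4 * X2 4 * 0) = _
  ring

lemma blk_14 (X1 X2 : Fin 5 → ℝ) (p : Fin 15 → ℝ) : blk X1 X2 p 14 = X1 0 * X2 0 * p 14 + X1 0 *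
    X2 2 * p 14 + X1 0 * X2 3 * p 14 + X1 2 * X2 0 * p 14 + X1 3 * X2 0 * p 14 := by
  unfold blk
  simp only [Fin.sum_univ_five]
  show (X1 0 * X2 0 * p 14 + X1 0 * X2 1 * 0 + X1 0 * X2 2 * p 14 + X1 0 * X2 3 * p 14 + X1 0 * X2
      4 * 0) + (X1 1 * X2 0 * 0 + X1 1 * X2 1 * 0 + X1 1 * X2 2 * 0 + X1 1 * X2 3 * 0 + X1 1 * X2
      4 * 0) + (X1 2 * X2 0 * p 14 + X1 2 * X2 1 * 0 + X1 2 * X2 2 * 0 + X1 2 * X2 3 * 0 + X1 2 *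
      X2 4 * 0) + (X1 3 * X2 0 * p 14 + X1 3 * X2 1 * 0 + X1 3 * X2 2 * 0 + X1 3 * X2 3 * 0 + X1 3
      * X2 4 * 0) + (X1 4 * X2 0 * 0 + X1 4 * X2 1 * 0 + X1 4 * X2 2 * 0 + X1 4 * X2 3 * 0 + X1 4
      * X2 4 * 0) = _
  ring

/-- The coefficients of the form in terms of the vector. -/
def qp (p : Fin 15 → ℝ) : Q20 where
  q0 := - p 0 * p 7 + p 1 * p 2
  q1 := - p 0 * p 14 + p 1 * p 12 - p 10 * p 12 + p 10 * p 2 + p 14 * p 3 - p 3 * p 7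
  q2 := - p 0 * p 14 + p 1 * p 13 - p 10 * p 13 + p 10 * p 2 + p 14 * p 5 - p 5 * p 7
  q3 := - p 0 * p 14 + p 1 * p 12 - p 11 * p 12 + p 11 * p 2 + p 14 * p 4 - p 4 * p 7
  q4 := - p 0 * p 14 + p 1 * p 13 - p 11 * p 13 + p 11 * p 2 + p 14 * p 6 - p 6 * p 7
  q11 := p 10 * p 12 - p 14 * p 3
  q22 := p 10 * p 13 - p 14 * p 5
  q33 := p 11 * p 12 - p 14 * p 4
  q44 := p 11 * p 13 - p 14 * p 6
  q12 := p 1 * p 14 + p 10 * p 12 + p 10 * p 13 - p 10 * p 7 - p 14 * p 3 - p 14 * p 5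
  q13 := p 10 * p 12 + p 11 * p 12 - p 12 * p 7 + p 14 * p 2 - p 14 * p 3 - p 14 * p 4
  q24 := p 10 * p 13 + p 11 * p 13 - p 13 * p 7 + p 14 * p 2 - p 14 * p 5 - p 14 * p 6
  q34 := p 1 * p 14 + p 11 * p 12 + p 11 * p 13 - p 11 * p 7 - p 14 * p 4 - p 14 * p 6
  q14 := p 1 * p 14 + p 10 * p 13 - p 10 * p 14 + p 11 * p 12 - p 11 * p 14 - p 12 * p 14 - p 13 *
      p 14 + p 14 * p 14 + p 14 * p 2 - p 14 * p 3 - p 14 * p 6 + 2 * p 14 * p 8 - p 7 * p 8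
  q23 := p 1 * p 14 + p 10 * p 12 - p 10 * p 14 + p 11 * p 13 - p 11 * p 14 - p 12 * p 14 - p 13 *
      p 14 + p 14 * p 14 + p 14 * p 2 - p 14 * p 4 - p 14 * p 5 + 2 * p 14 * p 9 - p 7 * p 9
  t1 := p 10 * p 14 + p 12 * p 14 - p 14 * p 14 - p 14 * p 8
  t2 := p 11 * p 14 + p 12 * p 14 - p 14 * p 7 - p 14 * p 8
  t3 := p 10 * p 14 + p 13 * p 14 - p 14 * p 7 - p 14 * p 8
  t4 := p 11 * p 14 + p 13 * p 14 - p 14 * p 14 - p 14 * p 8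
  t5 := p 14 * p 14

/-- The Catalan relation. -/
def Psi (p : Fin 15 → ℝ) : Prop := p 14 = p 10 + p 11 + p 12 + p 13 - p 7 - p 8 - p 9

/-- Normalisation of a block. -/
def KK (X1 X2 : Fin 5 → ℝ) : ℝ := X1 0 * X2 0 + X2 0 * (X1 2 + X1 3) + X1 0 * (X2 2 + X2 3)

/-- The defect of a pattern vector. -/
def epsX (X : Fin 5 → ℝ) : ℝ := X 0 * X 4 - (X 1 * X 2 + X 2 * X 3 + X 3 * X 1)

/-- Moments of the legs of a piece. -/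
def mom (X : Fin 5 → ℝ) : Mom where
  m1 := X 3
  m2 := X 2
  m11 := X 3 * X 3 + X 0 * X 3 - epsX X
  m12 := X 3 * X 2 + epsX X
  m22 := X 2 * X 2 + X 0 * X 2 - epsX X

theorem Psi_blk (X1 X2 : Fin 5 → ℝ) {p : Fin 15 → ℝ} (hp : Psi p) : Psi (blk X1 X2 p) :=
  L1_psi (p 0) (p 1) (p 2) (p 3) (p 4) (p 5) (p 6) (p 7) (p 8) (p 9) (p 10) (p 11) (p 12) (p 13)
    (p 14) (X1 0) (X1 1) (X1 2) (X1 3) (X1 4) (X2 0) (X2 1) (X2 2) (X2 3) (X2 4)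
    _ _ _ _ _ _ _ _ hp (blk_7 X1 X2 p) (blk_8 X1 X2 p) (blk_9 X1 X2 p) (blk_10 X1 X2 p) (blk_11 X1
        X2 p) (blk_12 X1 X2 p) (blk_13 X1 X2 p) (blk_14 X1 X2 p)

theorem qp_blk_q0 (X1 X2 : Fin 5 → ℝ) {p : Fin 15 → ℝ} (hp : Psi p) :
    (qp (blk X1 X2 p)).q0 = ((qp p).T (KK X1 X2) (mom X2) (mom X1)).q0 :=
  L1_q0 (p 0) (p 1) (p 2) (p 3) (p 4) (p 5) (p 6) (p 7) (p 8) (p 9) (p 10) (p 11) (p 12) (p 13) (p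
      14) (X1 0) (X1 1) (X1 2) (X1 3) (X1 4) (X2 0) (X2 1) (X2 2) (X2 3) (X2 4) _ _ _ _ hp (blk_0
      X1 X2 p) (blk_1 X1 X2 p) (blk_2 X1 X2 p) (blk_7 X1 X2 p)

theorem qp_blk_q1 (X1 X2 : Fin 5 → ℝ) {p : Fin 15 → ℝ} (hp : Psi p) :
    (qp (blk X1 X2 p)).q1 = ((qp p).T (KK X1 X2) (mom X2) (mom X1)).q1 :=
  L1_q1 (p 0) (p 1) (p 2) (p 3) (p 4) (p 5) (p 6) (p 7) (p 8) (p 9) (p 10) (p 11) (p 12) (p 13) (p
      14) (X1 0) (X1 1) (X1 2) (X1 3) (X1 4) (X2 0) (X2 1) (X2 2) (X2 3) (X2 4) _ _ _ _ _ _ _ _ hp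
      (blk_0 X1 X2 p) (blk_1 X1 X2 p) (blk_2 X1 X2 p) (blk_3 X1 X2 p) (blk_7 X1 X2 p) (blk_10 X1
      X2 p) (blk_12 X1 X2 p) (blk_14 X1 X2 p)

theorem qp_blk_q2 (X1 X2 : Fin 5 → ℝ) {p : Fin 15 → ℝ} (hp : Psi p) :
    (qp (blk X1 X2 p)).q2 = ((qp p).T (KK X1 X2) (mom X2) (mom X1)).q2 :=
  L1_q2 (p 0) (p 1) (p 2) (p 3) (p 4) (p 5) (p 6) (p 7) (p 8) (p 9) (p 10) (p 11) (p 12) (p 13) (p
      14) (X1 0) (X1 1) (X1 2) (X1 3) (X1 4) (X2 0) (X2 1) (X2 2) (X2 3) (X2 4) _ _ _ _ _ _ _ _ hp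
      (blk_0 X1 X2 p) (blk_1 X1 X2 p) (blk_2 X1 X2 p) (blk_5 X1 X2 p) (blk_7 X1 X2 p) (blk_10 X1
      X2 p) (blk_13 X1 X2 p) (blk_14 X1 X2 p)

theorem qp_blk_q3 (X1 X2 : Fin 5 → ℝ) {p : Fin 15 → ℝ} (hp : Psi p) :
    (qp (blk X1 X2 p)).q3 = ((qp p).T (KK X1 X2) (mom X2) (mom X1)).q3 :=
  L1_q3 (p 0) (p 1) (p 2) (p 3) (p 4) (p 5) (p 6) (p 7) (p 8) (p 9) (p 10) (p 11) (p 12) (p 13) (p
      14) (X1 0) (X1 1) (X1 2) (X1 3) (X1 4) (X2 0) (X2 1) (X2 2) (X2 3) (X2 4) _ _ _ _ _ _ _ _ hp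
      (blk_0 X1 X2 p) (blk_1 X1 X2 p) (blk_2 X1 X2 p) (blk_4 X1 X2 p) (blk_7 X1 X2 p) (blk_11 X1
      X2 p) (blk_12 X1 X2 p) (blk_14 X1 X2 p)

theorem qp_blk_q4 (X1 X2 : Fin 5 → ℝ) {p : Fin 15 → ℝ} (hp : Psi p) :
    (qp (blk X1 X2 p)).q4 = ((qp p).T (KK X1 X2) (mom X2) (mom X1)).q4 :=
  L1_q4 (p 0) (p 1) (p 2) (p 3) (p 4) (p 5) (p 6) (p 7) (p 8) (p 9) (p 10) (p 11) (p 12) (p 13) (p
      14) (X1 0) (X1 1) (X1 2) (X1 3) (X1 4) (X2 0) (X2 1) (X2 2) (X2 3) (X2 4) _ _ _ _ _ _ _ _ hp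
      (blk_0 X1 X2 p) (blk_1 X1 X2 p) (blk_2 X1 X2 p) (blk_6 X1 X2 p) (blk_7 X1 X2 p) (blk_11 X1
      X2 p) (blk_13 X1 X2 p) (blk_14 X1 X2 p)

theorem qp_blk_q11 (X1 X2 : Fin 5 → ℝ) {p : Fin 15 → ℝ} (hp : Psi p) :
    (qp (blk X1 X2 p)).q11 = ((qp p).T (KK X1 X2) (mom X2) (mom X1)).q11 :=
  L1_q11 (p 0) (p 1) (p 2) (p 3) (p 4) (p 5) (p 6) (p 7) (p 8) (p 9) (p 10) (p 11) (p 12) (p 13)
      (p 14) (X1 0) (X1 1) (X1 2) (X1 3) (X1 4) (X2 0) (X2 1) (X2 2) (X2 3) (X2 4) _ _ _ _ hp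
      (blk_3 X1 X2 p) (blk_10 X1 X2 p) (blk_12 X1 X2 p) (blk_14 X1 X2 p)

theorem qp_blk_q22 (X1 X2 : Fin 5 → ℝ) {p : Fin 15 → ℝ} (hp : Psi p) :
    (qp (blk X1 X2 p)).q22 = ((qp p).T (KK X1 X2) (mom X2) (mom X1)).q22 :=
  L1_q22 (p 0) (p 1) (p 2) (p 3) (p 4) (p 5) (p 6) (p 7) (p 8) (p 9) (p 10) (p 11) (p 12) (p 13)
      (p 14) (X1 0) (X1 1) (X1 2) (X1 3) (X1 4) (X2 0) (X2 1) (X2 2) (X2 3) (X2 4) _ _ _ _ hp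
      (blk_5 X1 X2 p) (blk_10 X1 X2 p) (blk_13 X1 X2 p) (blk_14 X1 X2 p)

theorem qp_blk_q33 (X1 X2 : Fin 5 → ℝ) {p : Fin 15 → ℝ} (hp : Psi p) :
    (qp (blk X1 X2 p)).q33 = ((qp p).T (KK X1 X2) (mom X2) (mom X1)).q33 :=
  L1_q33 (p 0) (p 1) (p 2) (p 3) (p 4) (p 5) (p 6) (p 7) (p 8) (p 9) (p 10) (p 11) (p 12) (p 13)
      (p 14) (X1 0) (X1 1) (X1 2) (X1 3) (X1 4) (X2 0) (X2 1) (X2 2) (X2 3) (X2 4) _ _ _ _ hp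
      (blk_4 X1 X2 p) (blk_11 X1 X2 p) (blk_12 X1 X2 p) (blk_14 X1 X2 p)

theorem qp_blk_q44 (X1 X2 : Fin 5 → ℝ) {p : Fin 15 → ℝ} (hp : Psi p) :
    (qp (blk X1 X2 p)).q44 = ((qp p).T (KK X1 X2) (mom X2) (mom X1)).q44 :=
  L1_q44 (p 0) (p 1) (p 2) (p 3) (p 4) (p 5) (p 6) (p 7) (p 8) (p 9) (p 10) (p 11) (p 12) (p 13)
      (p 14) (X1 0) (X1 1) (X1 2) (X1 3) (X1 4) (X2 0) (X2 1) (X2 2) (X2 3) (X2 4) _ _ _ _ hp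
      (blk_6 X1 X2 p) (blk_11 X1 X2 p) (blk_13 X1 X2 p) (blk_14 X1 X2 p)

theorem qp_blk_q12 (X1 X2 : Fin 5 → ℝ) {p : Fin 15 → ℝ} (hp : Psi p) :
    (qp (blk X1 X2 p)).q12 = ((qp p).T (KK X1 X2) (mom X2) (mom X1)).q12 :=
  L1_q12 (p 0) (p 1) (p 2) (p 3) (p 4) (p 5) (p 6) (p 7) (p 8) (p 9) (p 10) (p 11) (p 12) (p 13)
      (p 14) (X1 0) (X1 1) (X1 2) (X1 3) (X1 4) (X2 0) (X2 1) (X2 2) (X2 3) (X2 4) _ _ _ _ _ _ _ _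
      hp (blk_1 X1 X2 p) (blk_3 X1 X2 p) (blk_5 X1 X2 p) (blk_7 X1 X2 p) (blk_10 X1 X2 p) (blk_12
      X1 X2 p) (blk_13 X1 X2 p) (blk_14 X1 X2 p)

theorem qp_blk_q13 (X1 X2 : Fin 5 → ℝ) {p : Fin 15 → ℝ} (hp : Psi p) :
    (qp (blk X1 X2 p)).q13 = ((qp p).T (KK X1 X2) (mom X2) (mom X1)).q13 :=
  L1_q13 (p 0) (p 1) (p 2) (p 3) (p 4) (p 5) (p 6) (p 7) (p 8) (p 9) (p 10) (p 11) (p 12) (p 13)
      (p 14) (X1 0) (X1 1) (X1 2) (X1 3) (X1 4) (X2 0) (X2 1) (X2 2) (X2 3) (X2 4) _ _ _ _ _ _ _ _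
      hp (blk_2 X1 X2 p) (blk_3 X1 X2 p) (blk_4 X1 X2 p) (blk_7 X1 X2 p) (blk_10 X1 X2 p) (blk_11
      X1 X2 p) (blk_12 X1 X2 p) (blk_14 X1 X2 p)

theorem qp_blk_q24 (X1 X2 : Fin 5 → ℝ) {p : Fin 15 → ℝ} (hp : Psi p) :
    (qp (blk X1 X2 p)).q24 = ((qp p).T (KK X1 X2) (mom X2) (mom X1)).q24 :=
  L1_q24 (p 0) (p 1) (p 2) (p 3) (p 4) (p 5) (p 6) (p 7) (p 8) (p 9) (p 10) (p 11) (p 12) (p 13)
      (p 14) (X1 0) (X1 1) (X1 2) (X1 3) (X1 4) (X2 0) (X2 1) (X2 2) (X2 3) (X2 4) _ _ _ _ _ _ _ _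
      hp (blk_2 X1 X2 p) (blk_5 X1 X2 p) (blk_6 X1 X2 p) (blk_7 X1 X2 p) (blk_10 X1 X2 p) (blk_11
      X1 X2 p) (blk_13 X1 X2 p) (blk_14 X1 X2 p)

theorem qp_blk_q34 (X1 X2 : Fin 5 → ℝ) {p : Fin 15 → ℝ} (hp : Psi p) :
    (qp (blk X1 X2 p)).q34 = ((qp p).T (KK X1 X2) (mom X2) (mom X1)).q34 :=
  L1_q34 (p 0) (p 1) (p 2) (p 3) (p 4) (p 5) (p 6) (p 7) (p 8) (p 9) (p 10) (p 11) (p 12) (p 13)
      (p 14) (X1 0) (X1 1) (X1 2) (X1 3) (X1 4) (X2 0) (X2 1) (X2 2) (X2 3) (X2 4) _ _ _ _ _ _ _ _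
      hp (blk_1 X1 X2 p) (blk_4 X1 X2 p) (blk_6 X1 X2 p) (blk_7 X1 X2 p) (blk_11 X1 X2 p) (blk_12
      X1 X2 p) (blk_13 X1 X2 p) (blk_14 X1 X2 p)

theorem qp_blk_q14 (X1 X2 : Fin 5 → ℝ) {p : Fin 15 → ℝ} (hp : Psi p) :
    (qp (blk X1 X2 p)).q14 = ((qp p).T (KK X1 X2) (mom X2) (mom X1)).q14 :=
  L1_q14 (p 0) (p 1) (p 2) (p 3) (p 4) (p 5) (p 6) (p 7) (p 8) (p 9) (p 10) (p 11) (p 12) (p 13)
      (p 14) (X1 0) (X1 1) (X1 2) (X1 3) (X1 4) (X2 0) (X2 1) (X2 2) (X2 3) (X2 4) _ _ _ _ _ _ _ _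
      _ _ _ hp (blk_1 X1 X2 p) (blk_2 X1 X2 p) (blk_3 X1 X2 p) (blk_6 X1 X2 p) (blk_7 X1 X2 p)
      (blk_8 X1 X2 p) (blk_10 X1 X2 p) (blk_11 X1 X2 p) (blk_12 X1 X2 p) (blk_13 X1 X2 p) (blk_14
      X1 X2 p)

theorem qp_blk_q23 (X1 X2 : Fin 5 → ℝ) {p : Fin 15 → ℝ} (hp : Psi p) :
    (qp (blk X1 X2 p)).q23 = ((qp p).T (KK X1 X2) (mom X2) (mom X1)).q23 :=
  L1_q23 (p 0) (p 1) (p 2) (p 3) (p 4) (p 5) (p 6) (p 7) (p 8) (p 9) (p 10) (p 11) (p 12) (p 13)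
      (p 14) (X1 0) (X1 1) (X1 2) (X1 3) (X1 4) (X2 0) (X2 1) (X2 2) (X2 3) (X2 4) _ _ _ _ _ _ _ _
      _ _ _ hp (blk_1 X1 X2 p) (blk_2 X1 X2 p) (blk_4 X1 X2 p) (blk_5 X1 X2 p) (blk_7 X1 X2 p)
      (blk_9 X1 X2 p) (blk_10 X1 X2 p) (blk_11 X1 X2 p) (blk_12 X1 X2 p) (blk_13 X1 X2 p) (blk_14
      X1 X2 p)

theorem qp_blk_t1 (X1 X2 : Fin 5 → ℝ) {p : Fin 15 → ℝ} (hp : Psi p) :
    (qp (blk X1 X2 p)).t1 = ((qp p).T (KK X1 X2) (mom X2) (mom X1)).t1 :=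
  L1_t1 (p 0) (p 1) (p 2) (p 3) (p 4) (p 5) (p 6) (p 7) (p 8) (p 9) (p 10) (p 11) (p 12) (p 13) (p
      14) (X1 0) (X1 1) (X1 2) (X1 3) (X1 4) (X2 0) (X2 1) (X2 2) (X2 3) (X2 4) _ _ _ _ hp (blk_8
      X1 X2 p) (blk_10 X1 X2 p) (blk_12 X1 X2 p) (blk_14 X1 X2 p)

theorem qp_blk_t2 (X1 X2 : Fin 5 → ℝ) {p : Fin 15 → ℝ} (hp : Psi p) :
    (qp (blk X1 X2 p)).t2 = ((qp p).T (KK X1 X2) (mom X2) (mom X1)).t2 :=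
  L1_t2 (p 0) (p 1) (p 2) (p 3) (p 4) (p 5) (p 6) (p 7) (p 8) (p 9) (p 10) (p 11) (p 12) (p 13) (p
      14) (X1 0) (X1 1) (X1 2) (X1 3) (X1 4) (X2 0) (X2 1) (X2 2) (X2 3) (X2 4) _ _ _ _ _ hp
      (blk_7 X1 X2 p) (blk_8 X1 X2 p) (blk_11 X1 X2 p) (blk_12 X1 X2 p) (blk_14 X1 X2 p)

theorem qp_blk_t3 (X1 X2 : Fin 5 → ℝ) {p : Fin 15 → ℝ} (hp : Psi p) :
    (qp (blk X1 X2 p)).t3 = ((qp p).T (KK X1 X2) (mom X2) (mom X1)).t3 :=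
  L1_t3 (p 0) (p 1) (p 2) (p 3) (p 4) (p 5) (p 6) (p 7) (p 8) (p 9) (p 10) (p 11) (p 12) (p 13) (p
      14) (X1 0) (X1 1) (X1 2) (X1 3) (X1 4) (X2 0) (X2 1) (X2 2) (X2 3) (X2 4) _ _ _ _ _ hp
      (blk_7 X1 X2 p) (blk_8 X1 X2 p) (blk_10 X1 X2 p) (blk_13 X1 X2 p) (blk_14 X1 X2 p)

theorem qp_blk_t4 (X1 X2 : Fin 5 → ℝ) {p : Fin 15 → ℝ} (hp : Psi p) :
    (qp (blk X1 X2 p)).t4 = ((qp p).T (KK X1 X2) (mom X2) (mom X1)).t4 :=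
  L1_t4 (p 0) (p 1) (p 2) (p 3) (p 4) (p 5) (p 6) (p 7) (p 8) (p 9) (p 10) (p 11) (p 12) (p 13) (p
      14) (X1 0) (X1 1) (X1 2) (X1 3) (X1 4) (X2 0) (X2 1) (X2 2) (X2 3) (X2 4) _ _ _ _ hp (blk_8
      X1 X2 p) (blk_11 X1 X2 p) (blk_13 X1 X2 p) (blk_14 X1 X2 p)

theorem qp_blk_t5 (X1 X2 : Fin 5 → ℝ) {p : Fin 15 → ℝ} (hp : Psi p) :
    (qp (blk X1 X2 p)).t5 = ((qp p).T (KK X1 X2) (mom X2) (mom X1)).t5 :=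
  L1_t5 (p 0) (p 1) (p 2) (p 3) (p 4) (p 5) (p 6) (p 7) (p 8) (p 9) (p 10) (p 11) (p 12) (p 13) (p
      14) (X1 0) (X1 1) (X1 2) (X1 3) (X1 4) (X2 0) (X2 1) (X2 2) (X2 3) (X2 4) _ hp (blk_14 X1 X2
      p)

theorem qp_blk (X1 X2 : Fin 5 → ℝ) {p : Fin 15 → ℝ} (hp : Psi p) (r1 r2 r3 r4 : ℝ) :
    (qp (blk X1 X2 p)).F r1 r2 r3 r4 =
      ((qp p).T (KK X1 X2) (mom X2) (mom X1)).F r1 r2 r3 r4 := by
  unfold Q20.F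
  rw [qp_blk_q0 X1 X2 hp,
    qp_blk_q1 X1 X2 hp,
    qp_blk_q2 X1 X2 hp,
    qp_blk_q3 X1 X2 hp,
    qp_blk_q4 X1 X2 hp,
    qp_blk_q11 X1 X2 hp,
    qp_blk_q22 X1 X2 hp,
    qp_blk_q33 X1 X2 hp,
    qp_blk_q44 X1 X2 hp,
    qp_blk_q12 X1 X2 hp,
    qp_blk_q13 X1 X2 hp,
    qp_blk_q24 X1 X2 hp,
    qp_blk_q34 X1 X2 hp,
    qp_blk_q14 X1 X2 hp,
    qp_blk_q23 X1 X2 hp,
    qp_blk_t1 X1 X2 hp,
    qp_blk_t2 X1 X2 hp,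
    qp_blk_t3 X1 X2 hp,
    qp_blk_t4 X1 X2 hp,
    qp_blk_t5 X1 X2 hp]

/-- A pattern vector of a piece. -/
def Piece (X : Fin 5 → ℝ) : Prop :=
  (0 ≤ X 0 ∧ 0 ≤ X 1 ∧ 0 ≤ X 2 ∧ 0 ≤ X 3 ∧ 0 ≤ X 4) ∧ epsX X ≤ X 0 * X 3 ∧ epsX X ≤ X 0 * X 2 ∧
    epsX X * (X 2 + X 3) ≤ X 0 * X 2 * X 3

lemma mom_PSD {X : Fin 5 → ℝ} (h : Piece X) : (mom X).PSD := by
  obtain ⟨⟨h0, h1, h2, h3, h4⟩, h5, h6, h7⟩ := h
  refine ⟨?_, ?_, ?_⟩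
  · simp only [mom]
    linarith
  · simp only [mom]
    linarith
  · simp only [mom]
    nlinarith [mul_le_mul_of_nonneg_left h7 h0]

/-- The main step: positivity of the form is preserved. -/
theorem blk_nonneg {X1 X2 : Fin 5 → ℝ} (h1 : Piece X1) (h2 : Piece X2) (hK : 0 < KK X1 X2)
    {p : Fin 15 → ℝ} (hp : Psi p) (H : ∀ r1 r2 r3 r4, 0 ≤ (qp p).F r1 r2 r3 r4) :
    Psi (blk X1 X2 p) ∧ ∀ r1 r2 r3 r4, 0 ≤ (qp (blk X1 X2 p)).F r1 r2 r3 r4 := by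
  refine ⟨Psi_blk X1 X2 hp, fun r1 r2 r3 r4 => ?_⟩
  rw [qp_blk X1 X2 hp]
  exact (qp p).T_nonneg hK (mom_PSD h2) (mom_PSD h1) H r1 r2 r3 r4

/-- The starting vector. -/
lemma ones_nonneg (r1 r2 r3 r4 : ℝ) : 0 ≤ (qp fun _ => 1).F r1 r2 r3 r4 := by
  have : (qp fun _ => 1).F r1 r2 r3 r4 = (r1 * r4 - r2 * r3) ^ 2 := by
    simp only [Q20.F, qp]
    ring
  rw [this]
  exact sq_nonneg _

lemma ones_psi : Psi fun _ => 1 := by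
  unfold Psi
  norm_num

end Pool.Agent.CL
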