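import Pool.Agent.Lib.MP_d90615_co.CL.Step

/-!
Graphs built from blocks with a cut vertex, and the Rayleigh inequality for them.
-/

namespace Pool.Agent.CL

open Finset Pool.Agent.Lib.MP_d90615_co
open scoped Classical

variable {V E : Type*}

/-- Edge sets built from blocks: every block `K` is attached to the rest at `a, b, c, d` only and
consists of a piece `D1` at `a, b, x` and a piece `D2` at `c, d, x`, where `x` is a vertex of the
block; or it is one piece at three of the four vertices. -/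
inductive Built (ends : E → Sym2 V) (a b c d : V) : Finset E → Prop
  | nil : Built ends a b c d ∅
  | abc (D1 D : Finset E) (hd : Disjoint D1 D)
      (h1 : ∀ v, Touch ends D1 v → (v = a ∨ v = b ∨ v = c ∨ v = d ∨ Touch ends D v) →
        v = a ∨ v = b ∨ v = c) (hD : Built ends a b c d D) : Built ends a b c d (D1 ∪ D)
  | abd (D1 D : Finset E) (hd : Disjoint D1 D)
      (h1 : ∀ v, Touch ends D1 v → (v = a ∨ v = b ∨ v = c ∨ v = d ∨ Touch ends D v) →
        v = a ∨ v = b ∨ v = d) (hD : Built ends a b c d D) : Built ends a b c d (D1 ∪ D)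
  | cda (D1 D : Finset E) (hd : Disjoint D1 D)
      (h1 : ∀ v, Touch ends D1 v → (v = a ∨ v = b ∨ v = c ∨ v = d ∨ Touch ends D v) →
        v = c ∨ v = d ∨ v = a) (hD : Built ends a b c d D) : Built ends a b c d (D1 ∪ D)
  | cdb (D1 D : Finset E) (hd : Disjoint D1 D)
      (h1 : ∀ v, Touch ends D1 v → (v = a ∨ v = b ∨ v = c ∨ v = d ∨ Touch ends D v) →
        v = c ∨ v = d ∨ v = b) (hD : Built ends a b c d D) : Built ends a b c d (D1 ∪ D)
  | cut (x : V) (D1 D2 D : Finset E) (hx : x ≠ a ∧ x ≠ b ∧ x ≠ c ∧ x ≠ d)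
      (hd1 : Disjoint D1 (D2 ∪ D)) (hd2 : Disjoint D2 D)
      (h1 : ∀ v, Touch ends D1 v →
        (v = a ∨ v = b ∨ v = c ∨ v = d ∨ v = x ∨ Touch ends (D2 ∪ D) v) → v = a ∨ v = b ∨ v = x)
      (h2 : ∀ v, Touch ends D2 v →
        (v = a ∨ v = b ∨ v = c ∨ v = d ∨ v = x ∨ Touch ends D v) → v = c ∨ v = d ∨ v = x)
      (h3 : ¬ Touch ends D x) (hD : Built ends a b c d D) : Built ends a b c d (D1 ∪ (D2 ∪ D))

/-- The four terminals. -/
def t4 (a b c d : V) : Fin 4 → V := ![a, b, c, d]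

/-- The five terminals. -/
def t5 (a b c d x : V) : Fin 5 → V := ![a, b, c, d, x]

lemma t4_inj {a b c d : V} (hab : a ≠ b) (hac : a ≠ c) (had : a ≠ d) (hbc : b ≠ c) (hbd : b ≠ d)
    (hcd : c ≠ d) : Function.Injective (t4 a b c d) := by
  intro i j h
  fin_cases i <;> fin_cases j <;> simp [t4] at h ⊢ <;> simp_all

lemma t5_inj {a b c d x : V} (hab : a ≠ b) (hac : a ≠ c) (had : a ≠ d) (hbc : b ≠ c) (hbd : b ≠ d)
    (hcd : c ≠ d) (hxa : x ≠ a) (hxb : x ≠ b) (hxc : x ≠ c) (hxd : x ≠ d) :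
    Function.Injective (t5 a b c d x) := by
  intro i j h
  fin_cases i <;> fin_cases j <;> simp [t5] at h ⊢ <;> simp_all

lemma X_nn {ends : E → Sym2 V} {w : E → ℝ} (hw : ∀ e, 0 ≤ w e) (D : Finset E) (a b x : V)
    (i : Fin 5) : 0 ≤ X ends w D a b x i :=
  Finset.sum_nonneg fun _ _ => Finset.prod_nonneg fun _ _ => hw _

lemma X_zero_pos {ends : E → Sym2 V} {w : E → ℝ} (hw : ∀ e, 0 ≤ w e) (D : Finset E) {a b x : V}
    (hab : a ≠ b) (hbx : b ≠ x) (hax : a ≠ x) : 0 < X ends w D a b x 0 := by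
  refine lt_of_lt_of_le one_pos ?_
  have h0 : (∅ : Finset E) ∈ D.powerset.filter fun A =>
      Forest ends A ∧ pat (Conn ends A) a b x 0 := by
    rw [mem_filter]
    refine ⟨empty_mem_powerset _, forest_empty, ?_⟩
    show ¬ Conn ends ∅ a b ∧ ¬ Conn ends ∅ b x ∧ ¬ Conn ends ∅ a x
    rw [conn_empty, conn_empty, conn_empty]
    exact ⟨hab, hbx, hax⟩
  have h1 := Finset.single_le_sum (f := fun F : Finset E => ∏ g ∈ F, w g)
    (fun F _ => Finset.prod_nonneg fun g _ => hw g) h0
  simpa [X] using h1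

/-- The pattern vector of a vertex `x` identified with the first vertex. -/
def eFst : Fin 5 → ℝ := ![0, 0, 0, 1, 0]

/-- The pattern vector of a vertex `x` identified with the second vertex. -/
def eSnd : Fin 5 → ℝ := ![0, 0, 1, 0, 0]

lemma eFst_piece : Piece eFst := by
  simp [Piece, eFst, epsX]

lemma eSnd_piece : Piece eSnd := by
  simp [Piece, eSnd, epsX]

lemma blk_eFst_right (X1 : Fin 5 → ℝ) (p : Fin 15 → ℝ) (k : Fin 15) :
    blk X1 eFst p k = ∑ i : Fin 5, X1 i * vO p (Ttab k i 3) := by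
  unfold blk
  refine Finset.sum_congr rfl fun i _ => ?_
  rw [Fin.sum_univ_five]
  simp [eFst]

lemma blk_eSnd_right (X1 : Fin 5 → ℝ) (p : Fin 15 → ℝ) (k : Fin 15) :
    blk X1 eSnd p k = ∑ i : Fin 5, X1 i * vO p (Ttab k i 2) := by
  unfold blk
  refine Finset.sum_congr rfl fun i _ => ?_
  rw [Fin.sum_univ_five]
  simp [eSnd]

lemma blk_eFst_left (X2 : Fin 5 → ℝ) (p : Fin 15 → ℝ) (k : Fin 15) :
    blk eFst X2 p k = ∑ j : Fin 5, X2 j * vO p (Ttab k 3 j) := by
  unfold blk
  rw [Fin.sum_univ_five]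
  simp [eFst]

lemma blk_eSnd_left (X2 : Fin 5 → ℝ) (p : Fin 15 → ℝ) (k : Fin 15) :
    blk eSnd X2 p k = ∑ j : Fin 5, X2 j * vO p (Ttab k 2 j) := by
  unfold blk
  rw [Fin.sum_univ_five]
  simp [eSnd]

/-- What is preserved. -/
def Good (p : Fin 15 → ℝ) : Prop := Psi p ∧ ∀ r1 r2 r3 r4, 0 ≤ (qp p).F r1 r2 r3 r4

/-- The Rayleigh form of a built graph is nonnegative. -/
theorem Built.good {ends : E → Sym2 V} {w : E → ℝ} (hw : ∀ e, 0 ≤ w e) {a b c d : V}
    (hab : a ≠ b) (hac : a ≠ c) (had : a ≠ d) (hbc : b ≠ c) (hbd : b ≠ d) (hcd : c ≠ d)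
    (hP : ∀ (D : Finset E) (u v x : V), u ≠ v → v ≠ x → u ≠ x → Piece (X ends w D u v x))
    {D : Finset E} (h : Built ends a b c d D) : Good (Pv ends w (t4 a b c d) D) := by
  have hinj := t4_inj hab hac had hbc hbd hcd
  have conv : ∀ {D : Finset E} {v : V}, ((∃ i, v = t4 a b c d i) ∨ Touch ends D v) →
      (v = a ∨ v = b ∨ v = c ∨ v = d ∨ Touch ends D v) := by
    rintro D v (⟨i, rfl⟩ | h)
    · fin_cases i <;> simp [t4]
    · tauto
  induction h with
  | nil =>
    rw [Pv_empty ends w hinj]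
    exact ⟨ones_psi, ones_nonneg⟩
  | abc D1 D hd h1 _ ih =>
    have e : Pv ends w (t4 a b c d) (D1 ∪ D) =
        blk (X ends w D1 a b c) eFst (Pv ends w (t4 a b c d) D) := by
      funext k
      rw [blk_eFst_right]
      exact step_face w hinj (p := 0) (q := 1) (z := 2) (by decide) (by decide) (by decide) hd
        (fun v hv hv' => h1 v hv (conv hv')) (fun k i => Ttab k i 3) chk_c k
    rw [e]
    refine blk_nonneg (hP _ _ _ _ hab hbc hac) eFst_piece ?_ ih.1 ih.2
    have := X_zero_pos (ends := ends) hw D1 hab hbc hac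
    simp only [KK, eFst, Matrix.cons_val]
    linarith
  | abd D1 D hd h1 _ ih =>
    have e : Pv ends w (t4 a b c d) (D1 ∪ D) =
        blk (X ends w D1 a b d) eSnd (Pv ends w (t4 a b c d) D) := by
      funext k
      rw [blk_eSnd_right]
      exact step_face w hinj (p := 0) (q := 1) (z := 3) (by decide) (by decide) (by decide) hd
        (fun v hv hv' => h1 v hv (conv hv')) (fun k i => Ttab k i 2) chk_d k
    rw [e]
    refine blk_nonneg (hP _ _ _ _ hab hbd had) eSnd_piece ?_ ih.1 ih.2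
    have := X_zero_pos (ends := ends) hw D1 hab hbd had
    simp only [KK, eSnd, Matrix.cons_val]
    linarith
  | cda D1 D hd h1 _ ih =>
    have e : Pv ends w (t4 a b c d) (D1 ∪ D) =
        blk eFst (X ends w D1 c d a) (Pv ends w (t4 a b c d) D) := by
      funext k
      rw [blk_eFst_left]
      exact step_face w hinj (p := 2) (q := 3) (z := 0) (by decide) (by decide) (by decide) hd
        (fun v hv hv' => h1 v hv (conv hv')) (fun k j => Ttab k 3 j) chk_a k
    rw [e]
    refine blk_nonneg eFst_piece (hP _ _ _ _ hcd had.symm hac.symm) ?_ ih.1 ih.2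
    have := X_zero_pos (ends := ends) hw D1 hcd had.symm hac.symm
    simp only [KK, eFst, Matrix.cons_val]
    linarith
  | cdb D1 D hd h1 _ ih =>
    have e : Pv ends w (t4 a b c d) (D1 ∪ D) =
        blk eSnd (X ends w D1 c d b) (Pv ends w (t4 a b c d) D) := by
      funext k
      rw [blk_eSnd_left]
      exact step_face w hinj (p := 2) (q := 3) (z := 1) (by decide) (by decide) (by decide) hd
        (fun v hv hv' => h1 v hv (conv hv')) (fun k j => Ttab k 2 j) chk_b k
    rw [e]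
    refine blk_nonneg eSnd_piece (hP _ _ _ _ hcd hbd.symm hbc.symm) ?_ ih.1 ih.2
    have := X_zero_pos (ends := ends) hw D1 hcd hbd.symm hbc.symm
    simp only [KK, eSnd, Matrix.cons_val]
    linarith
  | cut x D1 D2 D hx hd1 hd2 h1 h2 h3 _ ih =>
    obtain ⟨hxa, hxb, hxc, hxd⟩ := hx
    have hinj5 := t5_inj hab hac had hbc hbd hcd hxa hxb hxc hxd
    have conv5 : ∀ {D : Finset E} {v : V}, ((∃ i, v = t5 a b c d x i) ∨ Touch ends D v) →
        (v = a ∨ v = b ∨ v = c ∨ v = d ∨ v = x ∨ Touch ends D v) := by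
      rintro D v (⟨i, rfl⟩ | h)
      · fin_cases i <;> simp [t5]
      · tauto
    have e45 : (fun i : Fin 4 => t5 a b c d x i.castSucc) = t4 a b c d := by
      funext i
      fin_cases i <;> rfl
    have e := step_cut (ends := ends) w hinj5 hd1 hd2 (fun v hv hv' => h1 v hv (conv5 hv'))
      (fun v hv hv' => h2 v hv (conv5 hv')) h3
    rw [e45] at e
    rw [e]
    refine blk_nonneg (hP _ _ _ _ hab hxb.symm hxa.symm) (hP _ _ _ _ hcd hxd.symm hxc.symm) ?_
      ih.1 ih.2
    have p1 := X_zero_pos (ends := ends) hw D1 hab hxb.symm hxa.symm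
    have p2 := X_zero_pos (ends := ends) hw D2 hcd hxd.symm hxc.symm
    have n1 := X_nn (ends := ends) hw D1 a b x 2
    have n2 := X_nn (ends := ends) hw D1 a b x 3
    have n3 := X_nn (ends := ends) hw D2 c d x 2
    have n4 := X_nn (ends := ends) hw D2 c d x 3
    show 0 < KK (X ends w D1 a b x) (X ends w D2 c d x)
    unfold KK
    positivity

/-- Rayleigh inequality for built graphs. -/
theorem Built.ray {ends : E → Sym2 V} {w : E → ℝ} (hw : ∀ e, 0 ≤ w e) {a b c d : V}
    (hab : a ≠ b) (hac : a ≠ c) (had : a ≠ d) (hbc : b ≠ c) (hbd : b ≠ d) (hcd : c ≠ d)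
    (hP : ∀ (D : Finset E) (u v x : V), u ≠ v → v ≠ x → u ≠ x → Piece (X ends w D u v x))
    {D : Finset E} (h : Built ends a b c d D) :
    P ends w D [] * P ends w D [(a, b), (c, d)] ≤
      P ends w D [(a, b)] * P ends w D [(c, d)] := by
  have := (h.good hw hab hac had hbc hbd hcd hP).2 0 0 0 0
  have e : (qp (Pv ends w (t4 a b c d) D)).F 0 0 0 0 =
      P ends w D [(a, b)] * P ends w D [(c, d)] -
        P ends w D [] * P ends w D [(a, b), (c, d)] := by
    have e0 : (qp (Pv ends w (t4 a b c d) D)).F 0 0 0 0 =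
        (qp (Pv ends w (t4 a b c d) D)).q0 := by
      unfold Q20.F
      ring
    rw [e0]
    show (-P ends w D [] * P ends w D [(a, b), (c, d)] +
      P ends w D [(a, b)] * P ends w D [(c, d)]) = _
    ring
  linarith

end Pool.Agent.CL
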