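import Pool.Agent.Lib.MP_d90615_co.Mg.G027

/-!
Evaluation of forest sums with virtual links between at most five terminals.
-/

namespace Pool.Agent.CL

open Finset Pool.Agent.Lib.MP_d90615_co
open scoped Classical

variable {V E : Type*}

section code

variable {n : ℕ}

/-- Merge the classes of `i` and `j`. -/
def mrg (φ : Fin n → Fin n) (i j : Fin n) : Fin n → Fin n :=
  fun k => if φ k = φ j then φ i else φ k

/-- The class map of a list of links. -/
def code : List (Fin n × Fin n) → Fin n → Fin n
  | [] => id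
  | q :: l => mrg (code l) q.1 q.2

/-- The links form a forest. -/
def okk : List (Fin n × Fin n) → Bool
  | [] => true
  | q :: l => okk l && decide (code l q.1 ≠ code l q.2)

/-- Links on `V`. -/
def tt (t : Fin n → V) (q : Fin n × Fin n) : V × V := (t q.1, t q.2)

/-- The relation on `V` given by a class map on the terminals. -/
def S (t : Fin n → V) (φ : Fin n → Fin n) (u v : V) : Prop :=
  u = v ∨ ∃ i j, u = t i ∧ v = t j ∧ φ i = φ j

variable {t : Fin n → V}

lemma S_tt (ht : Function.Injective t) (φ : Fin n → Fin n) (i j : Fin n) :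
    S t φ (t i) (t j) ↔ φ i = φ j := by
  constructor
  · rintro (h | ⟨p, q, h1, h2, h3⟩)
    · rw [ht h]
    · rw [ht h1, ht h2, h3]
  · intro h
    exact Or.inr ⟨i, j, rfl, rfl, h⟩

lemma S_equiv (ht : Function.Injective t) (φ : Fin n → Fin n) : Equivalence (S t φ) := by
  refine ⟨fun u => Or.inl rfl, ?_, ?_⟩
  · rintro u v (h | ⟨p, q, h1, h2, h3⟩)
    · exact Or.inl h.symm
    · exact Or.inr ⟨q, p, h2, h1, h3.symm⟩
  · rintro u v z (h | ⟨p, q, h1, h2, h3⟩) (h' | ⟨p', q', h1', h2', h3'⟩)
    · exact Or.inl (h.trans h')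
    · subst h
      exact Or.inr ⟨p', q', h1', h2', h3'⟩
    · subst h'
      exact Or.inr ⟨p, q, h1, h2, h3⟩
    · have : q = p' := ht (h2.symm.trans h1')
      subst this
      exact Or.inr ⟨p, q', h1, h2', h3.trans h3'⟩

lemma Ins_S (ht : Function.Injective t) (φ : Fin n → Fin n) (i j : Fin n) :
    Ins (S t φ) (t i) (t j) = S t (mrg φ i j) := by
  funext u v
  apply propext
  constructor
  · have hle : ∀ x y, S t φ x y → S t (mrg φ i j) x y := by
      rintro x y (h | ⟨p, q, h1, h2, h3⟩)
      · exact Or.inl h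
      · refine Or.inr ⟨p, q, h1, h2, ?_⟩
        simp only [mrg, h3]
    have hij : S t (mrg φ i j) (t i) (t j) := by
      refine Or.inr ⟨i, j, rfl, rfl, ?_⟩
      simp only [mrg]
      split_ifs <;> simp_all
    have hS := S_equiv ht (mrg φ i j)
    rintro (h | ⟨h1, h2⟩ | ⟨h1, h2⟩)
    · exact hle _ _ h
    · exact hS.trans (hS.trans (hle _ _ h1) hij) (hle _ _ h2)
    · exact hS.trans (hS.trans (hle _ _ h1) (hS.symm hij)) (hle _ _ h2)
  · rintro (h | ⟨p, q, rfl, rfl, h3⟩)
    · exact Or.inl (Or.inl h)
    · unfold Ins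
      simp only [S_tt ht]
      simp only [mrg] at h3
      split_ifs at h3 with h4 h5 h5
      · exact Or.inl (h4.trans h5.symm)
      · exact Or.inr (Or.inr ⟨h4, h3⟩)
      · exact Or.inr (Or.inl ⟨h3, h5.symm⟩)
      · exact Or.inl h3

lemma S_id : S t id = (fun u v => u = v) := by
  funext u v
  apply propext
  constructor
  · rintro (h | ⟨p, q, h1, h2, h3⟩)
    · exact h
    · rw [h1, h2]
      exact congrArg t h3
  · exact Or.inl

lemma rel_code (ends : E → Sym2 V) (ht : Function.Injective t) (l : List (Fin n × Fin n)) :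
    rel ends ∅ (l.map (tt t)) = S t (code l) := by
  induction l with
  | nil =>
    funext u v
    rw [code, S_id]
    exact propext conn_empty
  | cons q l ih =>
    show Ins (rel ends ∅ (l.map (tt t))) (t q.1) (t q.2) = S t (mrg (code l) q.1 q.2)
    rw [ih, Ins_S ht]

lemma good_code (ends : E → Sym2 V) (ht : Function.Injective t) (l : List (Fin n × Fin n)) :
    good ends ∅ (l.map (tt t)) ↔ okk l = true := by
  induction l with
  | nil => exact ⟨fun _ => rfl, fun _ => forest_empty⟩
  | cons q l ih =>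
    show good ends ∅ (l.map (tt t)) ∧ ¬ rel ends ∅ (l.map (tt t)) (t q.1) (t q.2) ↔
      (okk l && decide (code l q.1 ≠ code l q.2)) = true
    rw [ih, rel_code ends ht, S_tt ht, Bool.and_eq_true, decide_eq_true_eq]

end code

lemma rel_mono {ends : E → Sym2 V} {F : Finset E} (L : List (V × V)) {u v : V}
    (h : rel ends ∅ L u v) : rel ends F L u v := by
  refine rel_le (rel_equiv ends F L) (fun p q hpq => ?_) (fun q hq => ?_) u v h
  · rw [conn_empty] at hpq
    subst hpq
    exact (rel_equiv ends F L).refl _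
  · clear h
    induction L with
    | nil => simp at hq
    | cons r L ih =>
      rcases List.mem_cons.mp hq with rfl | hq
      · exact Or.inr (Or.inl ⟨(rel_equiv ends F L).refl _, (rel_equiv ends F L).refl _⟩)
      · exact Or.inl (ih hq)

lemma good_empty {ends : E → Sym2 V} {F : Finset E} {L : List (V × V)} (h : good ends F L) :
    good ends ∅ L := by
  induction L with
  | nil => exact forest_empty
  | cons q L ih => exact ⟨ih h.1, fun h' => h.2 (rel_mono L h')⟩

lemma P_zero {ends : E → Sym2 V} (w : E → ℝ) (D : Finset E) {L : List (V × V)}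
    (h : ¬ good ends ∅ L) : P ends w D L = 0 := by
  rw [P, Finset.filter_false_of_mem, Finset.sum_empty]
  intro F _ hF
  exact h (good_empty hF)

lemma P_congr {ends : E → Sym2 V} (w : E → ℝ) {D : Finset E} (out : V → Prop)
    (hD : ∀ e ∈ D, ∀ v ∈ ends e, out v) {L L' : List (V × V)}
    (h1 : ∀ u v, out u → out v → (rel ends ∅ L u v ↔ rel ends ∅ L' u v))
    (h2 : good ends ∅ L ↔ good ends ∅ L') : P ends w D L = P ends w D L' := by
  rw [P, P]
  refine Finset.sum_congr (Finset.filter_congr fun F hF => ?_) fun _ _ => rfl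
  rw [mem_powerset] at hF
  have := (eqv out h1 h2 F (fun e he => hD e (hF he)) (Finset.disjoint_empty_left F)
    (Finset.disjoint_empty_left F)).2
  rwa [Finset.empty_union] at this

/-- Fifteen lists of links that represent the partitions of four terminals. -/
def Lc : Fin 15 → List (Fin 4 × Fin 4)
  | 0 => []
  | 1 => [(0, 1)]
  | 2 => [(2, 3)]
  | 3 => [(0, 2)]
  | 4 => [(0, 3)]
  | 5 => [(1, 2)]
  | 6 => [(1, 3)]
  | 7 => [(0, 1), (2, 3)]
  | 8 => [(0, 2), (1, 3)]
  | 9 => [(0, 3), (1, 2)]
  | 10 => [(0, 1), (1, 2)]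
  | 11 => [(0, 1), (1, 3)]
  | 12 => [(0, 2), (2, 3)]
  | 13 => [(1, 2), (2, 3)]
  | 14 => [(0, 1), (1, 2), (2, 3)]

/-- The links `l` form a forest and induce the partition with index `m` on the four terminals. -/
def chk {n : ℕ} (ι : Fin 4 → Fin n) (l : List (Fin n × Fin n)) : Option (Fin 15) → Bool
  | none => !okk l
  | some k => okk l &&
      decide (∀ i j : Fin 4, code l (ι i) = code l (ι j) ↔ code (Lc k) i = code (Lc k) j)

/-- The fifteen forest sums with canonical links. -/
noncomputable def Pv (ends : E → Sym2 V) (w : E → ℝ) (t : Fin 4 → V) (D : Finset E)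
    (k : Fin 15) : ℝ :=
  P ends w D ((Lc k).map (tt t))

/-- The same with the value `0` at `none`. -/
noncomputable def PvO (ends : E → Sym2 V) (w : E → ℝ) (t : Fin 4 → V) (D : Finset E) :
    Option (Fin 15) → ℝ
  | none => 0
  | some k => Pv ends w t D k

lemma okk_Lc : ∀ k, okk (Lc k) = true := by decide

theorem P_eval {n : ℕ} {ends : E → Sym2 V} (w : E → ℝ) {D : Finset E} (out : V → Prop)
    (hD : ∀ e ∈ D, ∀ v ∈ ends e, out v) {t : Fin n → V} (ht : Function.Injective t)
    {t4 : Fin 4 → V} (ht4 : Function.Injective t4) (ι : Fin 4 → Fin n) (hι : ∀ i, t (ι i) = t4 i)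
    (ho : ∀ i, out (t i) → ∃ j, i = ι j) (l : List (Fin n × Fin n)) (m : Option (Fin 15))
    (hm : chk ι l m = true) :
    P ends w D (l.map (tt t)) = PvO ends w t4 D m := by
  cases m with
  | none =>
    refine P_zero w D fun hg => ?_
    rw [good_code ends ht] at hg
    simp [chk, hg] at hm
  | some k =>
    rw [chk, Bool.and_eq_true, decide_eq_true_eq] at hm
    obtain ⟨h, hk'⟩ := hm
    show _ = P ends w D ((Lc k).map (tt t4))
    refine P_congr w out hD ?_ ?_
    · intro u v hu hv
      rw [rel_code ends ht, rel_code ends ht4]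
      constructor
      · rintro (h | ⟨p, q, rfl, rfl, h3⟩)
        · exact Or.inl h
        · obtain ⟨p', rfl⟩ := ho p hu
          obtain ⟨q', rfl⟩ := ho q hv
          exact Or.inr ⟨p', q', hι p', hι q', (hk' p' q').mp h3⟩
      · rintro (h | ⟨p, q, rfl, rfl, h3⟩)
        · exact Or.inl h
        · exact Or.inr ⟨ι p, ι q, (hι p).symm, (hι q).symm, (hk' p q).mpr h3⟩
    · rw [good_code ends ht, good_code ends ht4]
      simp [h, okk_Lc]

end Pool.Agent.CL
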