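import Mathlib
import Pool.Agent.Lib.MP_d90615_co.Mg.G028

/-!
The weighted three terminal inequality and the weighted three point inequality.
-/

set_option autoImplicit false
set_option linter.unusedSectionVars false

namespace Pool.Agent.Lib.MP_d90615_co

open Matrix Finset
open scoped Classical

variable {V E : Type*}

lemma lin_sum_w {ι : Type*} (s : Finset ι) (p A B C G0 G1 G2 G3 : ι → ℝ) (t0 x y w : ℝ) :
    ∑ i ∈ s, p i * (A i + B i * t0 + C i * x
      + (G0 i + y * G1 i + w * G2 i + y * w * G3 i) * (t0 * x)) =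
    (∑ i ∈ s, p i * A i) + (∑ i ∈ s, p i * B i) * t0 + (∑ i ∈ s, p i * C i) * x
      + ((∑ i ∈ s, p i * G0 i) + y * (∑ i ∈ s, p i * G1 i) + w * (∑ i ∈ s, p i * G2 i)
        + y * w * (∑ i ∈ s, p i * G3 i)) * (t0 * x) := by
  induction s using Finset.induction_on with
  | empty => simp
  | insert a s ha ih =>
    rw [Finset.sum_insert ha, Finset.sum_insert ha, Finset.sum_insert ha, Finset.sum_insert ha,
      Finset.sum_insert ha, Finset.sum_insert ha, Finset.sum_insert ha, Finset.sum_insert ha, ih]
    ring

/-- The quadratic form of the pinned weighted forest sum. -/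
noncomputable def prw (ends : E → Sym2 V) (w : E → ℝ) (S : Finset E) (a b c : V) (r : ℝ) : ℝ :=
  (wN ends w S - w2 ends w S c a) + r ^ 2 * (wN ends w S - w2 ends w S b c)
    + 2 * r * (w2 ends w S a b - w3 ends w S a b c)

lemma prw_eq (ends : E → Sym2 V) (w : E → ℝ) (S : Finset E) (a b c : V) (r : ℝ) :
    prw ends w S a b c r = sw ends w S (fun F =>
      ((1 - ind (Conn ends F c a)) + r ^ 2 * (1 - ind (Conn ends F b c))
        + 2 * r * (ind (Conn ends F a b) - ind (Conn ends F a b) * ind (Conn ends F b c)))) := by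
  simp only [prw, wN, w2, w3, sw, Finset.mul_sum, ← Finset.sum_sub_distrib,
    ← Finset.sum_add_distrib]
  exact Finset.sum_congr rfl fun F _ => by ring

lemma prw_glue (ends : E → Sym2 V) (w : E → ℝ) (S : Finset E) {a b c v : V} (hcv : c ≠ v) (ha : a ≠ v)
    (hb : b ≠ v) (r : ℝ) :
    prw (gends ends c v) w S a b c r = sw ends w S (fun F =>
      ((1 + 2 * ind (Conn ends F c a) * ind (Conn ends F c v) * ind (Conn ends F a v)
          - ind (Conn ends F c a) ^ 2 - ind (Conn ends F c v) ^ 2 - ind (Conn ends F a v) ^ 2)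
        + r ^ 2 * (1 + 2 * ind (Conn ends F c b) * ind (Conn ends F c v) * ind (Conn ends F b v)
          - ind (Conn ends F c b) ^ 2 - ind (Conn ends F c v) ^ 2 - ind (Conn ends F b v) ^ 2)
        + 2 * r * (ind (Conn ends F a b) * (1 - ind (Conn ends F c v) ^ 2)
          - ind (Conn ends F c a) * ind (Conn ends F c b)
          - ind (Conn ends F a v) * ind (Conn ends F b v)
          + ind (Conn ends F c v) * (ind (Conn ends F c a) * ind (Conn ends F b v)
            + ind (Conn ends F c b) * ind (Conn ends F a v))))) := by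
  rw [prw_eq, sw_glue ends w S hcv]
  refine sw_congr fun F => ?_
  have e1 := glue_ind ends F (c := c) hcv ha
  have e2 := glue_ind ends F (c := c) hb hcv
  have e3 := glue_ind ends F (c := c) ha hb
  have h0 : (1 - ind (Conn ends F c v)) * ((1 - ind (Conn (gends ends c v) F c a))
        + r ^ 2 * (1 - ind (Conn (gends ends c v) F b c))
        + 2 * r * (ind (Conn (gends ends c v) F a b)
          - ind (Conn (gends ends c v) F a b) * ind (Conn (gends ends c v) F b c))) =
      (1 - ind (Conn ends F c v)) - (1 - ind (Conn ends F c v)) * ind (Conn (gends ends c v) F c a)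
      + r ^ 2 * ((1 - ind (Conn ends F c v))
        - (1 - ind (Conn ends F c v)) * ind (Conn (gends ends c v) F b c))
      + 2 * r * ((1 - ind (Conn ends F c v)) * ind (Conn (gends ends c v) F a b)
        - (1 - ind (Conn ends F c v)) * ind (Conn (gends ends c v) F a b)
          * ind (Conn (gends ends c v) F b c)) := by ring
  have e4 : (1 - ind (Conn ends F c v)) * ind (Conn (gends ends c v) F a b)
      * ind (Conn (gends ends c v) F b c) =
      (1 - ind (Conn ends F c v)) * (ind (Conn ends F a b)
        + ind (Conn ends F a c) * ind (Conn ends F v b)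
        + ind (Conn ends F a v) * ind (Conn ends F c b)) * (ind (Conn ends F b c)
        + ind (Conn ends F b c) * ind (Conn ends F v c)
        + ind (Conn ends F b v) * ind (Conn ends F c c)) := by
    rw [e3]
    have : (1 - ind (Conn ends F c v)) * (ind (Conn ends F a b)
        + ind (Conn ends F a c) * ind (Conn ends F v b)
        + ind (Conn ends F a v) * ind (Conn ends F c b)) * ind (Conn (gends ends c v) F b c) =
      (ind (Conn ends F a b)
        + ind (Conn ends F a c) * ind (Conn ends F v b)
        + ind (Conn ends F a v) * ind (Conn ends F c b)) *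
        ((1 - ind (Conn ends F c v)) * ind (Conn (gends ends c v) F b c)) := by ring
    rw [this, e2]
    ring
  rw [h0, e4, e1, e2, e3, ind_pos (Conn.refl ends F c), ind_comm ends F a c,
    ind_comm ends F v b, ind_comm ends F b c, ind_comm ends F v c, ind_comm ends F v a]
  rcases ind4d ends F c a b v with h | h | h | h | h | h | h | h | h | h | h | h | h | h | h <;>
    obtain ⟨h1, h2, h3, h4, h5, h6⟩ := h <;> simp only [h1, h2, h3, h4, h5, h6] <;> ring

lemma wT_glue (ends : E → Sym2 V) (w : E → ℝ) (S : Finset E) {a b c v : V} (hcv : c ≠ v) (ha : a ≠ v)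
    (hb : b ≠ v) :
    wT (gends ends c v) w S a b c = sw ends w S (fun F =>
      (1 - ind (Conn ends F c a) ^ 2 - ind (Conn ends F c b) ^ 2 - ind (Conn ends F c v) ^ 2
        - ind (Conn ends F a b) ^ 2 - ind (Conn ends F a v) ^ 2 - ind (Conn ends F b v) ^ 2
        + 2 * ind (Conn ends F c a) * ind (Conn ends F c b) * ind (Conn ends F a b)
        + 2 * ind (Conn ends F c a) * ind (Conn ends F c v) * ind (Conn ends F a v)
        + 2 * ind (Conn ends F c b) * ind (Conn ends F c v) * ind (Conn ends F b v)
        + 2 * ind (Conn ends F a b) * ind (Conn ends F a v) * ind (Conn ends F b v)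
        + ind (Conn ends F c a) ^ 2 * ind (Conn ends F b v) ^ 2
        + ind (Conn ends F c b) ^ 2 * ind (Conn ends F a v) ^ 2
        + ind (Conn ends F c v) ^ 2 * ind (Conn ends F a b) ^ 2
        - 2 * ind (Conn ends F c a) * ind (Conn ends F a b) * ind (Conn ends F b v)
          * ind (Conn ends F c v)
        - 2 * ind (Conn ends F c a) * ind (Conn ends F a v) * ind (Conn ends F b v)
          * ind (Conn ends F c b)
        - 2 * ind (Conn ends F c b) * ind (Conn ends F a b) * ind (Conn ends F a v)
          * ind (Conn ends F c v))) := by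
  rw [wT_eq, sw_glue ends w S hcv]
  refine sw_congr fun F => ?_
  have e1 := glue_ind ends F (c := c) hcv ha
  have e2 := glue_ind ends F (c := c) hb hcv
  have e3 := glue_ind ends F (c := c) ha hb
  have h0 : (1 - ind (Conn ends F c v)) * (1 - ind (Conn (gends ends c v) F a b)
        - ind (Conn (gends ends c v) F b c) - ind (Conn (gends ends c v) F c a)
        + 2 * (ind (Conn (gends ends c v) F a b) * ind (Conn (gends ends c v) F b c))) =
      (1 - ind (Conn ends F c v)) - (1 - ind (Conn ends F c v)) * ind (Conn (gends ends c v) F a b)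
      - (1 - ind (Conn ends F c v)) * ind (Conn (gends ends c v) F b c)
      - (1 - ind (Conn ends F c v)) * ind (Conn (gends ends c v) F c a)
      + 2 * ((1 - ind (Conn ends F c v)) * ind (Conn (gends ends c v) F a b)
          * ind (Conn (gends ends c v) F b c)) := by ring
  have e4 : (1 - ind (Conn ends F c v)) * ind (Conn (gends ends c v) F a b)
      * ind (Conn (gends ends c v) F b c) =
      (1 - ind (Conn ends F c v)) * (ind (Conn ends F a b)
        + ind (Conn ends F a c) * ind (Conn ends F v b)
        + ind (Conn ends F a v) * ind (Conn ends F c b)) * (ind (Conn ends F b c)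
        + ind (Conn ends F b c) * ind (Conn ends F v c)
        + ind (Conn ends F b v) * ind (Conn ends F c c)) := by
    rw [e3]
    have : (1 - ind (Conn ends F c v)) * (ind (Conn ends F a b)
        + ind (Conn ends F a c) * ind (Conn ends F v b)
        + ind (Conn ends F a v) * ind (Conn ends F c b)) * ind (Conn (gends ends c v) F b c) =
      (ind (Conn ends F a b)
        + ind (Conn ends F a c) * ind (Conn ends F v b)
        + ind (Conn ends F a v) * ind (Conn ends F c b)) *
        ((1 - ind (Conn ends F c v)) * ind (Conn (gends ends c v) F b c)) := by ring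
    rw [this, e2]
    ring
  rw [h0, e4, e1, e2, e3, ind_pos (Conn.refl ends F c), ind_comm ends F a c,
    ind_comm ends F v b, ind_comm ends F b c, ind_comm ends F v c, ind_comm ends F v a]
  rcases ind4d ends F c a b v with h | h | h | h | h | h | h | h | h | h | h | h | h | h | h <;>
    obtain ⟨h1, h2, h3, h4, h5, h6⟩ := h <;> simp only [h1, h2, h3, h4, h5, h6] <;> ring

lemma prw_eq' (ends : E → Sym2 V) (w : E → ℝ) (S : Finset E) (a b c : V) (r : ℝ) :
    prw ends w S a b c r = sw ends w S (fun F =>
      (1 + r ^ 2 + 2 * r * ind (Conn ends F a b)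
        - (ind (Conn ends F c a) + r * ind (Conn ends F c b)) ^ 2)) := by
  rw [prw_eq]
  refine sw_congr fun F => ?_
  rw [ind_comm ends F b c]
  rcases ind4d ends F c a b a with h | h | h | h | h | h | h | h | h | h | h | h | h | h | h <;>
    obtain ⟨h1, h2, h3, h4, h5, h6⟩ := h <;> simp only [h1, h2, h4] <;> ring

lemma wT_eq' (ends : E → Sym2 V) (w : E → ℝ) (S : Finset E) (a b c : V) :
    wT ends w S a b c = sw ends w S (fun F =>
      (1 + 2 * ind (Conn ends F c a) * ind (Conn ends F c b) * ind (Conn ends F a b)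
        - ind (Conn ends F c a) ^ 2 - ind (Conn ends F c b) ^ 2 - ind (Conn ends F a b) ^ 2)) := by
  rw [wT_eq]
  refine sw_congr fun F => ?_
  rw [ind_comm ends F b c]
  rcases ind4d ends F c a b a with h | h | h | h | h | h | h | h | h | h | h | h | h | h | h <;>
    obtain ⟨h1, h2, h3, h4, h5, h6⟩ := h <;> simp only [h1, h2, h4] <;> ring

variable [Fintype V]

/-- The pinned Rayleigh inequality. -/
lemma prw_ray (ends : E → Sym2 V) (wt : E → ℝ) (hwt : ∀ e, 0 ≤ wt e) (S : Finset E) {a b c v : V} (hcv : c ≠ v) (ha : a ≠ v)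
    (hb : b ≠ v) (r : ℝ) :
    wT (gends ends c v) wt S a b c * prw ends wt S a b c r ≤
      wT ends wt S a b c * prw (gends ends c v) wt S a b c r := by
  set s : Finset (Finset E) := S.powerset.filter fun F => Forest ends F with hs
  set q : Finset E → ℝ := fun F => ∏ g ∈ F, wt g with hq
  set A : ℝ → ℝ → ℝ := fun y w => ∑ F ∈ s, q F *
    (1 + y + w + y * w * (1 - ind (Conn ends F b v) ^ 2)) with hA
  set B : ℝ → ℝ → ℝ := fun y w => ∑ F ∈ s, q F *
    (1 + y * (1 - ind (Conn ends F c b) ^ 2) + w * (1 - ind (Conn ends F c v) ^ 2)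
        + y * w * (1 + 2 * ind (Conn ends F c b) * ind (Conn ends F c v) * ind (Conn ends F b v)
          - ind (Conn ends F c b) ^ 2 - ind (Conn ends F c v) ^ 2
          - ind (Conn ends F b v) ^ 2)) with hB
  set C : ℝ → ℝ → ℝ := fun y w => ∑ F ∈ s, q F *
    ((1 + r ^ 2 + 2 * r * ind (Conn ends F a b)) + y * (1 - ind (Conn ends F a b) ^ 2)
        + w * ((1 + r ^ 2 + 2 * r * ind (Conn ends F a b))
          - (ind (Conn ends F a v) + r * ind (Conn ends F b v)) ^ 2)
        + y * w * (1 + 2 * ind (Conn ends F a b) * ind (Conn ends F a v) * ind (Conn ends F b v)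
          - ind (Conn ends F a b) ^ 2 - ind (Conn ends F a v) ^ 2
          - ind (Conn ends F b v) ^ 2)) with hC
  have hR : ∀ t0 x y w : ℝ, RTW ends wt S ![c, a, b, v] (aK t0 x r y w) =
      A y w + B y w * t0 + C y w * x
        + (prw ends wt S a b c r + y * wT ends wt S a b c + w * prw (gends ends c v) wt S a b c r
          + y * w * wT (gends ends c v) wt S a b c) * (t0 * x) := by
    intro t0 x y w
    rw [prw_glue ends wt S hcv ha hb r, wT_glue ends wt S hcv ha hb, prw_eq' ends wt S a b c r,
      wT_eq' ends wt S a b c, hA, hB, hC, sw, sw, sw, sw, ← lin_sum_w, RTW, sw]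
    refine Finset.sum_congr rfl fun F _ => ?_
    rw [CM4, aK, det_four]
  have ray : ∀ t0 x : ℝ, RTW ends wt S ![c, a, b, v] (aK t0 x r 0 0) *
      RTW ends wt S ![c, a, b, v] (aK t0 x r 1 1) ≤
      RTW ends wt S ![c, a, b, v] (aK t0 x r 1 0) * RTW ends wt S ![c, a, b, v] (aK t0 x r 0 1) := by
    intro t0 x
    have h := rayleighTW ends wt hwt S ![c, a, b, v] (aK t0 x r 0 0) (aK_symm _ _ _ _ _)
      ![0, 0, 1, 0] ![0, 0, 0, 1]
    rw [aK_add1, aK_add2, aK_add2] at h
    exact h
  set P0 := prw ends wt S a b c r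
  set P1 := prw (gends ends c v) wt S a b c r
  set T0 := wT ends wt S a b c
  set T1 := wT (gends ends c v) wt S a b c
  have step1 : ∀ x : ℝ, 0 < x → (P0 * (P0 + T0 + P1 + T1) - (P0 + T0) * (P0 + P1)) * x ^ 2
      + (B 0 0 * (P0 + T0 + P1 + T1) + P0 * B 1 1 - B 1 0 * (P0 + P1) - (P0 + T0) * B 0 1) * x
      + (B 0 0 * B 1 1 - B 1 0 * B 0 1) ≤ 0 := by
    intro x _
    have hx := leading_nonpos
      ((B 0 0 + P0 * x) * (B 1 1 + (P0 + T0 + P1 + T1) * x)
        - (B 1 0 + (P0 + T0) * x) * (B 0 1 + (P0 + P1) * x))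
      ((A 0 0 + C 0 0 * x) * (B 1 1 + (P0 + T0 + P1 + T1) * x)
        + (B 0 0 + P0 * x) * (A 1 1 + C 1 1 * x)
        - (A 1 0 + C 1 0 * x) * (B 0 1 + (P0 + P1) * x)
        - (B 1 0 + (P0 + T0) * x) * (A 0 1 + C 0 1 * x))
      ((A 0 0 + C 0 0 * x) * (A 1 1 + C 1 1 * x) - (A 1 0 + C 1 0 * x) * (A 0 1 + C 0 1 * x))
      (by
        intro t0 _
        have h := ray t0 x
        rw [hR, hR, hR, hR] at h
        nlinarith [h])
    nlinarith [hx]
  have step2 := leading_nonpos _ _ _ step1
  nlinarith [step2]

/-- The discriminant inequality. -/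
lemma prw_disc (ends : E → Sym2 V) (w : E → ℝ) (hw : ∀ e, 0 ≤ w e) (S : Finset E) {a b c v : V} (hcv : c ≠ v) (ha : a ≠ v)
    (hb : b ≠ v) :
    (wT ends w S a b c * (w2 (gends ends c v) w S a b - w3 (gends ends c v) w S a b c)
        - wT (gends ends c v) w S a b c * (w2 ends w S a b - w3 ends w S a b c)) ^ 2 ≤
      (wT ends w S a b c * (wN (gends ends c v) w S - w2 (gends ends c v) w S c a)
        - wT (gends ends c v) w S a b c * (wN ends w S - w2 ends w S c a)) *
      (wT ends w S a b c * (wN (gends ends c v) w S - w2 (gends ends c v) w S b c)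
        - wT (gends ends c v) w S a b c * (wN ends w S - w2 ends w S b c)) := by
  have h := discrim_le_zero
    (a := wT ends w S a b c * (wN (gends ends c v) w S - w2 (gends ends c v) w S b c)
        - wT (gends ends c v) w S a b c * (wN ends w S - w2 ends w S b c))
    (b := 2 * (wT ends w S a b c * (w2 (gends ends c v) w S a b - w3 (gends ends c v) w S a b c)
        - wT (gends ends c v) w S a b c * (w2 ends w S a b - w3 ends w S a b c)))
    (c := wT ends w S a b c * (wN (gends ends c v) w S - w2 (gends ends c v) w S c a)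
        - wT (gends ends c v) w S a b c * (wN ends w S - w2 ends w S c a))
    (by
      intro r
      have hr := prw_ray ends w hw S hcv ha hb r
      rw [prw, prw] at hr
      nlinarith [hr])
  rw [discrim] at h
  nlinarith [h]

/-- **The weighted three terminal inequality.** -/
theorem dw_nonneg (w : E → ℝ) (hw : ∀ e, 0 ≤ w e) :
    ∀ (n : ℕ) (ends : E → Sym2 V) (S : Finset E), S.card = n →
    ∀ a b c : V, a ≠ b → b ≠ c → c ≠ a → 0 ≤ dw ends w S a b c := by
  intro n
  induction n using Nat.strong_induction_on with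
  | _ n ih =>
    intro ends S hS a b c hab hbc hca
    by_cases hex : ∃ e ∈ S, ∃ v, ends e = s(c, v) ∧ v ≠ c
    · obtain ⟨e, heS, v, he, hvc⟩ := hex
      have hins : S = insert e (S.erase e) := (Finset.insert_erase heS).symm
      have hne : e ∉ S.erase e := Finset.notMem_erase _ _
      have hcard : (S.erase e).card < n := by
        rw [← hS]
        exact Finset.card_erase_lt_of_mem heS
      rw [hins]
      by_cases hva : v = a
      · rw [hva] at he
        rw [dw_terminal ends w hne he]
        exact ih _ hcard ends _ rfl a b c hab hbc hca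
      by_cases hvb : v = b
      · rw [hvb] at he
        rw [dw_swap, dw_terminal ends w hne he, ← dw_swap]
        exact ih _ hcard ends _ rfl a b c hab hbc hca
      set S' := S.erase e
      have hcv : c ≠ v := fun h => hvc h.symm
      have hav : a ≠ v := fun h => hva h.symm
      have hbv : b ≠ v := fun h => hvb h.symm
      have i0 := ih _ hcard ends _ rfl a b c hab hbc hca
      have i1 := ih _ hcard (gends ends c v) _ rfl a b c hab hbc hca
      have t0 := wT_pos ends w hw S' hab hbc hca
      have t1 := wT_pos (gends ends c v) w hw S' hab hbc hca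
      have hd := prw_disc ends w hw S' hcv hav hbv
      have hk := hw e
      rw [dw, wN_internal ends w hne he hcv, w2_internal ends w hne he hcv hav hbv,
        w2_internal ends w hne he hcv hbv hcv, w2_internal ends w hne he hcv hcv hav,
        w3_internal ends w hne he hcv hav hbv]
      rw [dw] at i0 i1
      rw [wT] at t0 t1 hd
      rw [wT] at hd
      set k := w e
      set N0 := wN ends w S'
      set N1 := wN (gends ends c v) w S'
      set U0 := w2 ends w S' a b
      set U1 := w2 (gends ends c v) w S' a b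
      set Q0 := w2 ends w S' b c
      set Q1 := w2 (gends ends c v) w S' b c
      set P0 := w2 ends w S' c a
      set P1 := w2 (gends ends c v) w S' c a
      set S0 := w3 ends w S' a b c
      set S1 := w3 (gends ends c v) w S' a b c
      have hid : (N0 - U0 - Q0 - P0 + 2 * S0) * (N1 - U1 - Q1 - P1 + 2 * S1) *
          dl (N0 + k * N1) (U0 + k * U1) (Q0 + k * Q1) (P0 + k * P1) (S0 + k * S1) =
          ((N0 - U0 - Q0 - P0 + 2 * S0) + k * (N1 - U1 - Q1 - P1 + 2 * S1)) *
            ((N1 - U1 - Q1 - P1 + 2 * S1) * dl N0 U0 Q0 P0 S0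
              + k * ((N0 - U0 - Q0 - P0 + 2 * S0) * dl N1 U1 Q1 P1 S1))
          + k * (((N0 - U0 - Q0 - P0 + 2 * S0) * (N1 - P1)
              - (N1 - U1 - Q1 - P1 + 2 * S1) * (N0 - P0)) *
            ((N0 - U0 - Q0 - P0 + 2 * S0) * (N1 - Q1)
              - (N1 - U1 - Q1 - P1 + 2 * S1) * (N0 - Q0))
            - ((N0 - U0 - Q0 - P0 + 2 * S0) * (U1 - S1)
              - (N1 - U1 - Q1 - P1 + 2 * S1) * (U0 - S0)) ^ 2) := by
        simp only [dl]
        ring
      have hpos : 0 < (N0 - U0 - Q0 - P0 + 2 * S0) * (N1 - U1 - Q1 - P1 + 2 * S1) :=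
        mul_pos t0 t1
      have hr : 0 ≤ (N0 - U0 - Q0 - P0 + 2 * S0) * (N1 - U1 - Q1 - P1 + 2 * S1) *
          dl (N0 + k * N1) (U0 + k * U1) (Q0 + k * Q1) (P0 + k * P1) (S0 + k * S1) := by
        rw [hid]
        have p1 : 0 ≤ (N1 - U1 - Q1 - P1 + 2 * S1) * dl N0 U0 Q0 P0 S0 :=
          mul_nonneg t1.le i0
        have p2 : 0 ≤ (N0 - U0 - Q0 - P0 + 2 * S0) * dl N1 U1 Q1 P1 S1 :=
          mul_nonneg t0.le i1
        have p3 := mul_nonneg (add_nonneg t0.le (mul_nonneg hk t1.le))
          (add_nonneg p1 (mul_nonneg hk p2))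
        refine add_nonneg p3 (mul_nonneg hk ?_)
        linarith
      exact nonneg_of_mul_nonneg_right hr hpos
    · push Not at hex
      rw [dw_isolated ends w S hbc hca hex]

/-- The weighted three terminal inequality in terms of sums. -/
theorem three_terminals_w (ends : E → Sym2 V) (w : E → ℝ) (hw : ∀ e, 0 ≤ w e) (S : Finset E)
    {a b c : V} (hab : a ≠ b) (hbc : b ≠ c) (hca : c ≠ a) :
    w2 ends w S a b * w2 ends w S b c + w2 ends w S b c * w2 ends w S c a
      + w2 ends w S c a * w2 ends w S a b + w3 ends w S a b c ^ 2 ≤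
    w3 ends w S a b c *
      (wN ends w S + w2 ends w S a b + w2 ends w S b c + w2 ends w S c a) := by
  have h := dw_nonneg w hw _ ends S rfl a b c hab hbc hca
  rw [dw, dl] at h
  linarith

lemma RTW_a3 (ends : E → Sym2 V) (w : E → ℝ) (S : Finset E) (a b c : V) (a1 a2 s x y z : ℝ) :
    RTW ends w S ![a, b, c] (a3 a1 a2 s x y z) =
      (1 + a1 + a2 + s + (a2 * s - y ^ 2) + (a1 * s - x ^ 2) + (a1 * a2 - z ^ 2)
        + (a1 * (a2 * s - y ^ 2) - z * (z * s - x * y) + x * (z * y - a2 * x))) * wN ends w S
      + (2 * z - (a1 * a2 - z ^ 2) - 2 * (x * y - z * s)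
        - (a1 * (a2 * s - y ^ 2) - z * (z * s - x * y) + x * (z * y - a2 * x)))
        * w2 ends w S a b
      + (2 * x - (a1 * s - x ^ 2) - 2 * (z * y - a2 * x)
        - (a1 * (a2 * s - y ^ 2) - z * (z * s - x * y) + x * (z * y - a2 * x)))
        * w2 ends w S c a
      + (2 * y - (a2 * s - y ^ 2) - 2 * (x * z - a1 * y)
        - (a1 * (a2 * s - y ^ 2) - z * (z * s - x * y) + x * (z * y - a2 * x)))
        * w2 ends w S b c
      + (2 * (x * y - z * s) + 2 * (z * y - a2 * x) + 2 * (x * z - a1 * y)
        + 2 * (a1 * (a2 * s - y ^ 2) - z * (z * s - x * y) + x * (z * y - a2 * x)))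
        * w3 ends w S a b c := by
  rw [RTW, sw_congr fun F => det_a3 ends F a b c a1 a2 s x y z]
  simp only [wN, w2, w3, sw, Finset.mul_sum, ← Finset.sum_add_distrib]
  exact Finset.sum_congr rfl fun F _ => by ring

/-- **The weighted three point inequality.** -/
theorem three_point_w (ends : E → Sym2 V) (w : E → ℝ) (hw : ∀ e, 0 ≤ w e) (S : Finset E)
    {a b c : V} (hab : a ≠ b) (hbc : b ≠ c) (hca : c ≠ a) :
    wN ends w S * w3 ends w S a b c ^ 2 ≤
      w2 ends w S b c * w2 ends w S c a * w2 ends w S a b := by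
  refine three_alg (wN ends w S) (w2 ends w S b c) (w2 ends w S c a) (w2 ends w S a b)
    (w3 ends w S a b c) ?_ ?_ ?_
  · have := wT_pos ends w hw S hab hbc hca
    rw [wT] at this
    linarith
  · have := three_terminals_w ends w hw S hab hbc hca
    linarith
  · intro x y z s
    have h := rayleighTW ends w hw S ![a, b, c] (a3 0 0 s x y z) (a3_symm 0 0 s x y z)
      ![1, 0, 0] ![0, 1, 0]
    rw [a3_add1, a3_add2, a3_add2, RTW_a3, RTW_a3, RTW_a3, RTW_a3] at h
    nlinarith [h]

end Pool.Agent.Lib.MP_d90615_co
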