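import Mathlib
import Pool.Agent.Lib.MP_d90615_co.Mg.G027
import Pool.Agent.Lib.MP_d90615_co.CL.WThree

/-!
Inequalities for the five pattern sums of a piece with three terminals.
-/

set_option autoImplicit false
set_option linter.unusedSectionVars false

namespace Pool.Agent.CL

open Finset Pool.Agent.Lib.MP_d90615_co
open scoped Classical

variable {V E : Type*}

lemma X_sw (ends : E → Sym2 V) (w : E → ℝ) (D : Finset E) (a b x : V) (i : Fin 5) :
    X ends w D a b x i = sw ends w D (fun A => ind (pat (Conn ends A) a b x i)) := by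
  unfold X sw ind
  rw [Finset.sum_filter, Finset.sum_filter]
  refine Finset.sum_congr rfl fun A _ => ?_
  by_cases h1 : Forest ends A <;> by_cases h2 : pat (Conn ends A) a b x i <;> simp [h1, h2]

lemma X_nonneg (ends : E → Sym2 V) (w : E → ℝ) (hw : ∀ e, 0 ≤ w e) (D : Finset E) (a b x : V)
    (i : Fin 5) : 0 ≤ X ends w D a b x i :=
  Finset.sum_nonneg fun _ _ => Finset.prod_nonneg fun e _ => hw e

lemma X4_eq (ends : E → Sym2 V) (w : E → ℝ) (D : Finset E) (a b x : V) :
    X ends w D a b x 4 = w3 ends w D a b x := by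
  rw [X_sw, w3]
  refine sw_congr fun F => ?_
  show ind (Conn ends F a b ∧ Conn ends F b x) = _
  unfold ind
  by_cases h1 : Conn ends F a b <;> by_cases h2 : Conn ends F b x <;> simp [h1, h2]

lemma X1_eq (ends : E → Sym2 V) (w : E → ℝ) (D : Finset E) (a b x : V) :
    X ends w D a b x 1 = w2 ends w D a b - w3 ends w D a b x := by
  rw [X_sw, w2, w3, sw, sw, sw, ← Finset.sum_sub_distrib]
  refine Finset.sum_congr rfl fun F _ => ?_
  show _ * ind (Conn ends F a b ∧ ¬ Conn ends F b x) = _
  unfold ind
  by_cases h1 : Conn ends F a b <;> by_cases h2 : Conn ends F b x <;> simp [h1, h2]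

lemma X2_eq (ends : E → Sym2 V) (w : E → ℝ) (D : Finset E) (a b x : V) :
    X ends w D a b x 2 = w2 ends w D b x - w3 ends w D a b x := by
  rw [X_sw, w2, w3, sw, sw, sw, ← Finset.sum_sub_distrib]
  refine Finset.sum_congr rfl fun F _ => ?_
  show _ * ind (Conn ends F b x ∧ ¬ Conn ends F a b) = _
  unfold ind
  by_cases h1 : Conn ends F a b <;> by_cases h2 : Conn ends F b x <;> simp [h1, h2]

lemma X3_eq (ends : E → Sym2 V) (w : E → ℝ) (D : Finset E) (a b x : V) :
    X ends w D a b x 3 = w2 ends w D x a - w3 ends w D a b x := by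
  rw [X_sw, w2, w3, sw, sw, sw, ← Finset.sum_sub_distrib]
  refine Finset.sum_congr rfl fun F _ => ?_
  show _ * ind (Conn ends F a x ∧ ¬ Conn ends F a b) = _
  have n1 : Conn ends F a b → Conn ends F b x → Conn ends F x a := fun h h' =>
    (h.trans h').symm
  have n2 : Conn ends F b x → Conn ends F x a → Conn ends F a b := fun h h' =>
    (h.trans h').symm
  have n3 : Conn ends F a b → Conn ends F x a → Conn ends F b x := fun h h' =>
    (h'.trans h).symm
  have s1 : Conn ends F a x ↔ Conn ends F x a := ⟨fun h => h.symm, fun h => h.symm⟩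
  unfold ind
  rw [s1]
  by_cases h1 : Conn ends F a b <;> by_cases h2 : Conn ends F b x <;>
    by_cases h3 : Conn ends F x a <;> simp_all

lemma X0_eq (ends : E → Sym2 V) (w : E → ℝ) (D : Finset E) (a b x : V) :
    X ends w D a b x 0 = wT ends w D a b x := by
  rw [X_sw, wT_eq]
  refine sw_congr fun F => ?_
  show ind (¬ Conn ends F a b ∧ ¬ Conn ends F b x ∧ ¬ Conn ends F a x) = _
  have n1 : Conn ends F a b → Conn ends F b x → Conn ends F x a := fun h h' =>
    (h.trans h').symm
  have n2 : Conn ends F b x → Conn ends F x a → Conn ends F a b := fun h h' =>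
    (h.trans h').symm
  have n3 : Conn ends F a b → Conn ends F x a → Conn ends F b x := fun h h' =>
    (h'.trans h).symm
  have s1 : Conn ends F a x ↔ Conn ends F x a := ⟨fun h => h.symm, fun h => h.symm⟩
  unfold ind
  rw [s1]
  by_cases h1 : Conn ends F a b <;> by_cases h2 : Conn ends F b x <;>
    by_cases h3 : Conn ends F x a <;> simp [h1, h2, h3] at n1 n2 n3 ⊢ <;> norm_num

lemma X0_pos [Fintype V] (ends : E → Sym2 V) (w : E → ℝ) (hw : ∀ e, 0 ≤ w e) (D : Finset E)
    {a b x : V} (hab : a ≠ b) (hbx : b ≠ x) (hax : a ≠ x) : 0 < X ends w D a b x 0 := by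
  rw [X0_eq]
  exact wT_pos ends w hw D hab hbx hax.symm

/-- The three terminal inequality for the patterns. -/
theorem eps_nonneg [Fintype V] (ends : E → Sym2 V) (w : E → ℝ) (hw : ∀ e, 0 ≤ w e)
    (D : Finset E) {a b x : V} (hab : a ≠ b) (hbx : b ≠ x) (hax : a ≠ x) :
    X ends w D a b x 1 * X ends w D a b x 2 + X ends w D a b x 2 * X ends w D a b x 3
      + X ends w D a b x 3 * X ends w D a b x 1 ≤ X ends w D a b x 0 * X ends w D a b x 4 := by
  have h := three_terminals_w ends w hw D hab hbx hax.symm
  rw [X0_eq, X1_eq, X2_eq, X3_eq, X4_eq, wT]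
  nlinarith [h]

/-- The three point inequality for the patterns. -/
theorem eps_three [Fintype V] (ends : E → Sym2 V) (w : E → ℝ) (hw : ∀ e, 0 ≤ w e)
    (D : Finset E) {a b x : V} (hab : a ≠ b) (hbx : b ≠ x) (hax : a ≠ x) :
    (X ends w D a b x 0 * X ends w D a b x 4
      - (X ends w D a b x 1 * X ends w D a b x 2 + X ends w D a b x 2 * X ends w D a b x 3
        + X ends w D a b x 3 * X ends w D a b x 1)) * X ends w D a b x 4 ≤
      X ends w D a b x 1 * X ends w D a b x 2 * X ends w D a b x 3 := by
  have h := three_point_w ends w hw D hab hbx hax.symm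
  rw [X0_eq, X1_eq, X2_eq, X3_eq, X4_eq, wT]
  nlinarith [h]

theorem eps_le [Fintype V] (ends : E → Sym2 V) (w : E → ℝ) (hw : ∀ e, 0 ≤ w e)
    (D : Finset E) {a b x : V} (hab : a ≠ b) (hbx : b ≠ x) (hax : a ≠ x) :
    (X ends w D a b x 0 * X ends w D a b x 4
      - (X ends w D a b x 1 * X ends w D a b x 2 + X ends w D a b x 2 * X ends w D a b x 3
        + X ends w D a b x 3 * X ends w D a b x 1))
      * (X ends w D a b x 2 + X ends w D a b x 3) ≤
      X ends w D a b x 0 * X ends w D a b x 2 * X ends w D a b x 3 := by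
  have h0 := eps_nonneg ends w hw D hab hbx hax
  have h1 := eps_three ends w hw D hab hbx hax
  have p0 := X0_pos ends w hw D hab hbx hax
  have p1 := X_nonneg ends w hw D a b x 1
  have p2 := X_nonneg ends w hw D a b x 2
  have p3 := X_nonneg ends w hw D a b x 3
  have p4 := X_nonneg ends w hw D a b x 4
  set s := X ends w D a b x 0
  set al := X ends w D a b x 1
  set be := X ends w D a b x 2
  set ga := X ends w D a b x 3
  set de := X ends w D a b x 4
  set ε := s * de - (al * be + be * ga + ga * al) with hε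
  have hε0 : 0 ≤ ε := by linarith
  have hsde : s * de = ε + (al * be + be * ga + ga * al) := by rw [hε]; ring
  have h2 : (ε + (al * be + be * ga + ga * al)) * ε ≤ s * (al * be * ga) := by
    have := mul_le_mul_of_nonneg_left h1 p0.le
    calc (ε + (al * be + be * ga + ga * al)) * ε = s * (ε * de) := by rw [← hsde]; ring
      _ ≤ _ := this
  rcases p1.eq_or_lt with ha | ha
  · rw [← ha] at h2
    have h3 : ε ^ 2 ≤ 0 := by
      have : 0 ≤ be * ga * ε := by positivity
      nlinarith
    have h4 : ε = 0 := by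
      have := pow_eq_zero_iff (two_ne_zero) |>.mp (le_antisymm h3 (sq_nonneg ε))
      exact this
    rw [h4, zero_mul]
    positivity
  · have h3 : al * (ε * (be + ga)) ≤ al * (s * be * ga) := by
      have : 0 ≤ be * ga * ε := by positivity
      nlinarith [sq_nonneg ε]
    exact le_of_mul_le_mul_left h3 ha

end Pool.Agent.CL
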