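import Mathlib
import Pool.Agent.Lib.MP_d90615_co.Mg.G029

/-!
Replacing a family of pieces with three terminals by stars and triangles.
-/

set_option autoImplicit false
set_option linter.unusedSectionVars false

namespace Pool.Agent.CL

open Finset Pool.Agent.Lib.MP_d90615_co
open scoped Classical

attribute [-instance] instDecidableEqSum instDecidableEqProd Subtype.instDecidableEq

variable {V V1 E E1 K : Type*}

/-- Embedding the vertices. -/
lemma conn_vmap {ends : E → Sym2 V} {j : V → V1} (hj : Function.Injective j)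
    (F : Finset E) (u v : V) :
    Conn (fun e => (ends e).map j) F (j u) (j v) ↔ Conn ends F u v := by
  constructor
  · intro h
    have key : ∀ y, Conn (fun e => (ends e).map j) F (j u) y → ∃ v, y = j v ∧ Conn ends F u v := by
      intro y hy
      induction hy with
      | refl => exact ⟨u, rfl, Conn.refl _ _ _⟩
      | @tail b c _ hbc ih =>
        obtain ⟨p, rfl, hp⟩ := ih
        obtain ⟨e, he, hs⟩ := hbc
        obtain ⟨q, r, hqr⟩ : ∃ q r, ends e = s(q, r) := by
          induction h : ends e using Sym2.ind with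
          | _ q r => exact ⟨q, r, rfl⟩
        simp only [hqr, Sym2.map_mk] at hs
        rcases Sym2.eq_iff.mp hs with ⟨h1, h2⟩ | ⟨h1, h2⟩
        · have h3 := hj h1
          subst h3
          exact ⟨r, h2.symm, hp.trans (Conn.single he hqr)⟩
        · have h3 := hj h2
          subst h3
          exact ⟨q, h1.symm, hp.trans (Conn.single he (by rw [hqr, Sym2.eq_swap]))⟩
    obtain ⟨v', h1, h2⟩ := key _ h
    rwa [hj h1]
  · intro h
    induction h with
    | refl => exact Conn.refl _ _ _
    | @tail b c _ hbc ih =>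
      obtain ⟨e, he, hs⟩ := hbc
      exact ih.trans (Conn.single he (by simp only [hs, Sym2.map_mk]))

lemma forest_vmap {ends : E → Sym2 V} {j : V → V1} (hj : Function.Injective j)
    (F : Finset E) : Forest (fun e => (ends e).map j) F ↔ Forest ends F := by
  constructor
  · intro h e he u v huv hc
    exact h e he (j u) (j v) (by simp only [huv, Sym2.map_mk]) ((conn_vmap hj _ u v).mpr hc)
  · intro h e he u v huv hc
    obtain ⟨q, r, hqr⟩ : ∃ q r, ends e = s(q, r) := by
      induction h : ends e using Sym2.ind with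
      | _ q r => exact ⟨q, r, rfl⟩
    simp only [hqr, Sym2.map_mk] at huv
    rcases Sym2.eq_iff.mp huv with ⟨rfl, rfl⟩ | ⟨rfl, rfl⟩
    · exact h e he q r hqr ((conn_vmap hj _ q r).mp hc)
    · exact h e he q r hqr ((conn_vmap hj _ q r).mp hc.symm)

/-- Embedding the edges. -/
lemma conn_emap {ends : E → Sym2 V} {ends1 : E1 → Sym2 V} {i : E → E1}
    (h : ∀ e, ends1 (i e) = ends e) (F : Finset E) (u v : V) :
    Conn ends1 (F.image i) u v ↔ Conn ends F u v := by
  constructor
  · intro h1
    induction h1 with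
    | refl => exact Conn.refl _ _ _
    | @tail b c _ hbc ih =>
      obtain ⟨e, he, hs⟩ := hbc
      obtain ⟨e', he', rfl⟩ := mem_image.mp he
      exact ih.trans (Conn.single he' (by rw [← h, hs]))
  · intro h1
    induction h1 with
    | refl => exact Conn.refl _ _ _
    | @tail b c _ hbc ih =>
      obtain ⟨e, he, hs⟩ := hbc
      exact ih.trans (Conn.single (mem_image_of_mem i he) (by rw [h, hs]))

lemma forest_emap {ends : E → Sym2 V} {ends1 : E1 → Sym2 V} {i : E → E1}
    (hi : Function.Injective i) (h : ∀ e, ends1 (i e) = ends e) (F : Finset E) :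
    Forest ends1 (F.image i) ↔ Forest ends F := by
  have her : ∀ e, (F.image i).erase (i e) = (F.erase e).image i := fun e =>
    (Finset.image_erase hi F e).symm
  constructor
  · intro h1 e he u v huv hc
    refine h1 (i e) (mem_image_of_mem i he) u v (by rw [h, huv]) ?_
    rw [her, conn_emap h]
    exact hc
  · intro h1 e1 he1 u v huv hc
    obtain ⟨e, he, rfl⟩ := mem_image.mp he1
    rw [her, conn_emap h] at hc
    rw [h] at huv
    exact h1 e he u v huv hc

/-- Swapping inside a sum. -/
lemma sum_swap {ends : E → Sym2 V} (w : E → ℝ) {D1 D2 R F : Finset E} (hd1 : Disjoint D1 R)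
    (hd2 : Disjoint D2 R) {c : ℝ}
    (h : ∀ B, B ⊆ R →
      (∑ A ∈ D1.powerset, if Forest ends (A ∪ (B ∪ F)) then ∏ e ∈ A, w e else 0) =
      c * ∑ A ∈ D2.powerset, if Forest ends (A ∪ (B ∪ F)) then ∏ e ∈ A, w e else 0) :
    (∑ A ∈ (D1 ∪ R).powerset, if Forest ends (A ∪ F) then ∏ e ∈ A, w e else 0) =
      c * ∑ A ∈ (D2 ∪ R).powerset, if Forest ends (A ∪ F) then ∏ e ∈ A, w e else 0 := by
  have key : ∀ D, Disjoint D R →
      (∑ A ∈ (D ∪ R).powerset, if Forest ends (A ∪ F) then ∏ e ∈ A, w e else 0) =
      ∑ B ∈ R.powerset, (∏ e ∈ B, w e) *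
        ∑ A ∈ D.powerset, if Forest ends (A ∪ (B ∪ F)) then ∏ e ∈ A, w e else 0 := by
    intro D hD
    rw [sum_powerset_union hD, Finset.sum_comm]
    refine Finset.sum_congr rfl fun B hB => ?_
    rw [Finset.mul_sum]
    refine Finset.sum_congr rfl fun A hA => ?_
    rw [mem_powerset] at hA hB
    have hAB : Disjoint A B := Finset.disjoint_of_subset_left hA
        (Finset.disjoint_of_subset_right hB hD)
    rw [Finset.union_assoc]
    split_ifs
    · rw [Finset.prod_union hAB, mul_comm]
    · rw [mul_zero]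
  rw [key D1 hd1, key D2 hd2, Finset.mul_sum]
  refine Finset.sum_congr rfl fun B hB => ?_
  rw [h B (mem_powerset.mp hB)]
  ring

/-- The multigraph `G` with, for every `k`, a new vertex joined to the three vertices `T k 0`,
`T k 1`, `T k 2` (edges `(k, 0)`, `(k, 1)`, `(k, 2)`), and three new edges between these vertices
(edges `(k, 3)`, `(k, 4)`, `(k, 5)`). -/
def bends (ends : E → Sym2 V) (T : K → Fin 3 → V) : E ⊕ (K × Fin 6) → Sym2 (V ⊕ K)
  | .inl e => (ends e).map Sum.inl
  | .inr (k, j) => ![s(.inl (T k 0), .inr k), s(.inl (T k 1), .inr k), s(.inl (T k 2), .inr k),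
      s(.inl (T k 0), .inl (T k 1)), s(.inl (T k 1), .inl (T k 2)),
      s(.inl (T k 0), .inl (T k 2))] j

lemma bends_mem (ends : E → Sym2 V) (T : K → Fin 3 → V) (k : K) (j : Fin 6) (v : V ⊕ K)
    (h : v ∈ bends ends T (.inr (k, j))) : v = .inr k ∨ ∃ i, v = .inl (T k i) := by
  fin_cases j <;> simp [bends] at h <;> rcases h with h | h <;> simp [h]

variable [Fintype K]

/-- The edges at the stage where the pieces in `I` are replaced. -/
noncomputable def stage (D : K → Finset E) (I : Finset K) : Finset (E ⊕ (K × Fin 6)) :=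
  ((univ \ I).biUnion fun k => (D k).image Sum.inl) ∪
    ((I ×ˢ (univ : Finset (Fin 6))).image Sum.inr)

theorem family [Fintype V] (ends : E → Sym2 V) (w : E → ℝ) (hw : ∀ e, 0 ≤ w e)
    (D : K → Finset E) (T : K → Fin 3 → V) (H : V → Prop)
    (hD : ∀ k l, k ≠ l → Disjoint (D k) (D l)) (hT : ∀ k, Function.Injective (T k))
    (hTH : ∀ k i, H (T k i))
    (h2 : ∀ k, ∀ g ∈ D k, ∀ v ∈ ends g, H v → ∃ i, v = T k i)
    (h3 : ∀ k, ∀ g ∈ D k, ∀ h, h ∉ D k → ∀ v ∈ ends g, v ∈ ends h → H v) :
    ∃ (c : ℝ) (u : K × Fin 6 → ℝ), 0 < c ∧ (∀ j, 0 ≤ u j) ∧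
      ∀ F : Finset E, (∀ k, Disjoint (D k) F) →
        (∑ B ∈ (univ.biUnion D).powerset, if Forest ends (B ∪ F) then ∏ e ∈ B, w e else 0) =
          c * ∑ J : Finset (K × Fin 6),
            if Forest (bends ends T) (J.image Sum.inr ∪ F.image Sum.inl) then
              ∏ j ∈ J, u j else 0 := by
  -- the weights
  have hw0 : ∀ e : E ⊕ (K × Fin 6), 0 ≤ (Sum.elim w (fun _ => (0 : ℝ))) e := by
    rintro (e | e)
    · exact hw e
    · exact le_rfl
  have hne : ∀ k (i j : Fin 3), i ≠ j → (Sum.inl (T k i) : V ⊕ K) ≠ Sum.inl (T k j) := by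
    intro k i j hij h
    exact hij (hT k (Sum.inl.inj h))
  choose c u hc hu hX using fun k => exists_star_tri (bends ends T) _ hw0
    ((D k).image Sum.inl) (hne k 0 1 (by decide)) (hne k 1 2 (by decide)) (hne k 0 2 (by decide))
  set w' : E ⊕ (K × Fin 6) → ℝ := Sum.elim w (fun q => u q.1 q.2) with hw'
  have hXk : ∀ k i, X (bends ends T) w' ((D k).image Sum.inl) (Sum.inl (T k 0))
      (Sum.inl (T k 1)) (Sum.inl (T k 2)) i = c k * X (bends ends T) w'
        (univ.image fun j : Fin 6 => (Sum.inr (k, j) : E ⊕ (K × Fin 6))) (Sum.inl (T k 0))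
      (Sum.inl (T k 1)) (Sum.inl (T k 2)) i := by
    intro k i
    rw [← hX k (bends ends T) w' (o := Sum.inr k) (hne k 0 1 (by decide))
      (hne k 1 2 (by decide)) (hne k 0 2 (by decide)) (by simp) (by simp) (by simp)
      (fun j : Fin 6 => (Sum.inr (k, j) : E ⊕ (K × Fin 6)))
      (fun a b h => by simpa using h) (fun j => rfl) rfl rfl rfl rfl rfl rfl i]
    refine X_congr (fun e he => ?_) _ _ _ _
    obtain ⟨e', _, rfl⟩ := mem_image.mp he
    rfl
  -- the induction
  have main : ∀ F : Finset E, (∀ k, Disjoint (D k) F) → ∀ I : Finset K,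
      (∑ B ∈ (stage D (∅ : Finset K)).powerset,
        if Forest (bends ends T) (B ∪ F.image Sum.inl) then ∏ e ∈ B, w' e else 0) =
      (∏ k ∈ I, c k) * ∑ B ∈ (stage D I).powerset,
        if Forest (bends ends T) (B ∪ F.image Sum.inl) then ∏ e ∈ B, w' e else 0 := by
    intro F hF I
    induction I using Finset.induction_on with
    | empty => rw [Finset.prod_empty, one_mul]
    | insert k I hk ih =>
      rw [ih, Finset.prod_insert hk, mul_comm (c k), mul_assoc]
      congr 1
      set R : Finset (E ⊕ (K × Fin 6)) :=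
        ((univ \ insert k I).biUnion fun k => (D k).image Sum.inl) ∪
          ((I ×ˢ (univ : Finset (Fin 6))).image Sum.inr) with hR
      have s1 : stage D I = (D k).image Sum.inl ∪ R := by
        ext e
        simp only [stage, hR, mem_union, mem_biUnion, mem_sdiff, mem_univ, true_and, mem_insert,
          not_or]
        constructor
        · rintro (⟨l, hl, he⟩ | he)
          · by_cases hlk : l = k
            · subst hlk
              exact Or.inl he
            · exact Or.inr (Or.inl ⟨l, ⟨hlk, hl⟩, he⟩)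
          · exact Or.inr (Or.inr he)
        · rintro (he | ⟨l, hl, he⟩ | he)
          · exact Or.inl ⟨k, hk, he⟩
          · exact Or.inl ⟨l, hl.2, he⟩
          · exact Or.inr he
      have s2 : stage D (insert k I) =
          (univ.image fun j : Fin 6 => (Sum.inr (k, j) : E ⊕ (K × Fin 6))) ∪ R := by
        ext e
        simp only [stage, hR, mem_union, mem_biUnion, mem_sdiff, mem_univ, true_and, mem_insert,
          mem_image, mem_product, and_true]
        constructor
        · rintro (h | ⟨⟨l, j⟩, (h | h), rfl⟩)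
          · exact Or.inr (Or.inl h)
          · simp only at h
            subst h
            exact Or.inl ⟨j, rfl⟩
          · exact Or.inr (Or.inr ⟨(l, j), h, rfl⟩)
        · rintro (⟨j, rfl⟩ | h | ⟨⟨l, j⟩, h, rfl⟩)
          · exact Or.inr ⟨(k, j), Or.inl rfl, rfl⟩
          · exact Or.inl h
          · exact Or.inr ⟨(l, j), Or.inr h, rfl⟩
      have hR1 : ∀ e ∈ R, (∃ l, l ≠ k ∧ ∃ g ∈ D l, e = Sum.inl g) ∨
          ∃ l j, l ≠ k ∧ e = Sum.inr (l, j) := by
        intro e he
        simp only [hR, mem_union, mem_biUnion, mem_sdiff, mem_univ, true_and, mem_insert,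
          not_or, mem_image, mem_product, and_true] at he
        rcases he with ⟨l, ⟨h1, _⟩, g, hg, rfl⟩ | ⟨⟨l, j⟩, h, rfl⟩
        · exact Or.inl ⟨l, h1, g, hg, rfl⟩
        · exact Or.inr ⟨l, j, fun h' => hk (h' ▸ h), rfl⟩
      have d1 : Disjoint ((D k).image Sum.inl) R := by
        rw [Finset.disjoint_left]
        intro e he he'
        obtain ⟨g, hg, rfl⟩ := mem_image.mp he
        rcases hR1 _ he' with ⟨l, hl, g', hg', h⟩ | ⟨l, j, _, h⟩
        · rw [← Sum.inl.inj h] at hg'
          exact (Finset.disjoint_left.mp (hD l k hl)) hg' hg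
        · exact absurd h (by simp)
      have d2 : Disjoint (univ.image fun j : Fin 6 => (Sum.inr (k, j) : E ⊕ (K × Fin 6))) R := by
        rw [Finset.disjoint_left]
        intro e he he'
        obtain ⟨j, _, rfl⟩ := mem_image.mp he
        rcases hR1 _ he' with ⟨l, hl, g', hg', h⟩ | ⟨l, j', hl, h⟩
        · exact absurd h (by simp)
        · have := congrArg Prod.fst (Sum.inr.inj h)
          exact hl this.symm
      rw [s1, s2]
      refine sum_swap w' d1 d2 fun B hB => ?_
      -- the two separations
      have hB' : ∀ e ∈ B ∪ F.image Sum.inl,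
          (∃ g, g ∉ D k ∧ e = Sum.inl g) ∨ ∃ l j, l ≠ k ∧ e = Sum.inr (l, j) := by
        intro e he
        rcases mem_union.mp he with he | he
        · rcases hR1 e (hB he) with ⟨l, hl, g, hg, rfl⟩ | h
          · exact Or.inl ⟨g, fun h => (Finset.disjoint_left.mp (hD l k hl)) hg h, rfl⟩
          · exact Or.inr h
        · obtain ⟨g, hg, rfl⟩ := mem_image.mp he
          exact Or.inl ⟨g, fun h => (Finset.disjoint_left.mp (hF k)) h hg, rfl⟩
      refine swap w' (B := B ∪ F.image Sum.inl) ?_ ?_
        (fun v => ∀ v0, v = Sum.inl v0 → (∃ g ∈ D k, v0 ∈ ends g) → H v0)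
        (fun v => v ≠ Sum.inr k) (hne k 0 1 (by decide)) (hne k 1 2 (by decide))
        (hne k 0 2 (by decide)) ?_ ?_ ?_ ?_ (hXk k)
      · rw [Finset.disjoint_left]
        intro e he he'
        obtain ⟨g, hg, rfl⟩ := mem_image.mp he
        rcases hB' _ he' with ⟨g', hg', h⟩ | ⟨l, j, _, h⟩
        · rw [← Sum.inl.inj h] at hg'
          exact hg' hg
        · exact absurd h (by simp)
      · rw [Finset.disjoint_left]
        intro e he he'
        obtain ⟨j, _, rfl⟩ := mem_image.mp he
        rcases hB' _ he' with ⟨g', hg', h⟩ | ⟨l, j', hl, h⟩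
        · exact absurd h (by simp)
        · have := congrArg Prod.fst (Sum.inr.inj h)
          exact hl this.symm
      · intro e he v hv ho
        obtain ⟨g, hg, rfl⟩ := mem_image.mp he
        obtain ⟨v0, hv0, rfl⟩ := Sym2.mem_map.mp hv
        obtain ⟨i, hi⟩ := h2 k g hg v0 hv0 (ho v0 rfl ⟨g, hg, hv0⟩)
        rw [hi]
        fin_cases i <;> simp
      · intro e he v hv v0 hvv hg
        subst hvv
        obtain ⟨g, hg, hvg⟩ := hg
        rcases hB' e he with ⟨g', hg', rfl⟩ | ⟨l, j, hl, rfl⟩
        · obtain ⟨v1, hv1, h⟩ := Sym2.mem_map.mp hv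
          rw [Sum.inl.inj h] at hv1
          exact h3 k g hg g' hg' v0 hvg hv1
        · rcases bends_mem ends T l j _ hv with h | ⟨i, h⟩
          · exact absurd h (by simp)
          · rw [Sum.inl.inj h]
            exact hTH l i
      · intro e he v hv ho
        obtain ⟨j, _, rfl⟩ := mem_image.mp he
        rcases bends_mem ends T k j _ hv with h | ⟨i, h⟩
        · exact absurd h ho
        · rw [h]
          fin_cases i <;> simp
      · intro e he v hv hvk
        subst hvk
        rcases hB' e he with ⟨g', hg', rfl⟩ | ⟨l, j, hl, rfl⟩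
        · obtain ⟨v1, hv1, h⟩ := Sym2.mem_map.mp hv
          exact absurd h (by simp)
        · rcases bends_mem ends T l j _ hv with h | ⟨i, h⟩
          · exact hl (Sum.inr.inj h).symm
          · exact absurd h (by simp)
  refine ⟨∏ k, c k, fun q => u q.1 q.2, Finset.prod_pos fun k _ => hc k, fun q => hu _ _, ?_⟩
  intro F hF
  have h := main F hF univ
  have s0 : stage D (∅ : Finset K) = (univ.biUnion D).image Sum.inl := by
    ext e
    simp only [stage, mem_union, mem_biUnion, mem_sdiff, mem_univ, true_and, mem_image,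
      mem_product]
    constructor
    · rintro (⟨l, -, g, hg, rfl⟩ | ⟨q, ⟨hq, -⟩, -⟩)
      · exact ⟨g, ⟨l, hg⟩, rfl⟩
      · exact absurd hq (Finset.notMem_empty _)
    · rintro ⟨g, ⟨l, hg⟩, rfl⟩
      exact Or.inl ⟨l, Finset.notMem_empty _, g, hg, rfl⟩
  have s1 : stage D (univ : Finset K) =
      (univ : Finset (K × Fin 6)).image (Sum.inr : K × Fin 6 → E ⊕ (K × Fin 6)) := by
    ext e
    simp [stage]
  rw [s0, s1, Finset.powerset_image, Finset.powerset_image,
    Finset.sum_image (Finset.image_injective Sum.inl_injective).injOn,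
    Finset.sum_image (Finset.image_injective Sum.inr_injective).injOn, Finset.powerset_univ] at h
  have e1 : ∀ B : Finset E, (if Forest (bends ends T) (B.image Sum.inl ∪ F.image Sum.inl) then
      ∏ e ∈ B.image Sum.inl, w' e else 0) = if Forest ends (B ∪ F) then ∏ e ∈ B, w e else 0 := by
    intro B
    have h1 : Forest (bends ends T) (B.image Sum.inl ∪ F.image Sum.inl) ↔ Forest ends (B ∪ F) := by
      rw [← Finset.image_union,
        forest_emap (ends := fun e => (ends e).map (Sum.inl : V → V ⊕ K)) Sum.inl_injective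
          (fun e => rfl)]
      exact forest_vmap Sum.inl_injective _
    rw [Finset.prod_image Sum.inl_injective.injOn]
    simp only [h1]
    rfl
  have e2 : ∀ J : Finset (K × Fin 6),
      (if Forest (bends ends T) (J.image Sum.inr ∪ F.image Sum.inl) then
      ∏ e ∈ J.image Sum.inr, w' e else 0) =
      if Forest (bends ends T) (J.image Sum.inr ∪ F.image Sum.inl) then
        ∏ q ∈ J, u q.1 q.2 else 0 := by
    intro J
    rw [Finset.prod_image Sum.inr_injective.injOn]
    rfl
  rw [Finset.sum_congr rfl fun B _ => e1 B, Finset.sum_congr rfl fun J _ => e2 J] at h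
  exact h

end Pool.Agent.CL
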