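import Pool.Agent.Lib.MP_d90615_co.CL.Hyp
import Pool.Agent.Lib.MP_d90615_co.CL.Eps

/-!
The Rayleigh inequality for separated edges, in terms of sums over forests.
-/

namespace Pool.Agent.CL

open Finset Pool.Agent.Lib.MP_d90615_co
open scoped Classical

variable {V E : Type*}

/-- All pattern vectors are pieces. -/
theorem piece_all [Fintype V] (ends : E → Sym2 V) {w : E → ℝ} (hw : ∀ e, 0 ≤ w e)
    (D : Finset E) (a b x : V) (hab : a ≠ b) (hbx : b ≠ x) (hax : a ≠ x) :
    Piece (X ends w D a b x) := by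
  have h1 := eps_three ends w hw D hab hbx hax
  have h2 := eps_le ends w hw D hab hbx hax
  have h0 := eps_nonneg ends w hw D hab hbx hax
  have p0 := X_nonneg ends w hw D a b x 0
  have p1 := X_nonneg ends w hw D a b x 1
  have p2 := X_nonneg ends w hw D a b x 2
  have p3 := X_nonneg ends w hw D a b x 3
  have p4 := X_nonneg ends w hw D a b x 4
  generalize X ends w D a b x = Y at *
  have e : epsX Y = Y 0 * Y 4 - (Y 1 * Y 2 + Y 2 * Y 3 + Y 3 * Y 1) := by
    unfold epsX
    ring
  have hε0 : 0 ≤ epsX Y := by linarith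
  have key : epsX Y ^ 2 ≤ 0 ∨ (0 < Y 2 ∧ 0 < Y 3) := by
    rcases p2.eq_or_lt with h | hb
    · left
      have : epsX Y * (epsX Y + (Y 1 * Y 2 + Y 2 * Y 3 + Y 3 * Y 1)) ≤ 0 := by
        have h5 : epsX Y * (Y 0 * Y 4) ≤ Y 0 * (Y 1 * Y 2 * Y 3) := by
          rw [e]
          nlinarith [mul_le_mul_of_nonneg_left h1 p0]
        rw [← h] at h5
        have h6 : epsX Y + (Y 1 * Y 2 + Y 2 * Y 3 + Y 3 * Y 1) = Y 0 * Y 4 := by
          rw [e]
          ring
        rw [h6]
        linarith
      have h7 : 0 ≤ epsX Y * (Y 1 * Y 2 + Y 2 * Y 3 + Y 3 * Y 1) := by positivity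
      nlinarith
    · rcases p3.eq_or_lt with h | hc
      · left
        have : epsX Y * (epsX Y + (Y 1 * Y 2 + Y 2 * Y 3 + Y 3 * Y 1)) ≤ 0 := by
          have h5 : epsX Y * (Y 0 * Y 4) ≤ Y 0 * (Y 1 * Y 2 * Y 3) := by
            rw [e]
            nlinarith [mul_le_mul_of_nonneg_left h1 p0]
          rw [← h] at h5
          have h6 : epsX Y + (Y 1 * Y 2 + Y 2 * Y 3 + Y 3 * Y 1) = Y 0 * Y 4 := by
            rw [e]
            ring
          rw [h6]
          linarith
        have h7 : 0 ≤ epsX Y * (Y 1 * Y 2 + Y 2 * Y 3 + Y 3 * Y 1) := by positivity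
        nlinarith
      · exact Or.inr ⟨hb, hc⟩
  refine ⟨⟨p0, p1, p2, p3, p4⟩, ?_, ?_, ?_⟩
  · rcases key with h | ⟨hb, hc⟩
    · have : epsX Y = 0 := pow_eq_zero_iff (two_ne_zero) |>.mp (le_antisymm h (sq_nonneg _))
      rw [this]
      positivity
    · rw [← e] at h2
      have : Y 2 * epsX Y ≤ Y 2 * (Y 0 * Y 3) := by
        have : 0 ≤ epsX Y * Y 3 := by positivity
        nlinarith
      exact le_of_mul_le_mul_left this hb
  · rcases key with h | ⟨hb, hc⟩
    · have : epsX Y = 0 := pow_eq_zero_iff (two_ne_zero) |>.mp (le_antisymm h (sq_nonneg _))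
      rw [this]
      positivity
    · rw [← e] at h2
      have : Y 3 * epsX Y ≤ Y 3 * (Y 0 * Y 2) := by
        have : 0 ≤ epsX Y * Y 2 := by positivity
        nlinarith
      exact le_of_mul_le_mul_left this hc
  · rw [← e] at h2
    exact h2

/-- The forests that contain the edge `g`. -/
lemma sum_insert_mem {ends : E → Sym2 V} (w : E → ℝ) {D : Finset E} {g : E} {u v : V}
    (hg : g ∉ D) (he : ends g = s(u, v)) (L : List (V × V)) (φ : Finset E → Prop) :
    ∑ F ∈ (insert g D).powerset with good ends F L ∧ g ∈ F ∧ φ (F.erase g), ∏ e ∈ F, w e =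
      w g * ∑ F ∈ D.powerset with good ends F ((u, v) :: L) ∧ φ F, ∏ e ∈ F, w e := by
  rw [Finset.mul_sum]
  symm
  refine Finset.sum_bij' (fun F _ => insert g F) (fun F _ => F.erase g) ?_ ?_ ?_ ?_ ?_
  · intro F hF
    rw [mem_filter, mem_powerset] at hF
    obtain ⟨hFD, hF1, hF2⟩ := hF
    have hgF : g ∉ F := fun h => hg (hFD h)
    rw [mem_filter, mem_powerset]
    refine ⟨insert_subset_insert _ hFD, (good_insert he hgF L).2 hF1, mem_insert_self _ _, ?_⟩
    rwa [erase_insert hgF]
  · intro F hF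
    rw [mem_filter, mem_powerset] at hF
    obtain ⟨hFD, hF1, hF2, hF3⟩ := hF
    rw [mem_filter, mem_powerset]
    refine ⟨?_, ?_, hF3⟩
    · intro x hx
      rw [mem_erase] at hx
      rcases mem_insert.1 (hFD hx.2) with h | h
      · exact absurd h hx.1
      · exact h
    · rw [← insert_erase hF2] at hF1
      exact (good_insert he (notMem_erase _ _) L).1 hF1
  · intro F hF
    rw [mem_filter, mem_powerset] at hF
    exact erase_insert fun h => hg (hF.1 h)
  · intro F hF
    rw [mem_filter] at hF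
    exact insert_erase hF.2.2.1
  · intro F hF
    rw [mem_filter, mem_powerset] at hF
    rw [prod_insert fun h => hg (hF.1 h)]

/-- The forests with and without the edge `g`. -/
lemma sum_insert {ends : E → Sym2 V} (w : E → ℝ) {D : Finset E} {g : E} {u v : V}
    (hg : g ∉ D) (he : ends g = s(u, v)) (L : List (V × V)) :
    P ends w (insert g D) L = P ends w D L + w g * P ends w D ((u, v) :: L) := by
  have h1 := sum_insert_mem w hg he L fun _ => True
  simp only [and_true] at h1
  have h2 : P ends w (insert g D) L =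
      (∑ F ∈ (insert g D).powerset with good ends F L ∧ g ∉ F, ∏ e ∈ F, w e) +
        ∑ F ∈ (insert g D).powerset with good ends F L ∧ g ∈ F, ∏ e ∈ F, w e := by
    rw [P, ← Finset.sum_filter_add_sum_filter_not _ fun F => g ∉ F, filter_filter, filter_filter]
    congr 2
    ext F
    simp
  rw [h2, h1]
  congr 1
  rw [P]
  refine Finset.sum_congr ?_ fun _ _ => rfl
  ext F
  rw [mem_filter, mem_filter, mem_powerset, mem_powerset]
  constructor
  · rintro ⟨h3, h4, h5⟩
    exact ⟨(subset_insert_iff_of_notMem h5).1 h3, h4⟩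
  · rintro ⟨h3, h4⟩
    exact ⟨h3.trans (subset_insert _ _), h4, fun h => hg (h3 h)⟩

/-- The forest sum is positive. -/
lemma P_nil_pos {ends : E → Sym2 V} {w : E → ℝ} (hw : ∀ e, 0 ≤ w e) (D : Finset E) :
    0 < P ends w D [] := by
  refine lt_of_lt_of_le one_pos ?_
  have h0 : (∅ : Finset E) ∈ D.powerset.filter fun A => good ends A [] := by
    rw [mem_filter]
    exact ⟨empty_mem_powerset _, forest_empty⟩
  have h1 := Finset.single_le_sum (f := fun F : Finset E => ∏ g ∈ F, w g)
    (fun F _ => Finset.prod_nonneg fun g _ => hw g) h0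
  simpa [P] using h1

lemma P_nonneg {ends : E → Sym2 V} {w : E → ℝ} (hw : ∀ e, 0 ≤ w e) (D : Finset E)
    (L : List (V × V)) : 0 ≤ P ends w D L :=
  Finset.sum_nonneg fun _ _ => Finset.prod_nonneg fun _ _ => hw _

/-- **Negative correlation**, as an inequality between sums over forests. -/
theorem nc_of_sep [Fintype V] [Fintype E] {ends : E → Sym2 V} {w : E → ℝ}
    (hw : ∀ e, 0 ≤ w e) {a b c d : V} (hab : a ≠ b) (hac : a ≠ c) (had : a ≠ d) (hbc : b ≠ c)
    (hbd : b ≠ d) (hcd : c ≠ d) {e f : E} (he : ends e = s(a, b)) (hf : ends f = s(c, d))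
    (hsep : Sep ends a b c d) :
    (∑ F : Finset E with Forest ends F ∧ e ∈ F ∧ f ∈ F, ∏ g ∈ F, w g) *
        ∑ F : Finset E with Forest ends F, ∏ g ∈ F, w g ≤
      (∑ F : Finset E with Forest ends F ∧ e ∈ F, ∏ g ∈ F, w g) *
        ∑ F : Finset E with Forest ends F ∧ f ∈ F, ∏ g ∈ F, w g := by
  have hef : e ≠ f := by
    rintro rfl
    rw [he, Sym2.eq_iff] at hf
    rcases hf with h | h
    · exact hac h.1
    · exact had h.1
  set D : Finset E := (univ.erase e).erase f with hD
  have hfD : f ∉ D := notMem_erase _ _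
  have heD : e ∉ insert f D := by
    rw [mem_insert, not_or]
    exact ⟨hef, by simp [hD]⟩
  have hu : insert e (insert f D) = univ := by
    rw [hD, insert_erase (by simp [hef.symm]), insert_erase (mem_univ _)]
  have heD' : e ∉ D := fun h => heD (mem_insert_of_mem h)
  have hu' : insert f (insert e D) = univ := by rw [insert_comm, hu]
  have hfD' : f ∉ insert e D := by
    rw [mem_insert, not_or]
    exact ⟨hef.symm, hfD⟩
  have hR := Built.ray hw hab hac had hbc hbd hcd
    (fun D u v x h1 h2 h3 => piece_all ends hw D u v x h1 h2 h3)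
    (Built.of_sep_all hab hac hbc hcd hsep D)
  -- the four sums
  have hswap : P ends w D [(c, d), (a, b)] = P ends w D [(a, b), (c, d)] := by
    unfold P
    refine Finset.sum_congr ?_ fun _ _ => rfl
    ext F
    rw [mem_filter, mem_filter]
    refine and_congr_right fun _ => ?_
    show ((Forest ends F ∧ ¬ Conn ends F a b) ∧ ¬ Ins (Conn ends F) a b c d) ↔
      ((Forest ends F ∧ ¬ Conn ends F c d) ∧ ¬ Ins (Conn ends F) c d a b)
    rw [and_assoc, and_assoc, good_comm_aux (Conn_equiv ends F)]
  have s0 : ∑ F : Finset E with Forest ends F, ∏ g ∈ F, w g =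
      P ends w D [] + w f * P ends w D [(c, d)] + w e * (P ends w D [(a, b)] +
        w f * P ends w D [(a, b), (c, d)]) := by
    have h1 : ∑ F : Finset E with Forest ends F, ∏ g ∈ F, w g =
        P ends w (insert e (insert f D)) [] := by
      rw [hu, P, powerset_univ]
      rfl
    rw [h1, sum_insert w heD he, sum_insert w hfD hf, sum_insert w hfD hf, hswap]
  have se : ∑ F : Finset E with Forest ends F ∧ e ∈ F, ∏ g ∈ F, w g =
      w e * (P ends w D [(a, b)] + w f * P ends w D [(a, b), (c, d)]) := by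
    have h1 := sum_insert_mem w heD he [] fun _ => True
    simp only [and_true] at h1
    rw [hu, powerset_univ] at h1
    have h2 : ∑ F ∈ (insert f D).powerset with good ends F [(a, b)], ∏ e ∈ F, w e =
      P ends w (insert f D) [(a, b)] := rfl
    rw [h2, sum_insert w hfD hf, hswap] at h1
    exact h1
  have sf : ∑ F : Finset E with Forest ends F ∧ f ∈ F, ∏ g ∈ F, w g =
      w f * (P ends w D [(c, d)] + w e * P ends w D [(a, b), (c, d)]) := by
    have h1 := sum_insert_mem w hfD' hf [] fun _ => True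
    simp only [and_true] at h1
    rw [hu', powerset_univ] at h1
    have h2 : ∑ F ∈ (insert e D).powerset with good ends F [(c, d)], ∏ e ∈ F, w e =
      P ends w (insert e D) [(c, d)] := rfl
    rw [h2, sum_insert w heD' he] at h1
    exact h1
  have sef : ∑ F : Finset E with Forest ends F ∧ e ∈ F ∧ f ∈ F, ∏ g ∈ F, w g =
      w e * (w f * P ends w D [(a, b), (c, d)]) := by
    have h1 := sum_insert_mem w heD he [] fun F => f ∈ F
    rw [hu, powerset_univ] at h1
    have h2 := sum_insert_mem w hfD hf [(a, b)] fun _ => True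
    simp only [and_true] at h2
    rw [← hswap]
    refine Eq.trans (Finset.sum_congr ?_ fun _ _ => rfl) (h1.trans (congrArg (w e * ·)
      (Eq.trans (Finset.sum_congr ?_ fun _ _ => rfl) h2)))
    · ext F
      simp only [mem_filter, mem_univ, true_and, mem_erase, ne_eq]
      exact ⟨fun h => ⟨h.1, h.2.1, hef.symm, h.2.2⟩, fun h => ⟨h.1, h.2.1, h.2.2.2⟩⟩
    · ext F
      simp only [mem_filter]
  rw [s0, se, sf, sef]
  have hwe := hw e
  have hwf := hw f
  have h3 : 0 ≤ w e * w f := mul_nonneg hwe hwf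
  nlinarith [mul_le_mul_of_nonneg_left hR h3]

end Pool.Agent.CL
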