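import Pool.Agent.Lib.MP_d90615_co.CL.Built

/-!
If in every component of `G - {a, b, c, d}` one vertex separates `a, b` from `c, d`, the graph is
built from blocks.
-/

namespace Pool.Agent.CL

open Finset Pool.Agent.Lib.MP_d90615_co
open scoped Classical

variable {V E : Type*}

/-- Some edge joins `u` and `v`. -/
def Adj (ends : E → Sym2 V) (u v : V) : Prop := ∃ g, ends g = s(u, v)

/-- `y` and `z` are joined by a walk all of whose vertices satisfy `S`. -/
def Linked (ends : E → Sym2 V) (S : V → Prop) (y z : V) : Prop :=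
  S y ∧ Relation.ReflTransGen (fun u v => S v ∧ Adj ends u v) y z

lemma Adj.symm {ends : E → Sym2 V} {u v : V} (h : Adj ends u v) : Adj ends v u := by
  obtain ⟨g, hg⟩ := h
  exact ⟨g, hg.trans Sym2.eq_swap⟩

lemma Linked.left {ends : E → Sym2 V} {S : V → Prop} {y z : V} (h : Linked ends S y z) : S y :=
  h.1

lemma Linked.right {ends : E → Sym2 V} {S : V → Prop} {y z : V} (h : Linked ends S y z) : S z := by
  obtain ⟨h1, h2⟩ := h
  induction h2 with
  | refl => exact h1
  | tail _ hbc _ => exact hbc.1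

lemma Linked.refl {ends : E → Sym2 V} {S : V → Prop} {y : V} (h : S y) : Linked ends S y y :=
  ⟨h, Relation.ReflTransGen.refl⟩

lemma Linked.trans {ends : E → Sym2 V} {S : V → Prop} {x y z : V} (h : Linked ends S x y)
    (h' : Linked ends S y z) : Linked ends S x z :=
  ⟨h.1, h.2.trans h'.2⟩

lemma Linked.tail {ends : E → Sym2 V} {S : V → Prop} {y z v : V} (h : Linked ends S y z)
    (hv : S v) (ha : Adj ends z v) : Linked ends S y v :=
  ⟨h.1, h.2.tail ⟨hv, ha⟩⟩

lemma Linked.symm {ends : E → Sym2 V} {S : V → Prop} {y z : V} (h : Linked ends S y z) :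
    Linked ends S z y := by
  obtain ⟨h1, h2⟩ := h
  induction h2 with
  | refl => exact Linked.refl h1
  | @tail b c hb hbc ih =>
    refine Linked.trans ?_ ih
    have hSb : S b := Linked.right ⟨h1, hb⟩
    exact (Linked.refl hbc.1).tail hSb hbc.2.symm

lemma Linked.mono {ends : E → Sym2 V} {S S' : V → Prop} (hS : ∀ v, S v → S' v) {y z : V}
    (h : Linked ends S y z) : Linked ends S' y z :=
  ⟨hS _ h.1, Relation.ReflTransGen.mono (fun _ _ hh => ⟨hS _ hh.1, hh.2⟩) _ _ h.2⟩

/-- `K` linked to `y` avoiding `x ∉ K`. -/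
lemma Linked.avoid {ends : E → Sym2 V} {S : V → Prop} {x y z : V} (h : Linked ends S y z)
    (hx : ¬ Linked ends S y x) : Linked ends (fun u => S u ∧ u ≠ x) y z := by
  obtain ⟨h1, h2⟩ := h
  induction h2 with
  | refl => exact Linked.refl ⟨h1, fun e => hx (e ▸ Linked.refl h1)⟩
  | @tail b c hb hbc ih =>
    refine ih.tail ⟨hbc.1, ?_⟩ hbc.2
    rintro rfl
    exact hx (Linked.tail ⟨h1, hb⟩ hbc.1 hbc.2)

lemma touch_adj {ends : E → Sym2 V} {g : E} {u v : V} (hu : u ∈ ends g) (hv : v ∈ ends g)
    (huv : u ≠ v) : Adj ends u v :=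
  ⟨g, ((Sym2.mem_and_mem_iff huv).1 ⟨hu, hv⟩)⟩

/-- Three of the four vertices. -/
lemma Built.three {ends : E → Sym2 V} {a b c d : V} {D1 D : Finset E} (hd : Disjoint D1 D)
    (h : ∀ v, Touch ends D1 v → (v = a ∨ v = b ∨ v = c ∨ v = d ∨ Touch ends D v) →
      v = a ∨ v = b ∨ v = c ∨ v = d)
    (h1 : ¬ Touch ends D1 a ∨ ¬ Touch ends D1 b ∨ ¬ Touch ends D1 c ∨ ¬ Touch ends D1 d)
    (hD : Built ends a b c d D) : Built ends a b c d (D1 ∪ D) := by
  rcases h1 with h1 | h1 | h1 | h1
  · refine Built.cdb D1 D hd (fun v hv hv' => ?_) hD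
    rcases h v hv hv' with rfl | rfl | rfl | rfl
    · exact absurd hv h1
    all_goals tauto
  · refine Built.cda D1 D hd (fun v hv hv' => ?_) hD
    rcases h v hv hv' with rfl | rfl | rfl | rfl
    · tauto
    · exact absurd hv h1
    all_goals tauto
  · refine Built.abd D1 D hd (fun v hv hv' => ?_) hD
    rcases h v hv hv' with rfl | rfl | rfl | rfl
    · tauto
    · tauto
    · exact absurd hv h1
    · tauto
  · refine Built.abc D1 D hd (fun v hv hv' => ?_) hD
    rcases h v hv hv' with rfl | rfl | rfl | rfl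
    · tauto
    · tauto
    · tauto
    · exact absurd hv h1

/-- Edges inside the four vertices. -/
lemma Built.inside {ends : E → Sym2 V} {a b c d : V}
    (hab : a ≠ b) (hac : a ≠ c) (hbc : b ≠ c)
    (D : Finset E) (hT : ∀ v, Touch ends D v → v = a ∨ v = b ∨ v = c ∨ v = d) :
    Built ends a b c d D := by
  induction D using Finset.induction_on with
  | empty => exact Built.nil
  | insert g D hg ih =>
    have ih' := ih fun v hv => hT v (by
      obtain ⟨e, he, hv⟩ := hv
      exact ⟨e, mem_insert_of_mem he, hv⟩)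
    rw [insert_eq]
    refine Built.three (disjoint_singleton_left.2 hg) (fun v hv _ => hT v ?_) ?_ ih'
    · obtain ⟨e, he, hv⟩ := hv
      rw [mem_singleton] at he
      subst he
      exact ⟨e, mem_insert_self _ _, hv⟩
    · by_contra hcon
      push Not at hcon
      obtain ⟨⟨e1, he1, ha⟩, ⟨e2, he2, hb⟩, ⟨e3, he3, hc⟩, _⟩ := hcon
      rw [mem_singleton] at he1 he2 he3
      subst he1
      subst he2
      subst he3
      have e := (Sym2.mem_and_mem_iff hab).1 ⟨ha, hb⟩
      rw [e, Sym2.mem_iff] at hc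
      rcases hc with h | h
      · exact hac h.symm
      · exact hbc h.symm

/-- The edges of `D0` with both ends in `U` or among the four vertices. -/
noncomputable def DU (ends : E → Sym2 V) (a b c d : V) (D0 : Finset E) (U : Finset V) :
    Finset E :=
  D0.filter fun g => ∀ v ∈ ends g, v ∈ U ∨ v = a ∨ v = b ∨ v = c ∨ v = d

/-- Not one of the four vertices. -/
def Off (a b c d : V) (u : V) : Prop := u ≠ a ∧ u ≠ b ∧ u ≠ c ∧ u ≠ d

/-- Every component of `G - {a, b, c, d}` has a vertex `x` on every path through it. -/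
def Sep (ends : E → Sym2 V) (a b c d : V) : Prop :=
  ∀ v, Off a b c d v → ∃ x, ∀ y z, Linked ends (Off a b c d) v y →
    Linked ends (fun u => Off a b c d u ∧ u ≠ x) y z →
    ∀ p q, (p = a ∨ p = b) → (q = c ∨ q = d) → p ≠ x → q ≠ x → Adj ends p y →
      ¬ Adj ends z q

theorem Built.of_sep {ends : E → Sym2 V} {a b c d : V}
    (hab : a ≠ b) (hac : a ≠ c) (hbc : b ≠ c) (hcd : c ≠ d)
    (hsep : Sep ends a b c d) (D0 : Finset E) (U : Finset V)
    (hU : ∀ u ∈ U, Off a b c d u)
    (hcl : ∀ u ∈ U, ∀ v, Off a b c d v → Adj ends u v → v ∈ U) :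
    Built ends a b c d (DU ends a b c d D0 U) := by
  induction U using Finset.strongInduction with
  | H U ih =>
  rcases U.eq_empty_or_nonempty with rfl | ⟨v0, hv0⟩
  · refine Built.inside hab hac hbc _ ?_
    rintro v ⟨g, hg, hv⟩
    have := (mem_filter.1 hg).2 v hv
    simpa using this
  have h0 := hU v0 hv0
  -- the component
  set K : V → Prop := fun u => Linked ends (Off a b c d) v0 u with hK
  have hKoff : ∀ u, K u → Off a b c d u := fun u hu => hu.right
  have hK0 : K v0 := Linked.refl h0
  have hKcl : ∀ u, K u → ∀ v, Off a b c d v → Adj ends u v → K v := fun u hu v hv ha =>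
    hu.tail hv ha
  have hKU : ∀ u, K u → u ∈ U := by
    rintro u ⟨h1, h2⟩
    induction h2 with
    | refl => exact hv0
    | tail _ hbc ih => exact hcl _ ih _ hbc.1 hbc.2
  set U' := U.filter fun u => ¬ K u with hU'
  have hss : U' ⊂ U := by
    refine (filter_ssubset).2 ⟨v0, hv0, ?_⟩
    simpa using hK0
  have ihU := ih U' hss (fun u hu => hU u (mem_filter.1 hu).1) (by
    intro u hu v hv ha
    obtain ⟨hu1, hu2⟩ := mem_filter.1 hu
    refine mem_filter.2 ⟨hcl u hu1 v hv ha, fun hv' => hu2 ?_⟩
    exact hKcl v hv' u (hU u hu1) ha.symm)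
  -- the edges of the component
  set DK := (DU ends a b c d D0 U).filter fun g => ∃ v ∈ ends g, K v with hDK
  have hsplit : DU ends a b c d D0 U = DK ∪ DU ends a b c d D0 U' := by
    ext g
    simp only [hDK, DU, mem_union, mem_filter, hU']
    constructor
    · rintro ⟨hg, h⟩
      by_cases hk : ∃ v ∈ ends g, K v
      · exact Or.inl ⟨⟨hg, h⟩, hk⟩
      · refine Or.inr ⟨hg, fun v hv => ?_⟩
        rcases h v hv with h' | h'
        · exact Or.inl ⟨h', fun hkv => hk ⟨v, hv, hkv⟩⟩
        · exact Or.inr h'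
    · rintro (⟨h, _⟩ | ⟨hg, h⟩)
      · exact h
      · refine ⟨hg, fun v hv => ?_⟩
        rcases h v hv with h' | h'
        · exact Or.inl h'.1
        · exact Or.inr h'
  -- touched vertices
  have t0 : ∀ v, Touch ends (DU ends a b c d D0 U') v →
      (¬ K v) := by
    rintro v ⟨g, hg, hv⟩ hk
    rcases (mem_filter.1 hg).2 v hv with h | h
    · exact (mem_filter.1 h).2 hk
    · have := hKoff v hk
      unfold Off at this
      tauto
  have t1 : ∀ g ∈ DK, ∀ v ∈ ends g, K v ∨ v = a ∨ v = b ∨ v = c ∨ v = d := by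
    intro g hg v hv
    obtain ⟨hg1, u, hu, hku⟩ := mem_filter.1 hg
    rcases (mem_filter.1 hg1).2 v hv with h | h
    · left
      by_cases huv : u = v
      · rwa [← huv]
      · exact hKcl u hku v (hU v h) (touch_adj hu hv huv)
    · exact Or.inr h
  have hdisj : Disjoint DK (DU ends a b c d D0 U') := by
    rw [Finset.disjoint_left]
    intro g hg hg'
    obtain ⟨hg1, u, hu, hku⟩ := mem_filter.1 hg
    exact t0 u ⟨g, hg', hu⟩ hku
  obtain ⟨x, hx⟩ := hsep v0 h0
  rw [hsplit]
  by_cases hxK : K x
  · -- the vertex lies in the component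
    have hxoff := hKoff x hxK
    set A : V → Prop := fun z => ∃ y p, (p = a ∨ p = b) ∧ Adj ends p y ∧
      Linked ends (Off a b c d) v0 y ∧ Linked ends (fun u => Off a b c d u ∧ u ≠ x) y z with hA
    have hAK : ∀ z, A z → K z ∧ z ≠ x := by
      rintro z ⟨y, p, _, _, hy, hz⟩
      exact ⟨hy.trans (hz.mono fun u hu => hu.1), hz.right.2⟩
    have hAcl : ∀ u, A u → ∀ v, Off a b c d v → v ≠ x → Adj ends u v → A v := by
      rintro u ⟨y, p, hp, hpy, hy, hz⟩ v hv hvx ha
      exact ⟨y, p, hp, hpy, hy, hz.tail ⟨hv, hvx⟩ ha⟩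
    have hAq : ∀ u, A u → ∀ q, (q = c ∨ q = d) → ¬ Adj ends u q := by
      rintro u ⟨y, p, hp, hpy, hy, hz⟩ q hq
      refine hx y u hy hz p q hp hq ?_ ?_ hpy
      · rintro rfl
        unfold Off at hxoff
        tauto
      · rintro rfl
        unfold Off at hxoff
        tauto
    have hApu : ∀ u, K u → u ≠ x → ∀ p, (p = a ∨ p = b) → Adj ends p u → A u := by
      intro u hu hux p hp ha
      exact ⟨u, p, hp, ha, hu, Linked.refl ⟨hKoff u hu, hux⟩⟩
    set D1 := DK.filter fun g => (∃ v ∈ ends g, A v) ∨ (x ∈ ends g ∧ (a ∈ ends g ∨ b ∈ ends g))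
      with hD1
    set D2 := DK.filter fun g => ¬ ((∃ v ∈ ends g, A v) ∨
      (x ∈ ends g ∧ (a ∈ ends g ∨ b ∈ ends g))) with hD2
    have hD12 : DK = D1 ∪ D2 := (filter_union_filter_not_eq _ _).symm
    have hd12 : Disjoint D1 D2 := disjoint_filter_filter_not _ _ _
    have s1 : ∀ v, Touch ends D1 v → A v ∨ v = a ∨ v = b ∨ v = x := by
      rintro v ⟨g, hg, hv⟩
      obtain ⟨hg1, h⟩ := mem_filter.1 hg
      rcases h with ⟨u, hu, hAu⟩ | ⟨h1, h2⟩
      · by_cases huv : u = v
        · exact Or.inl (huv ▸ hAu)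
        have hadj := touch_adj hu hv huv
        by_cases hvx : v = x
        · tauto
        rcases t1 g hg1 v hv with h | h | h | h | h
        · exact Or.inl (hAcl u hAu v (hKoff v h) hvx hadj)
        · tauto
        · tauto
        · exact absurd hadj (hAq u hAu v (Or.inl h))
        · exact absurd hadj (hAq u hAu v (Or.inr h))
      · unfold Off at hxoff
        rcases h2 with h2 | h2
        · have e := (Sym2.mem_and_mem_iff hxoff.1).1 ⟨h1, h2⟩
          rw [e, Sym2.mem_iff] at hv
          tauto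
        · have e := (Sym2.mem_and_mem_iff hxoff.2.1).1 ⟨h1, h2⟩
          rw [e, Sym2.mem_iff] at hv
          tauto
    have s2 : ∀ v, Touch ends D2 v → ¬ A v ∧ v ≠ a ∧ v ≠ b := by
      rintro v ⟨g, hg, hv⟩
      obtain ⟨hg1, h⟩ := mem_filter.1 hg
      obtain ⟨_, u, hu, hku⟩ := mem_filter.1 hg1
      refine ⟨fun hAv => h (Or.inl ⟨v, hv, hAv⟩), ?_, ?_⟩
      · rintro rfl
        have huv : u ≠ v := (hKoff u hku).1
        by_cases hux : u = x
        · subst hux
          exact h (Or.inr ⟨hu, Or.inl hv⟩)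
        · exact h (Or.inl ⟨u, hu, hApu u hku hux v (Or.inl rfl) (touch_adj hv hu huv.symm)⟩)
      · rintro rfl
        have huv : u ≠ v := (hKoff u hku).2.1
        by_cases hux : u = x
        · subst hux
          exact h (Or.inr ⟨hu, Or.inr hv⟩)
        · exact h (Or.inl ⟨u, hu, hApu u hku hux v (Or.inr rfl) (touch_adj hv hu huv.symm)⟩)
    have sub2 : D2 ⊆ DK := filter_subset _ _
    have sub1 : D1 ⊆ DK := filter_subset _ _
    rw [hD12, union_assoc]
    refine Built.cut x D1 D2 _ hxoff ?_ ?_ ?_ ?_ ?_ ihU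
    · rw [disjoint_union_right]
      exact ⟨hd12, hdisj.mono_left sub1⟩
    · exact hdisj.mono_left sub2
    · intro v hv hv'
      rcases s1 v hv with h | h
      · exfalso
        obtain ⟨hk, hvx⟩ := hAK v h
        have hvo := hKoff v hk
        unfold Off at hvo
        have hT : Touch ends (D2 ∪ DU ends a b c d D0 U') v := by tauto
        obtain ⟨g, hg, hvg⟩ := hT
        rcases mem_union.1 hg with hg | hg
        · exact (s2 v ⟨g, hg, hvg⟩).1 h
        · exact t0 v ⟨g, hg, hvg⟩ hk
      · exact h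
    · intro v hv hv'
      obtain ⟨_, h1, h2⟩ := s2 v hv
      obtain ⟨g, hg, hvg⟩ := hv
      rcases t1 g (sub2 hg) v hvg with h | h
      · have hvo := hKoff v h
        have := t0 v
        unfold Off at hvo
        tauto
      · tauto
    · exact fun h => t0 x h hxK
  · -- the vertex does not lie in the component
    refine Built.three hdisj ?_ ?_ ihU
    · intro v hv hv'
      obtain ⟨g, hg, hvg⟩ := hv
      rcases t1 g hg v hvg with h | h
      · have hvo := hKoff v h
        have := t0 v
        unfold Off at hvo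
        tauto
      · exact h
    · have key : ∀ p q, (p = a ∨ p = b) → (q = c ∨ q = d) → p ≠ x → q ≠ x →
          Touch ends DK p → ¬ Touch ends DK q := by
        rintro p q hp hq hpx hqx ⟨g, hg, hpg⟩ ⟨g', hg', hqg'⟩
        obtain ⟨_, u, hu, hku⟩ := mem_filter.1 hg
        obtain ⟨_, u', hu', hku'⟩ := mem_filter.1 hg'
        have hup : u ≠ p := by
          have := hKoff u hku
          unfold Off at this
          rcases hp with rfl | rfl
          · exact this.1
          · exact this.2.1
        have huq : u' ≠ q := by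
          have := hKoff u' hku'
          unfold Off at this
          rcases hq with rfl | rfl
          · exact this.2.2.1
          · exact this.2.2.2
        have hl : Linked ends (Off a b c d) u u' := hku.symm.trans hku'
        have hl' := hl.avoid (x := x) fun h => hxK (hku.trans h)
        exact hx u u' hku hl' p q hp hq hpx hqx (touch_adj hpg hu hup.symm)
          (touch_adj hu' hqg' huq)
      by_contra hcon
      push Not at hcon
      obtain ⟨ha, hb, hc, hd⟩ := hcon
      by_cases hxa : a = x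
      · have hbx : b ≠ x := fun h => hab (hxa.trans h.symm)
        by_cases hxc : c = x
        · exact hac (hxa.trans hxc.symm)
        · exact key b c (Or.inr rfl) (Or.inl rfl) hbx hxc hb hc
      · by_cases hxc : c = x
        · have hdx : d ≠ x := fun h => hcd (hxc.trans h.symm)
          exact key a d (Or.inl rfl) (Or.inr rfl) hxa hdx ha hd
        · exact key a c (Or.inl rfl) (Or.inl rfl) hxa hxc ha hc

/-- The edges of a separated graph. -/
theorem Built.of_sep_all [Fintype V] {ends : E → Sym2 V}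
    {a b c d : V} (hab : a ≠ b) (hac : a ≠ c) (hbc : b ≠ c) (hcd : c ≠ d) (hsep : Sep ends a b c d) (D0 : Finset E) : Built ends a b c d D0 := by
  have h := Built.of_sep hab hac hbc hcd hsep D0
    (univ.filter (Off a b c d)) (fun u hu => (mem_filter.1 hu).2)
    (fun u _ v hv _ => mem_filter.2 ⟨mem_univ v, hv⟩)
  have e : DU ends a b c d D0 (univ.filter (Off a b c d)) = D0 := by
    ext g
    simp only [DU, mem_filter, mem_univ, true_and, Off, and_iff_left_iff_imp]
    intro _ v _
    tauto
  rwa [e] at h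

end Pool.Agent.CL
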