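import Mathlib
import Pool.Agent.Lib.MP_d90615_co.CL.Fam

/-!
The law of the kept edges.
-/

set_option autoImplicit false
set_option linter.unusedSectionVars false

namespace Pool.Agent.CL

open Finset Pool.Agent.Lib.MP_d90615_co
open scoped Classical

attribute [-instance] instDecidableEqSum instDecidableEqProd Subtype.instDecidableEq

variable {V E K : Type*} [Fintype K] [Fintype V] [Fintype E]

/-- An edge is kept if none of its ends belongs to a piece. -/
def Kept (ends : E → Sym2 V) (κ : V → Option K) (g : E) : Prop := ∀ v ∈ ends g, κ v = none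

/-- The reduced multigraph. -/
def reduced (ends : E → Sym2 V) (κ : V → Option K) (T : K → Fin 3 → V) :
    {g // Kept ends κ g} ⊕ (K × Fin 6) → Sym2 (V ⊕ K)
  | .inl g => (ends g).map Sum.inl
  | .inr (k, j) => ![s(.inl (T k 0), .inr k), s(.inl (T k 1), .inr k), s(.inl (T k 2), .inr k),
      s(.inl (T k 0), .inl (T k 1)), s(.inl (T k 1), .inl (T k 2)),
      s(.inl (T k 0), .inl (T k 2))] j

/-- The sum over the forests whose kept edges form `S`. -/
theorem law (ends : E → Sym2 V) (w : E → ℝ) (hw : ∀ e, 0 ≤ w e) (κ : V → Option K)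
    (T : K → Fin 3 → V) (hT : ∀ k, Function.Injective (T k)) (hTκ : ∀ k i, κ (T k i) = none)
    (hκ : ∀ g, ∀ u ∈ ends g, ∀ v ∈ ends g, ∀ k, κ u = some k → κ v = some k ∨ ∃ i, v = T k i) :
    ∃ (c : ℝ) (u : K × Fin 6 → ℝ), 0 < c ∧ (∀ q, 0 ≤ u q) ∧
      ∀ p : Finset {g // Kept ends κ g} → Prop,
        (∑ F : Finset E, if Forest ends F ∧ p (F.subtype (Kept ends κ)) then ∏ e ∈ F, w e else 0) =
        c * ∑ F : Finset ({g // Kept ends κ g} ⊕ (K × Fin 6)),
          if Forest (reduced ends κ T) F ∧ p F.toLeft then
            ∏ e ∈ F, (Sum.elim (fun g => w g.1) u) e else 0 := by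
  set D : K → Finset E := fun k => univ.filter fun g => ∃ v ∈ ends g, κ v = some k with hD
  have hmem : ∀ k g, g ∈ D k ↔ ∃ v ∈ ends g, κ v = some k := by
    intro k g
    simp [hD]
  have hdisj : ∀ k l, k ≠ l → Disjoint (D k) (D l) := by
    intro k l hkl
    rw [Finset.disjoint_left]
    intro g h1 h2
    rw [hmem] at h1 h2
    obtain ⟨u, hu, hu'⟩ := h1
    obtain ⟨v, hv, hv'⟩ := h2
    rcases hκ g u hu v hv k hu' with h | ⟨i, rfl⟩
    · rw [hv'] at h
      exact hkl (Option.some.inj h).symm
    · rw [hTκ] at hv'
      exact absurd hv' (by simp)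
  obtain ⟨c, u, hc, hu, hlaw⟩ := family ends w hw D T (fun v => κ v = none) hdisj hT hTκ
    (by
      intro k g hg v hv hv'
      obtain ⟨u, hu, hu'⟩ := (hmem k g).mp hg
      rcases hκ g u hu v hv k hu' with h | h
      · rw [hv'] at h
        exact absurd h (by simp)
      · exact h)
    (by
      intro k g hg h hh v hv hv'
      obtain ⟨u, hu, hu'⟩ := (hmem k g).mp hg
      rcases hκ g u hu v hv k hu' with h1 | ⟨i, rfl⟩
      · exact absurd ((hmem k h).mpr ⟨v, hv', h1⟩) hh
      · exact hTκ k i)
  refine ⟨c, u, hc, hu, fun p => ?_⟩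
  set A : Finset E := univ.filter (Kept ends κ) with hA
  set R : Finset E := univ.biUnion D with hR
  have hAR : A ∪ R = univ := by
    ext g
    simp only [hA, hR, mem_union, mem_filter, mem_univ, true_and, mem_biUnion, iff_true]
    by_cases h : Kept ends κ g
    · exact Or.inl h
    · unfold Kept at h
      push Not at h
      obtain ⟨v, hv, hv'⟩ := h
      obtain ⟨k, hk⟩ := Option.ne_none_iff_exists'.mp hv'
      exact Or.inr ⟨k, (hmem k g).mpr ⟨v, hv, hk⟩⟩
  have hd : Disjoint A R := by
    rw [Finset.disjoint_left]
    intro g h1 h2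
    simp only [hA, hR, mem_filter, mem_univ, true_and, mem_biUnion] at h1 h2
    obtain ⟨k, hk⟩ := h2
    obtain ⟨v, hv, hv'⟩ := (hmem k g).mp hk
    rw [h1 v hv] at hv'
    exact absurd hv' (by simp)
  have hAi : A = (univ : Finset {g // Kept ends κ g}).image Subtype.val := by
    ext g
    simp [hA]
  have hL : (∑ F : Finset E,
      if Forest ends F ∧ p (F.subtype (Kept ends κ)) then ∏ e ∈ F, w e else 0) =
      ∑ S : Finset {g // Kept ends κ g}, (if p S then ∏ g ∈ S, w g.1 else 0) *
        ∑ B ∈ R.powerset, if Forest ends (B ∪ S.image Subtype.val) then ∏ e ∈ B, w e else 0 := by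
    have h1 := sum_powerset_union hd
      (fun F => if Forest ends F ∧ p (F.subtype (Kept ends κ)) then ∏ e ∈ F, w e else 0)
    rw [hAR, Finset.powerset_univ] at h1
    rw [h1, hAi, Finset.powerset_image,
      Finset.sum_image (Finset.image_injective Subtype.val_injective).injOn,
      Finset.powerset_univ]
    refine Finset.sum_congr rfl fun S _ => ?_
    rw [Finset.mul_sum]
    refine Finset.sum_congr rfl fun B hB => ?_
    rw [mem_powerset] at hB
    have hSA : S.image Subtype.val ⊆ A := by
      intro g hg
      obtain ⟨g', _, rfl⟩ := mem_image.mp hg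
      simp only [hA, mem_filter, mem_univ, true_and]
      exact g'.2
    have hSB : Disjoint (S.image Subtype.val) B := Finset.disjoint_of_subset_left hSA
      (Finset.disjoint_of_subset_right hB hd)
    have hsub : (S.image Subtype.val ∪ B).subtype (Kept ends κ) = S := by
      ext g
      rw [Finset.mem_subtype, mem_union, mem_image]
      constructor
      · rintro (⟨g', hg', h⟩ | h)
        · rwa [Subtype.val_injective h] at hg'
        · exfalso
          have h3 : g.1 ∈ A := by
            simp only [hA, mem_filter, mem_univ, true_and]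
            exact g.2
          exact (Finset.disjoint_left.mp hd) h3 (hB h)
      · intro h
        exact Or.inl ⟨g, h, rfl⟩
    rw [hsub, Finset.union_comm (S.image Subtype.val) B]
    by_cases hp : p S <;> by_cases hf : Forest ends (B ∪ S.image Subtype.val)
    · rw [if_pos ⟨hf, hp⟩, if_pos hp, if_pos hf, Finset.prod_union hSB.symm,
        Finset.prod_image Subtype.val_injective.injOn, mul_comm]
    · rw [if_neg fun h => hf h.1, if_neg hf, mul_zero]
    · rw [if_neg fun h => hp h.2, if_neg hp, zero_mul]
    · rw [if_neg fun h => hp h.2, if_neg hp, zero_mul]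
  -- the reduced graph
  set A' : Finset ({g // Kept ends κ g} ⊕ (K × Fin 6)) :=
    (univ : Finset {g // Kept ends κ g}).image Sum.inl with hA'
  set R' : Finset ({g // Kept ends κ g} ⊕ (K × Fin 6)) :=
    (univ : Finset (K × Fin 6)).image Sum.inr with hR'
  have hAR' : A' ∪ R' = univ := by
    ext g
    rcases g with g | g <;> simp [hA', hR']
  have hd' : Disjoint A' R' := by
    rw [Finset.disjoint_left]
    intro g h1 h2
    rw [hA', mem_image] at h1
    rw [hR', mem_image] at h2
    obtain ⟨a, _, rfl⟩ := h1
    obtain ⟨b, _, h⟩ := h2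
    exact absurd h (by simp)
  have hL' : (∑ F : Finset ({g // Kept ends κ g} ⊕ (K × Fin 6)),
          if Forest (reduced ends κ T) F ∧ p F.toLeft then
            ∏ e ∈ F, (Sum.elim (fun g => w g.1) u) e else 0) =
      ∑ S : Finset {g // Kept ends κ g}, (if p S then ∏ g ∈ S, w g.1 else 0) *
        ∑ J : Finset (K × Fin 6),
          if Forest (bends ends T) (J.image Sum.inr ∪ (S.image Subtype.val).image Sum.inl) then
            ∏ j ∈ J, u j else 0 := by
    have h1 := sum_powerset_union hd'
      (fun F => if Forest (reduced ends κ T) F ∧ p F.toLeft then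
            ∏ e ∈ F, (Sum.elim (fun g => w g.1) u) e else 0)
    rw [hAR', Finset.powerset_univ] at h1
    rw [h1, hA', Finset.powerset_image,
      Finset.sum_image (Finset.image_injective Sum.inl_injective).injOn,
      Finset.powerset_univ]
    refine Finset.sum_congr rfl fun S _ => ?_
    rw [hR', Finset.powerset_image,
      Finset.sum_image (Finset.image_injective Sum.inr_injective).injOn,
      Finset.powerset_univ, Finset.mul_sum]
    refine Finset.sum_congr rfl fun J _ => ?_
    have hleft : (S.image Sum.inl ∪ J.image Sum.inr :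
        Finset ({g // Kept ends κ g} ⊕ (K × Fin 6))).toLeft = S := by
      ext g
      simp
    have hSB : Disjoint (J.image Sum.inr : Finset ({g // Kept ends κ g} ⊕ (K × Fin 6)))
        (S.image Sum.inl) := by
      rw [Finset.disjoint_left]
      intro g h1 h2
      obtain ⟨a, _, rfl⟩ := mem_image.mp h1
      obtain ⟨b, _, h⟩ := mem_image.mp h2
      exact absurd h (by simp)
    have hfor : Forest (reduced ends κ T) (S.image Sum.inl ∪ J.image Sum.inr) ↔
        Forest (bends ends T) (J.image Sum.inr ∪ (S.image Subtype.val).image Sum.inl) := by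
      have hi : Function.Injective (Sum.map Subtype.val id :
          {g // Kept ends κ g} ⊕ (K × Fin 6) → E ⊕ (K × Fin 6)) :=
        Sum.map_injective.mpr ⟨Subtype.val_injective, Function.injective_id⟩
      have h2 := forest_emap (ends := reduced ends κ T) (ends1 := bends ends T) hi
        (by
          rintro (g | ⟨k, j⟩)
          · rfl
          · rfl) (S.image Sum.inl ∪ J.image Sum.inr)
      rw [← h2]
      have h3 : (S.image Sum.inl ∪ J.image Sum.inr :
          Finset ({g // Kept ends κ g} ⊕ (K × Fin 6))).image (Sum.map Subtype.val id :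
          {g // Kept ends κ g} ⊕ (K × Fin 6) → E ⊕ (K × Fin 6)) =
          J.image Sum.inr ∪ (S.image Subtype.val).image Sum.inl := by
        rw [Finset.image_union, Finset.image_image, Finset.image_image, Finset.image_image,
          Finset.union_comm]
        congr 1
      rw [h3]
    rw [hleft, Finset.union_comm (S.image Sum.inl), Finset.prod_union hSB,
      Finset.prod_image Sum.inr_injective.injOn, Finset.prod_image Sum.inl_injective.injOn]
    rw [Finset.union_comm (S.image Sum.inl)] at hfor
    by_cases hp : p S <;>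
      by_cases hf : Forest (bends ends T) (J.image Sum.inr ∪ (S.image Subtype.val).image Sum.inl)
    · rw [if_pos ⟨hfor.mpr hf, hp⟩, if_pos hp, if_pos hf, mul_comm]
      rfl
    · rw [if_neg fun h => hf (hfor.mp h.1), if_neg hf, mul_zero]
    · rw [if_neg fun h => hp h.2, if_neg hp, zero_mul]
    · rw [if_neg fun h => hp h.2, if_neg hp, zero_mul]
  rw [hL, hL', Finset.mul_sum]
  refine Finset.sum_congr rfl fun S _ => ?_
  rw [hlaw (S.image Subtype.val)]
  · ring
  · intro k
    refine Finset.disjoint_of_subset_left (Finset.subset_biUnion_of_mem D (mem_univ k)) ?_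
    refine Finset.disjoint_of_subset_right ?_ hd.symm
    intro g hg
    obtain ⟨g', _, rfl⟩ := mem_image.mp hg
    simp only [hA, mem_filter, mem_univ, true_and]
    exact g'.2

end Pool.Agent.CL
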