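import Pool.Agent.Lib.MP_d90615_co.CL.Canon
import Pool.Agent.Lib.MP_d90615_co.CL.Block

/-!
Adding a block to a graph with four terminals.
-/

namespace Pool.Agent.CL

open Finset Pool.Agent.Lib.MP_d90615_co
open scoped Classical

variable {V E : Type*}

/-- Links between four terminals, seen as links between five terminals. -/
def emb (l : List (Fin 4 × Fin 4)) : List (Fin 5 × Fin 5) :=
  l.map fun q => (q.1.castSucc, q.2.castSucc)

/-- Pattern links on the terminals `p, q, z`. -/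
def tauF {n : ℕ} (p q z : Fin n) : Fin 5 → List (Fin n × Fin n)
  | 0 => []
  | 1 => [(p, q)]
  | 2 => [(q, z)]
  | 3 => [(p, z)]
  | 4 => [(p, q), (q, z)]

lemma tau_eq {n : ℕ} (t : Fin n → V) (p q z : Fin n) (i : Fin 5) :
    tau (t p) (t q) (t z) i = (tauF p q z i).map (tt t) := by
  fin_cases i <;> rfl

set_option maxRecDepth 100000 in
lemma chk_cut : ∀ k i j, chk Fin.castSucc (emb (Lc k) ++ tauF 0 1 4 i ++ tauF 2 3 4 j)
    (Ttab k i j) = true := by
  decide +kernel

lemma chk_c : ∀ k i, chk id (Lc k ++ tauF 0 1 2 i) (Ttab k i 3) = true := by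
  decide +kernel

lemma chk_d : ∀ k i, chk id (Lc k ++ tauF 0 1 3 i) (Ttab k i 2) = true := by
  decide +kernel

lemma chk_a : ∀ k j, chk id (Lc k ++ tauF 2 3 0 j) (Ttab k 3 j) = true := by
  decide +kernel

lemma chk_b : ∀ k j, chk id (Lc k ++ tauF 2 3 1 j) (Ttab k 2 j) = true := by
  decide +kernel

/-- Some edge of `D` has the end `v`. -/
def Touch (ends : E → Sym2 V) (D : Finset E) (v : V) : Prop := ∃ e ∈ D, v ∈ ends e

lemma PvO_eq (ends : E → Sym2 V) (w : E → ℝ) (t : Fin 4 → V) (D : Finset E)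
    (m : Option (Fin 15)) : PvO ends w t D m = vO (Pv ends w t D) m := by
  cases m <;> rfl

lemma Pv_empty (ends : E → Sym2 V) (w : E → ℝ) {t : Fin 4 → V} (ht : Function.Injective t) :
    Pv ends w t ∅ = fun _ => 1 := by
  funext k
  rw [Pv, P]
  have : (∅ : Finset E).powerset.filter (fun F => good ends F ((Lc k).map (tt t))) = {∅} := by
    ext F
    simp only [Finset.powerset_empty, mem_filter, mem_singleton]
    constructor
    · exact fun h => h.1
    · rintro rfl
      exact ⟨rfl, (good_code ends ht _).mpr (okk_Lc k)⟩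
  rw [this]
  simp

lemma mem_map_tt {n : ℕ} {t : Fin n → V} {out : V → Prop} (ho : ∀ i, out (t i))
    (l : List (Fin n × Fin n)) : ∀ q ∈ l.map (tt t), out q.1 ∧ out q.2 := by
  intro q hq
  obtain ⟨r, -, rfl⟩ := List.mem_map.mp hq
  exact ⟨ho _, ho _⟩

/-- Adding a piece at three of the four terminals. -/
theorem step_face {ends : E → Sym2 V} (w : E → ℝ) {t : Fin 4 → V} (ht : Function.Injective t)
    {p q z : Fin 4} (hpq : p ≠ q) (hqz : q ≠ z) (hpz : p ≠ z) {D1 D : Finset E}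
    (hd : Disjoint D1 D)
    (h1 : ∀ v, Touch ends D1 v → ((∃ i, v = t i) ∨ Touch ends D v) →
      v = t p ∨ v = t q ∨ v = t z)
    (G : Fin 15 → Fin 5 → Option (Fin 15))
    (hG : ∀ k i, chk id (Lc k ++ tauF p q z i) (G k i) = true) (k : Fin 15) :
    Pv ends w t (D1 ∪ D) k =
      ∑ i : Fin 5, X ends w D1 (t p) (t q) (t z) i * vO (Pv ends w t D) (G k i) := by
  set out : V → Prop := fun v => (∃ i, v = t i) ∨ Touch ends D v with hout
  have ho : ∀ i, out (t i) := fun i => Or.inl ⟨i, rfl⟩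
  have hD : ∀ e ∈ D, ∀ v ∈ ends e, out v := fun e he v hv => Or.inr ⟨e, he, hv⟩
  rw [Pv, glue w hd out (ht.ne hpq) (ht.ne hqz) (ht.ne hpz)
    (fun e he v hv hv' => h1 v ⟨e, he, hv⟩ hv') hD _ (mem_map_tt ho _)]
  refine Finset.sum_congr rfl fun i _ => ?_
  rw [tau_eq, ← List.map_append, P_eval w out hD ht ht id (fun _ => rfl) (fun i _ => ⟨i, rfl⟩) _
    (G k i) (hG k i), PvO_eq]

/-- Adding a block with a cut vertex `x`. -/
theorem step_cut {ends : E → Sym2 V} (w : E → ℝ) {t : Fin 5 → V} (ht : Function.Injective t)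
    {D1 D2 D : Finset E} (hd1 : Disjoint D1 (D2 ∪ D)) (hd2 : Disjoint D2 D)
    (h1 : ∀ v, Touch ends D1 v → ((∃ i, v = t i) ∨ Touch ends (D2 ∪ D) v) →
      v = t 0 ∨ v = t 1 ∨ v = t 4)
    (h2 : ∀ v, Touch ends D2 v → ((∃ i, v = t i) ∨ Touch ends D v) →
      v = t 2 ∨ v = t 3 ∨ v = t 4)
    (h3 : ¬ Touch ends D (t 4)) :
    Pv ends w (fun i => t i.castSucc) (D1 ∪ (D2 ∪ D)) =
      blk (X ends w D1 (t 0) (t 1) (t 4)) (X ends w D2 (t 2) (t 3) (t 4))
        (Pv ends w (fun i => t i.castSucc) D) := by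
  funext k
  have ht4 : Function.Injective (fun i : Fin 4 => t i.castSucc) :=
    fun i j hij => Fin.castSucc_injective 4 (ht hij)
  have hL : (Lc k).map (tt fun i => t i.castSucc) = (emb (Lc k)).map (tt t) := by
    rw [emb, List.map_map]
    rfl
  rw [Pv, hL]
  set out1 : V → Prop := fun v => (∃ i, v = t i) ∨ Touch ends (D2 ∪ D) v with hout1
  set out2 : V → Prop := fun v => (∃ i, v = t i) ∨ Touch ends D v with hout2
  set out3 : V → Prop := fun v => (∃ i : Fin 4, v = t i.castSucc) ∨ Touch ends D v with hout3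
  have ho1 : ∀ i, out1 (t i) := fun i => Or.inl ⟨i, rfl⟩
  have ho2 : ∀ i, out2 (t i) := fun i => Or.inl ⟨i, rfl⟩
  rw [glue w hd1 out1 (ht.ne (by decide)) (ht.ne (by decide)) (ht.ne (by decide))
    (fun e he v hv hv' => h1 v ⟨e, he, hv⟩ hv') (fun e he v hv => Or.inr ⟨e, he, hv⟩) _
    (mem_map_tt ho1 _)]
  unfold blk
  refine Finset.sum_congr rfl fun i _ => ?_
  rw [tau_eq, ← List.map_append,
    glue w hd2 out2 (ht.ne (by decide)) (ht.ne (by decide)) (ht.ne (by decide))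
    (fun e he v hv hv' => h2 v ⟨e, he, hv⟩ hv') (fun e he v hv => Or.inr ⟨e, he, hv⟩) _
    (mem_map_tt ho2 _), Finset.mul_sum]
  refine Finset.sum_congr rfl fun j _ => ?_
  rw [tau_eq, ← List.map_append, P_eval w out3 (fun e he v hv => Or.inr ⟨e, he, hv⟩) ht ht4
    Fin.castSucc (fun _ => rfl) ?_ _ (Ttab k i j) (chk_cut k i j), PvO_eq, mul_assoc]
  intro i hi
  rcases hi with ⟨j, hj⟩ | hi
  · exact ⟨j, ht hj⟩
  · by_cases h : i = 4
    · subst h
      exact absurd hi h3
    · refine ⟨⟨i.val, ?_⟩, ?_⟩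
      · have := i.isLt
        have h5 : i.val ≠ 4 := fun h' => h (Fin.ext h')
        omega
      · exact Fin.ext rfl

end Pool.Agent.CL
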